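import Mathlib
import Pool.Agent.Helper41.FQ.Gens

/-!
MODULE FQ-CH-1 (the coordinate ring of `U_w` is the image of the chart ring), pure algebra in `L`.

`x : GP κ L`, `R = x.chartPt.lift.range ⊆ L`, the `k`-algebra generated by the `Z_l = ζ_l²/λ²`,
`w = λ²/Λ_a`, `h_l = m_(a,l)/m_(a,m)` (it contains all `x.cZ l`, `x.cw`, `x.ch l`:
`ChartPt.lift_mk`, `ChartPt.aeval_pH`, `ChartPt.val`; and it is the range of `aeval x.chartPt.val`).
Let `A = adjoin k ({g / gA | g ∈ gens} ∪ {gA / gM})`, `gA = ζ_(star a)⁶`, `gM = m_(a,m)²`.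
`A ≤ R`: normalised by `λ`: `gA / λ⁶ = Z_(star a)³`, a unit of `R` as
`w κ_(star a) Z_(star a) = 1`; `ζ_i² ζ_j² ζ_l² / λ⁶ = Z_i Z_j Z_l`;
`m_(i,j) / λ³ = h_i Λ_j + h_j Λ_i` with `Λ_j = lam κ x.cZ j` normalised (identity: with
`u_l = ζ_l + ζ_a Λ_l / Λ_a = λ h_l` one has `m_(i,j) = u_i Λ_j + u_j Λ_i`, 2 = 0), so
`m_(i,j) m_(l,n) / gA ∈ R`; `m_(a,m) / λ³ = Λ_a`, so `gA / gM = Z_(star a)³ / Λ_a² ∈ R`.
`R ≤ A`: it suffices that the values of the 13 variables are in `A`: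
`Z_l = ζ_l² Λ_a² / m_(a,m)² = κ_(star a)² (ζ_l² ζ_(star a)⁴ / gA) (gA / gM)`,
`w = m_(a,m)² / Λ_a³ = κ_(star a)⁻³ gM / gA`,
`h_l = m_(a,l) / m_(a,m) = (m_(a,l) m_(a,m) / gA) (gA / gM)` (if `m_(a,l) = 0` it is `0`).
(`Λ_a = κ_(star a) ζ_(star a)²`; here `a = (0,false)`, `star a = (0,true)`, `m = (1,false)`.)
-/

open MvPolynomial

universe u

namespace FQ

variable {k : Type u} [Field k] {κ : Idx → k} {L : Type u} [Field L] [Algebra k L]

private theorem chAlg_cZ_mem (x : GP κ L) (l : Idx) : x.cZ l ∈ x.chartPt.lift.range := by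
  refine ⟨ChartRing.mk κ (X (Sum.inl l)), ?_⟩
  change x.chartPt.lift (ChartRing.mk κ (X (Sum.inl l))) = _
  rw [ChartPt.lift_mk, aeval_X]
  rfl

private theorem chAlg_cw_mem (x : GP κ L) : x.cw ∈ x.chartPt.lift.range := by
  refine ⟨ChartRing.mk κ (X (Sum.inr 0)), ?_⟩
  change x.chartPt.lift (ChartRing.mk κ (X (Sum.inr 0))) = _
  rw [ChartPt.lift_mk, aeval_X]
  rfl

private theorem chAlg_ch_mem (x : GP κ L) (l : Idx) : x.ch l ∈ x.chartPt.lift.range := by
  refine ⟨ChartRing.mk κ (pH κ l), ?_⟩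
  change x.chartPt.lift (ChartRing.mk κ (pH κ l)) = _
  rw [ChartPt.lift_mk, ChartPt.aeval_pH]
  rfl

private theorem chAlg_lam_mem (x : GP κ L) (l : Idx) :
    lam κ x.cZ l ∈ x.chartPt.lift.range :=
  mul_mem (Subalgebra.algebraMap_mem _ _) (chAlg_cZ_mem x _)

private theorem chAlg_Λa (x : GP κ L) :
    x.toGenPt.Λ (0, false) = algebraMap k L (κ (0, true)) * x.ζ (0, true) ^ 2 := rfl

private theorem chAlg_κ_ne (x : GP κ L) : algebraMap k L (κ (0, true)) ≠ 0 := by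
  rw [Ne, map_eq_zero]
  exact x.good.1 _

private theorem chAlg_inv (x : GP κ L) :
    algebraMap k L (κ (0, true)) * x.cw = x.toGenPt.lmb ^ 2 / x.ζ (0, true) ^ 2 := by
  have h1 := chAlg_κ_ne x
  have h2 := x.ζ_ne (0, true)
  rw [GP.cw, chAlg_Λa]
  field_simp

private theorem chAlg_m (x : GP κ L) (i j : Idx) :
    x.ch i * lam κ x.cZ j + x.ch j * lam κ x.cZ i = x.toGenPt.m i j / x.toGenPt.lmb ^ 3 := by
  rw [x.lam_cZ, x.lam_cZ, GP.ch, GP.ch, x.mam_eq]
  have h1 := x.lmb_ne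
  have h2 := x.Λ_ne (0, false)
  have h4 : x.toGenPt.m (0, false) i * x.toGenPt.Λ j + x.toGenPt.m (0, false) j * x.toGenPt.Λ i =
      x.toGenPt.Λ (0, false) * x.toGenPt.m i j := by
    simp only [GenPt.m]
    linear_combination (x.ζ (0, false) * x.toGenPt.Λ i * x.toGenPt.Λ j) * x.two
  have h5 : x.toGenPt.m (0, false) i / (x.toGenPt.lmb * x.toGenPt.Λ (0, false)) *
      (x.toGenPt.Λ j / x.toGenPt.lmb ^ 2) +
      x.toGenPt.m (0, false) j / (x.toGenPt.lmb * x.toGenPt.Λ (0, false)) *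
      (x.toGenPt.Λ i / x.toGenPt.lmb ^ 2) =
      (x.toGenPt.m (0, false) i * x.toGenPt.Λ j + x.toGenPt.m (0, false) j * x.toGenPt.Λ i) /
        (x.toGenPt.lmb ^ 3 * x.toGenPt.Λ (0, false)) := by
    field_simp
  rw [h5, h4, mul_comm (x.toGenPt.Λ (0, false)), mul_div_mul_right _ _ h2]

theorem GP.adjoin_eq (x : GP κ L) :
    Algebra.adjoin k ({y : L | ∃ g ∈ x.gens, y = g / x.gA} ∪ {x.gA / x.gM}) =
      x.chartPt.lift.range := by
  have hl := x.lmb_ne
  have hs := x.ζ_ne (0, true)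
  have hΛ := x.Λ_ne (0, false)
  have hκ := chAlg_κ_ne x
  have hm := x.mam_ne
  apply le_antisymm
  · have hinv : algebraMap k L (κ (0, true)) * x.cw ∈ x.chartPt.lift.range :=
      mul_mem (Subalgebra.algebraMap_mem _ _) (chAlg_cw_mem x)
    have hM : ∀ i j : Idx, x.toGenPt.m i j / x.toGenPt.lmb ^ 3 ∈ x.chartPt.lift.range := by
      intro i j
      rw [← chAlg_m]
      exact add_mem (mul_mem (chAlg_ch_mem x _) (chAlg_lam_mem x _))
        (mul_mem (chAlg_ch_mem x _) (chAlg_lam_mem x _))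
    rw [Algebra.adjoin_le_iff]
    rintro y (⟨g, ⟨hg0, hg⟩, rfl⟩ | hy)
    · rw [SetLike.mem_coe]
      rcases hg with ⟨i, j, l, rfl⟩ | ⟨i, j, l, n, rfl⟩
      · have h1 : x.ζ i ^ 2 * x.ζ j ^ 2 * x.ζ l ^ 2 / x.gA =
            x.cZ i * x.cZ j * x.cZ l * (algebraMap k L (κ (0, true)) * x.cw) ^ 3 := by
          rw [chAlg_inv, GP.cZ, GP.cZ, GP.cZ, GP.gA]
          field_simp
        rw [h1]
        exact mul_mem (mul_mem (mul_mem (chAlg_cZ_mem x _) (chAlg_cZ_mem x _)) (chAlg_cZ_mem x _))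
          (pow_mem hinv 3)
      · have h1 : x.toGenPt.m i j * x.toGenPt.m l n / x.gA =
            x.toGenPt.m i j / x.toGenPt.lmb ^ 3 * (x.toGenPt.m l n / x.toGenPt.lmb ^ 3) *
              (algebraMap k L (κ (0, true)) * x.cw) ^ 3 := by
          rw [chAlg_inv, GP.gA]
          field_simp
        rw [h1]
        exact mul_mem (mul_mem (hM _ _) (hM _ _)) (pow_mem hinv 3)
    · rw [Set.mem_singleton_iff.1 hy, SetLike.mem_coe]
      have h1 : x.gA / x.gM = x.cZ (0, true) ^ 3 * x.cw ^ 2 := by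
        rw [GP.gA, GP.gM, x.mam_eq, GP.cZ, GP.cw]
        field_simp
      rw [h1]
      exact mul_mem (pow_mem (chAlg_cZ_mem x _) 3) (pow_mem (chAlg_cw_mem x) 2)
  · set A := Algebra.adjoin k ({y : L | ∃ g ∈ x.gens, y = g / x.gA} ∪ {x.gA / x.gM}) with hA
    have hgen : ∀ g ∈ x.gens, g / x.gA ∈ A := fun g hg =>
      Algebra.subset_adjoin (Or.inl ⟨g, hg, rfl⟩)
    have hAM : x.gA / x.gM ∈ A := Algebra.subset_adjoin (Or.inr rfl)
    have hZ : ∀ l, x.cZ l ∈ A := by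
      intro l
      have h1 : x.cZ l = algebraMap k L (κ (0, true)) ^ 2 *
          (x.ζ l ^ 2 * x.ζ (0, true) ^ 2 * x.ζ (0, true) ^ 2 / x.gA) * (x.gA / x.gM) := by
        have h2 : x.toGenPt.lmb = x.toGenPt.m (0, false) (1, false) /
            (algebraMap k L (κ (0, true)) * x.ζ (0, true) ^ 2) := rfl
        rw [GP.cZ, h2, GP.gA, GP.gM]
        field_simp
      rw [h1]
      refine mul_mem (mul_mem (pow_mem (Subalgebra.algebraMap_mem _ _) 2) (hgen _ ⟨?_, ?_⟩)) hAM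
      · exact mul_ne_zero (mul_ne_zero (pow_ne_zero _ (x.ζ_ne _)) (pow_ne_zero _ hs))
          (pow_ne_zero _ hs)
      · exact Or.inl ⟨l, (0, true), (0, true), rfl⟩
    have hw : x.cw ∈ A := by
      have h1 : x.cw = algebraMap k L ((κ (0, true))⁻¹ ^ 3) * (x.gM / x.gA) := by
        have h2 : x.toGenPt.lmb = x.toGenPt.m (0, false) (1, false) /
            (algebraMap k L (κ (0, true)) * x.ζ (0, true) ^ 2) := rfl
        rw [GP.cw, h2, chAlg_Λa, GP.gA, GP.gM, map_pow, map_inv₀]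
        field_simp
      rw [h1]
      exact mul_mem (Subalgebra.algebraMap_mem _ _) (hgen _ x.gM_mem)
    have hh : ∀ l, x.ch l ∈ A := by
      intro l
      by_cases h0 : x.toGenPt.m (0, false) l = 0
      · rw [GP.ch, h0, zero_div]
        exact zero_mem _
      · have h1 : x.ch l = (x.toGenPt.m (0, false) l * x.toGenPt.m (0, false) (1, false) / x.gA) *
            (x.gA / x.gM) := by
          rw [GP.ch, GP.gA, GP.gM]
          field_simp
        rw [h1]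
        exact mul_mem (hgen _ ⟨mul_ne_zero h0 hm, Or.inr ⟨_, _, _, _, rfl⟩⟩) hAM
    rintro y ⟨c, rfl⟩
    obtain ⟨p, rfl⟩ := ChartRing.mk_surjective κ c
    change x.chartPt.lift (ChartRing.mk κ p) ∈ A
    rw [ChartPt.lift_mk]
    have hv : ∀ v, x.chartPt.val v ∈ A := by
      rintro (l | i)
      · exact hZ l
      · fin_cases i
        · exact hw
        · exact hh _
        · exact hh _
        · exact hh _
        · exact hh _
    have h3 : Algebra.adjoin k (Set.range x.chartPt.val) ≤ A := by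
      rw [Algebra.adjoin_le_iff]
      rintro _ ⟨v, rfl⟩
      exact hv v
    apply h3
    rw [Algebra.adjoin_range_eq_range_aeval]
    exact ⟨p, rfl⟩

end FQ
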