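import Mathlib
import Pool.Agent.Helper41.FQ.Psi

/-!
MODULE FQ-STD-3 (properties of `ψ : k[z] → B[τ]`, `z_l ↦ h_l + τ Λ_l`, `τ² = Z_a w²`).

Write `y = ChartRing.pt κ` (so `y.h_a`, `y.h_m`, `y.eq_ms`, `y.eq_as`, `y.eq_Z`, `y.eq_w`),
`Λ_l = lam κ y.Z l`, everything mapped by `inclE κ`. In `B[τ]` (`AdjoinRoot`) `τ² = Z_a w²`
(`AdjoinRoot.eval₂_root`), and `2 = 0` (characteristic 2: `CharP k 2`, algebra over `k`).
* `psi_sq`: `(h_l + τ Λ_l)² = h_l² + τ² Λ_l² = h_l² + Z_a w² Λ_l² = Z_l` for `l ≠ a` (`eq_Z`),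
  and for `l = a`: `h_a = 0`, `Z_a (w Λ_a)² = Z_a` (`eq_w`).
* `psi_lam`: `ψ(Λ_l) = κ_(star l) ψ(z_(star l))² = κ_(star l) Z_(star l) = Λ_l` (from `psi_sq`).
* `psi_m`: `ψ(m_(l,n)) = (h_l + τ Λ_l) Λ_n + (h_n + τ Λ_n) Λ_l = h_l Λ_n + h_n Λ_l` (2 = 0).
* `psi_F`: `F = ∑ κ_l z_l³ = ∑_l z_l Λ_(star l)` so `ψ(F) = ∑ h_l Λ_(star l) + τ ∑ Λ_l Λ_(star l)`;
  the second sum is twice a sum, `= 0`; the first is
  `h_a Λ_(star a) + h_(star a) Λ_a + ∑_{l ≠ a, star a} h_l Λ_(star l)`, and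
  `h_(star a) Λ_a = w Λ_a * (...)` by `eq_as`, `eq_w`: total `0`.
* `psi_Q`: `ψ(Q) = ∑_i h_(i0) h_(i1) + τ ∑_l h_l Λ_(star l) + τ² ∑_i Λ_(i0) Λ_(i1)`
  `= h_m h_(star m) + h_p h_(star p) + h_q h_(star q) + Z_a w² ∑_i Λ_(i0) Λ_(i1) = 0` by `eq_ms`.
* `inclE_injective`: `extPoly κ` is monic of degree 2 (`AdjoinRoot.of` is injective for a monic
  polynomial of positive degree: `B[τ]` is free with basis `1, τ`).
-/

open MvPolynomial

universe u

namespace FQ

variable {k : Type u} [Field k] [CharP k 2] (κ : Idx → k)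

private theorem two_E : (2 : ExtRing κ) = 0 := by
  have h0 : (2 : k) = 0 := CharTwo.two_eq_zero
  have h := congrArg (algebraMap k (ExtRing κ)) h0
  rw [map_ofNat, map_zero] at h
  exact h

omit [CharP k 2] in
private theorem root_sq : AdjoinRoot.root (extPoly κ) ^ 2 =
    inclE κ ((ChartRing.pt κ).Z (0, false) * (ChartRing.pt κ).w ^ 2) := by
  have h : Polynomial.eval₂ (AdjoinRoot.of (extPoly κ)) (AdjoinRoot.root (extPoly κ))
      (Polynomial.X ^ 2 -
        Polynomial.C ((ChartRing.pt κ).Z (0, false) * (ChartRing.pt κ).w ^ 2)) = 0 :=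
    AdjoinRoot.eval₂_root (extPoly κ)
  rw [Polynomial.eval₂_sub, Polynomial.eval₂_pow, Polynomial.eval₂_X, Polynomial.eval₂_C,
    sub_eq_zero] at h
  exact h

omit [CharP k 2] in
private theorem psi_X (l : Idx) : psi κ (X l) = inclE κ ((ChartRing.pt κ).h l) +
    AdjoinRoot.root (extPoly κ) * inclE κ (lam κ (ChartRing.pt κ).Z l) :=
  aeval_X _ _

theorem psi_sq (l : Idx) : psi κ (X l) ^ 2 = inclE κ ((ChartRing.pt κ).Z l) := by
  have h2 := two_E κ
  have hτ := root_sq κ
  rw [psi_X]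
  by_cases hl : l = (0, false)
  · subst hl
    have hw := congrArg (inclE κ) (ChartRing.pt κ).eq_w
    have ha := congrArg (inclE κ) (ChartRing.pt κ).h_a
    simp only [map_mul, map_pow, map_one, map_zero] at hτ hw ha ⊢
    rw [ha, zero_add, mul_pow, hτ]
    linear_combination (inclE κ ((ChartRing.pt κ).Z (0, false))) *
      (inclE κ (ChartRing.pt κ).w * inclE κ (lam κ (ChartRing.pt κ).Z (0, false)) + 1) * hw
  · have hZ := congrArg (inclE κ) ((ChartRing.pt κ).eq_Z l hl)
    simp only [map_mul, map_pow, map_add] at hτ hZ ⊢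
    rw [hZ]
    linear_combination (inclE κ (lam κ (ChartRing.pt κ).Z l)) ^ 2 * hτ +
      (inclE κ ((ChartRing.pt κ).h l) * AdjoinRoot.root (extPoly κ) *
        inclE κ (lam κ (ChartRing.pt κ).Z l)) * h2

theorem psi_lam (l : Idx) : psi κ (cLam κ l) = inclE κ (lam κ (ChartRing.pt κ).Z l) := by
  rw [cLam, lam, map_mul, map_pow, psi_sq, map_mul]
  congr 1
  rw [AlgHom.commutes]
  exact (psi κ).commutes _

theorem psi_m (l n : Idx) : psi κ (cm κ l n) =
    inclE κ ((ChartRing.pt κ).h l * lam κ (ChartRing.pt κ).Z n +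
      (ChartRing.pt κ).h n * lam κ (ChartRing.pt κ).Z l) := by
  have h2 := two_E κ
  rw [cm, map_add, map_mul, map_mul, psi_lam, psi_lam, psi_X, psi_X, map_add, map_mul, map_mul]
  linear_combination (AdjoinRoot.root (extPoly κ) * inclE κ (lam κ (ChartRing.pt κ).Z l) *
    inclE κ (lam κ (ChartRing.pt κ).Z n)) * h2

omit [CharP k 2] in
private theorem F_eq : polyF κ = ∑ i : Fin 4,
    (X (i, false) * cLam κ (i, true) + X (i, true) * cLam κ (i, false)) := by
  rw [polyF, Fintype.sum_prod_type]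
  refine Finset.sum_congr rfl fun i _ => ?_
  rw [Fintype.sum_bool]
  simp only [cLam, star, Bool.not_true, Bool.not_false]
  ring

private theorem sum_HL : ∑ i : Fin 4,
    (inclE κ ((ChartRing.pt κ).h (i, false)) * inclE κ (lam κ (ChartRing.pt κ).Z (i, true)) +
      inclE κ ((ChartRing.pt κ).h (i, true)) *
        inclE κ (lam κ (ChartRing.pt κ).Z (i, false))) = 0 := by
  have h2 := two_E κ
  have hw := congrArg (inclE κ) (ChartRing.pt κ).eq_w
  have ha := congrArg (inclE κ) (ChartRing.pt κ).h_a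
  have hs := congrArg (inclE κ) (ChartRing.pt κ).eq_as
  simp only [map_mul, map_add, map_one, map_zero] at hw ha hs
  rw [Fin.sum_univ_four, ha, hs]
  linear_combination
    (inclE κ (lam κ (ChartRing.pt κ).Z (1, true)) * inclE κ ((ChartRing.pt κ).h (1, false)) +
      inclE κ (lam κ (ChartRing.pt κ).Z (1, false)) * inclE κ ((ChartRing.pt κ).h (1, true)) +
      inclE κ (lam κ (ChartRing.pt κ).Z (2, true)) * inclE κ ((ChartRing.pt κ).h (2, false)) +
      inclE κ (lam κ (ChartRing.pt κ).Z (2, false)) * inclE κ ((ChartRing.pt κ).h (2, true)) +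
      inclE κ (lam κ (ChartRing.pt κ).Z (3, true)) * inclE κ ((ChartRing.pt κ).h (3, false)) +
      inclE κ (lam κ (ChartRing.pt κ).Z (3, false)) * inclE κ ((ChartRing.pt κ).h (3, true))) *
      (hw + h2)

theorem psi_F : psi κ (polyF κ) = 0 := by
  have h2 := two_E κ
  have h := sum_HL κ
  rw [F_eq]
  simp only [map_sum, map_add, map_mul, psi_lam, psi_X]
  rw [Fin.sum_univ_four] at h ⊢
  linear_combination h + AdjoinRoot.root (extPoly κ) *
    (inclE κ (lam κ (ChartRing.pt κ).Z (0, false)) * inclE κ (lam κ (ChartRing.pt κ).Z (0, true)) +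
      inclE κ (lam κ (ChartRing.pt κ).Z (1, false)) *
        inclE κ (lam κ (ChartRing.pt κ).Z (1, true)) +
      inclE κ (lam κ (ChartRing.pt κ).Z (2, false)) *
        inclE κ (lam κ (ChartRing.pt κ).Z (2, true)) +
      inclE κ (lam κ (ChartRing.pt κ).Z (3, false)) *
        inclE κ (lam κ (ChartRing.pt κ).Z (3, true))) * h2

theorem psi_Q : psi κ (polyQ k) = 0 := by
  have h2 := two_E κ
  have h := sum_HL κ
  have hτ := root_sq κ
  have ha := congrArg (inclE κ) (ChartRing.pt κ).h_a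
  have hm := congrArg (inclE κ) (ChartRing.pt κ).h_m
  have hs := congrArg (inclE κ) (ChartRing.pt κ).eq_ms
  rw [Fin.sum_univ_four] at hs h
  simp only [map_mul, map_add, map_pow, map_one, map_zero] at hτ ha hm hs
  rw [polyQ]
  simp only [map_sum, map_mul, psi_X]
  rw [Fin.sum_univ_four]
  linear_combination AdjoinRoot.root (extPoly κ) * h +
    (inclE κ (lam κ (ChartRing.pt κ).Z (0, false)) * inclE κ (lam κ (ChartRing.pt κ).Z (0, true)) +
      inclE κ (lam κ (ChartRing.pt κ).Z (1, false)) *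
        inclE κ (lam κ (ChartRing.pt κ).Z (1, true)) +
      inclE κ (lam κ (ChartRing.pt κ).Z (2, false)) *
        inclE κ (lam κ (ChartRing.pt κ).Z (2, true)) +
      inclE κ (lam κ (ChartRing.pt κ).Z (3, false)) *
        inclE κ (lam κ (ChartRing.pt κ).Z (3, true))) * hτ +
    inclE κ ((ChartRing.pt κ).h (0, true)) * ha +
    inclE κ ((ChartRing.pt κ).h (1, true)) * (hm + h2) - hs

omit [CharP k 2] in
theorem inclE_injective : Function.Injective (inclE κ) := by
  rcases subsingleton_or_nontrivial (ChartRing κ) with hS | hN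
  · exact fun x y _ => Subsingleton.elim x y
  · have hm : (extPoly κ).Monic := Polynomial.monic_X_pow_sub_C _ two_ne_zero
    have hd : (extPoly κ).degree = 2 := Polynomial.degree_X_pow_sub_C two_pos _
    rw [injective_iff_map_eq_zero]
    intro x hx
    by_contra h0
    have h1 : (Polynomial.C x : Polynomial (ChartRing κ)) ≠ 0 := by
      rwa [Ne, Polynomial.C_eq_zero]
    refine AdjoinRoot.mk_ne_zero_of_degree_lt hm h1 ?_ hx
    rw [hd, Polynomial.degree_C h0]
    decide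

end FQ
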