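import Mathlib
import Pool.Agent.Helper41.FQ.CP
import Pool.Agent.Helper41.FQ.M.Psi1

/-!
MODULE FQ-STD-6 (the chart ring embeds in `L`).

`x : GP κ L`; show that `x.chartPt.lift : ChartRing κ →ₐ[k] L` is injective.
Claim: for every `β : ChartRing κ` there are a polynomial `N : MvPolynomial Idx k` and
`i : ℕ` with
(1) `aeval x.ζ N = x.chartPt.lift β * (x.m a m * x.Λ a) ^ i`, and
(2) `psi κ N = inclE κ (β * (lam κ (ChartRing.pt κ).Z a) ^ (2 * i))`
   (`psi_m` for `(a, m)` gives the image of `Λ_a`, `psi_lam` for `a` gives the image of `Λ_a`).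
Proof: `β = mk p` (`ChartRing.mk_surjective`), induction on `p` (`MvPolynomial.induction_on`):
constants (`N = C c`, `i = 0`), sums (multiply to the common exponent `i + i'`), and products with
a variable. For the variables: in `L`, with `D = m_(a,m) Λ_a`:
  `Z_l = ζ_l² / λ² = ζ_l² Λ_a² / m_(a,m)² = (ζ_l² Λ_a⁴) / D²`, `N = X l ^ 2 * cLam a ^ 4`, i = 2,
  `w = λ² / Λ_a = m_(a,m)² / Λ_a³ = m_(a,m)⁵ / D³`, `N = cm a m ^ 5`, i = 3,
  `h_l = m_(a,l) / m_(a,m) = m_(a,l) Λ_a / D`, `N = cm a l * cLam a`, i = 1;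
in `B[τ]`: `psi_sq`, `psi_lam`, `psi_m` (`h_a = 0`), `w Λ_a = 1`.
Now let `x.chartPt.lift β = 0`. Then `aeval x.ζ N = 0`, so `N ∈ (Q, F)` (`x.ker`), so
`psi κ N = 0` (`psi_Q`, `psi_F`), hence `β Λ_a ^ (2 i) = 0` (`inclE_injective`), and `Λ_a` is a
unit: `β = 0`.
-/

open MvPolynomial

universe u v

namespace FQ

variable {k : Type u} [Field k] [CharP k 2] {κ : Idx → k}
  {L : Type v} [Field L] [Algebra k L]

/-- A polynomial numerator for the element `β` of the chart ring. -/
private def Num (x : GP κ L) (β : ChartRing κ) : Prop :=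
  ∃ (N : MvPolynomial Idx k) (i : ℕ),
    aeval x.ζ N = x.chartPt.lift β *
      (x.toGenPt.m (0, false) (1, false) * x.toGenPt.Λ (0, false)) ^ i ∧
    psi κ N = inclE κ (β * (lam κ (ChartRing.pt κ).Z (0, false)) ^ (2 * i))

private theorem psi_den : psi κ (cm κ (0, false) (1, false) * cLam κ (0, false)) =
    inclE κ ((lam κ (ChartRing.pt κ).Z (0, false)) ^ 2) := by
  rw [map_mul, psi_m, psi_lam, (ChartRing.pt κ).h_a, (ChartRing.pt κ).h_m, ← map_mul]
  congr 1
  ring

private theorem num_add (x : GP κ L) {β γ : ChartRing κ} (hβ : Num x β) (hγ : Num x γ) :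
    Num x (β + γ) := by
  obtain ⟨N, i, h1, h2⟩ := hβ
  obtain ⟨M, j, h3, h4⟩ := hγ
  refine ⟨N * (cm κ (0, false) (1, false) * cLam κ (0, false)) ^ j +
    M * (cm κ (0, false) (1, false) * cLam κ (0, false)) ^ i, i + j, ?_, ?_⟩
  · simp only [map_add, map_mul, map_pow, x.toGenPt.aeval_cm, x.toGenPt.aeval_cLam, h1, h3]
    ring
  · rw [map_add, map_mul, map_mul, map_pow, map_pow, psi_den, h2, h4, ← map_pow, ← map_pow,
      ← map_mul, ← map_mul, ← map_add]
    congr 1
    ring

omit [CharP k 2] in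
private theorem num_mul (x : GP κ L) {β γ : ChartRing κ} (hβ : Num x β) (hγ : Num x γ) :
    Num x (β * γ) := by
  obtain ⟨N, i, h1, h2⟩ := hβ
  obtain ⟨M, j, h3, h4⟩ := hγ
  refine ⟨N * M, i + j, ?_, ?_⟩
  · rw [map_mul, map_mul, h1, h3]
    ring
  · rw [map_mul, h2, h4, ← map_mul]
    congr 1
    ring

omit [CharP k 2] in
private theorem num_C (x : GP κ L) (c : k) : Num x (ChartRing.mk κ (C c)) := by
  refine ⟨C c, 0, ?_, ?_⟩
  · rw [ChartPt.lift_mk]
    simp
  · have h : ChartRing.mk κ (C c) = algebraMap k (ChartRing κ) c :=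
      (ChartRing.mk κ).commutes c
    rw [h, mul_zero, pow_zero, mul_one, AlgHom.commutes]
    exact (psi κ).commutes c

private theorem num_Z (x : GP κ L) (l : Idx) :
    Num x (ChartRing.mk κ (X (Sum.inl l))) := by
  refine ⟨X l ^ 2 * cLam κ (0, false) ^ 4, 2, ?_, ?_⟩
  · rw [ChartPt.lift_mk, aeval_X, map_mul, map_pow, map_pow, aeval_X, x.toGenPt.aeval_cLam,
      show x.chartPt.val (Sum.inl l) = x.cZ l from rfl, GP.cZ, x.mam_eq]
    have h1 := x.lmb_ne
    field_simp
  · rw [map_mul, map_pow, map_pow, psi_sq, psi_lam, ← map_pow, ← map_mul]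
    rfl

private theorem num_w (x : GP κ L) : Num x (ChartRing.mk κ (X (Sum.inr 0))) := by
  refine ⟨cm κ (0, false) (1, false) ^ 5, 3, ?_, ?_⟩
  · rw [ChartPt.lift_mk, aeval_X, map_pow, x.toGenPt.aeval_cm,
      show x.chartPt.val (Sum.inr 0) = x.cw from rfl, GP.cw, x.mam_eq]
    have h2 := x.Λ_ne (0, false)
    field_simp
  · rw [map_pow, psi_m, (ChartRing.pt κ).h_a, (ChartRing.pt κ).h_m, ← map_pow]
    congr 1
    have h := (ChartRing.pt κ).eq_w
    have hw : (ChartRing.pt κ).w = ChartRing.mk κ (X (Sum.inr 0)) := rfl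
    rw [← hw]
    linear_combination (-(lam κ (ChartRing.pt κ).Z (0, false)) ^ 5) * h

private theorem num_h (x : GP κ L) (l : Idx) (γ : ChartRing κ)
    (hγ : γ = (ChartRing.pt κ).h l) (hγ' : x.chartPt.lift γ = x.ch l) : Num x γ := by
  refine ⟨cm κ (0, false) l * cLam κ (0, false), 1, ?_, ?_⟩
  · rw [hγ', map_mul, x.toGenPt.aeval_cLam, x.toGenPt.aeval_cm, GP.ch]
    have h3 := x.mam_ne
    field_simp
  · rw [map_mul, psi_m, psi_lam, (ChartRing.pt κ).h_a, ← map_mul, hγ]
    congr 1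
    ring

private theorem num_X (x : GP κ L) (v : Vars) : Num x (ChartRing.mk κ (X v)) := by
  rcases v with l | i
  · exact num_Z x l
  · fin_cases i
    · exact num_w x
    · refine num_h x (2, false) _ rfl ?_
      rw [ChartPt.lift_mk, aeval_X]
      rfl
    · refine num_h x (2, true) _ rfl ?_
      rw [ChartPt.lift_mk, aeval_X]
      rfl
    · refine num_h x (3, false) _ rfl ?_
      rw [ChartPt.lift_mk, aeval_X]
      rfl
    · refine num_h x (3, true) _ rfl ?_
      rw [ChartPt.lift_mk, aeval_X]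
      rfl

private theorem num_all (x : GP κ L) (β : ChartRing κ) : Num x β := by
  obtain ⟨p, rfl⟩ := ChartRing.mk_surjective κ β
  induction p using MvPolynomial.induction_on with
  | C c => exact num_C x c
  | add p q hp hq =>
    rw [map_add]
    exact num_add x hp hq
  | mul_X p v hp =>
    rw [map_mul]
    exact num_mul x hp (num_X x v)

private theorem psi_ideal (p : MvPolynomial Idx k)
    (hp : p ∈ Ideal.span ({polyQ k, polyF κ} : Set (MvPolynomial Idx k))) : psi κ p = 0 := by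
  have hle : Ideal.span ({polyQ k, polyF κ} : Set (MvPolynomial Idx k)) ≤
      RingHom.ker (psi κ : MvPolynomial Idx k →ₐ[k] ExtRing κ) := by
    rw [Ideal.span_le]
    intro q hq
    simp only [Set.mem_insert_iff, Set.mem_singleton_iff] at hq
    rcases hq with rfl | rfl
    · exact psi_Q κ
    · exact psi_F κ
  exact hle hp

theorem GP.lift_injective (x : GP κ L) : Function.Injective x.chartPt.lift := by
  rw [injective_iff_map_eq_zero]
  intro β hβ
  obtain ⟨N, i, h1, h2⟩ := num_all x β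
  rw [hβ, zero_mul] at h1
  have h3 := psi_ideal N ((x.ker N).1 h1)
  rw [h2] at h3
  have h4 : β * (lam κ (ChartRing.pt κ).Z (0, false)) ^ (2 * i) = 0 :=
    inclE_injective κ (by rw [h3, map_zero])
  have hu : IsUnit ((lam κ (ChartRing.pt κ).Z (0, false)) ^ (2 * i)) :=
    (IsUnit.of_mul_eq_one _ (by rw [mul_comm]; exact (ChartRing.pt κ).eq_w)).pow _
  exact (hu.mul_left_eq_zero).1 h4

end FQ
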