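import Mathlib
import Pool.Agent.Helper41.FQ.Iface

/-!
MODULE FQ-CH-4 (functions on `W i ∩ W j` and points of the model).

`M : Model e`. Notation `M.val U : Γ(X, U) →+* L` (injective: `germToFunctionField_injective` and
`ev` is a homomorphism of fields). `W i ∩ W j` is the basic open set of `W i` (affine) of the
function with value `e j / e i` (`M.basic`, `M.range`), so its ring of functions is the
localization (`IsAffineOpen.isLocalization_basicOpen`): values `z (e i / e j)^n`, `z` a value of a
function on `W i`.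
* `val_res`: restriction does not change the value.
* `inter_affine`, `inter_range`: as said.
* `eval`: for a point `p ∈ W i` take `F` = the residue field of `X` at `p`
  (`M.X.residueField p`, or the residue field of the stalk) and `χ` = evaluation of functions on
  `W i` at `p`, transported to `Algebra.adjoin k {e j / e i}` by the bijection
  `Γ(X, W i) ≃ Algebra.adjoin k (range fun j => e j / e i)` (`M.range`, injectivity);
  `p ∈ W j ↔ p ∈ X.basicOpen y ↔ χ (e j / e i) ≠ 0`.
-/

open CategoryTheory AlgebraicGeometry TopologicalSpace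

universe u

namespace FQ

variable {k : Type u} [Field k] {L : Type u} [Field L] [Algebra k L] {N : ℕ}
  {e : Fin (N + 1) → L}

theorem Model.val_injective (M : Model (k := k) e) (U : M.X.Opens) [Nonempty U] :
    Function.Injective (M.val U) := by
  intro a b hab
  exact M.X.germToFunctionField_injective U (M.ev.injective hab)

theorem Model.val_res (M : Model (k := k) e) {U V : M.X.Opens} [Nonempty U] [Nonempty V]
    (h : V ≤ U) (y : Γ(M.X, U)) : M.val V (res h y) = M.val U y :=
  congrArg M.ev (germ_res_ff U V (homOfLE h) y)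

theorem Model.val_scal (M : Model (k := k) e) (U : M.X.Opens) [Nonempty U] (c : k) :
    M.val U (scal M.s U c) = algebraMap k L c := by
  rw [← M.ev_scal, ← scalK_eq M.s U c]
  rfl

instance Model.inter_nonempty (M : Model (k := k) e) (i j : Fin (N + 1)) :
    Nonempty (M.W i ⊓ M.W j : M.X.Opens) :=
  ⟨⟨genericPoint M.X, generic_mem (M.W i), generic_mem (M.W j)⟩⟩

private theorem Model.exists_coord (M : Model (k := k) e) (i j : Fin (N + 1)) :
    ∃ y : Γ(M.X, M.W i), M.val (M.W i) y = e j / e i ∧ M.X.basicOpen y = M.W i ⊓ M.W j := by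
  obtain ⟨y, hy⟩ := (M.range i (e j / e i)).2 (Algebra.subset_adjoin ⟨j, rfl⟩)
  exact ⟨y, hy, M.basic i j y hy⟩

theorem Model.inter_affine (M : Model (k := k) e) (i j : Fin (N + 1)) :
    IsAffineOpen (M.W i ⊓ M.W j) := by
  obtain ⟨y, -, h⟩ := M.exists_coord i j
  rw [← h]
  exact (M.affine i).basicOpen y

theorem Model.inter_range (M : Model (k := k) e) (he : ∀ i, e i ≠ 0) (i j : Fin (N + 1)) (z : L) :
    (∃ y : Γ(M.X, M.W i ⊓ M.W j), M.val _ y = z) ↔
      z ∈ Algebra.adjoin k (Set.range (fun l => e l / e i) ∪ {e i / e j}) := by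
  obtain ⟨s, hs, hb⟩ := M.exists_coord i j
  have hs0 : e j / e i ≠ 0 := div_ne_zero (he j) (he i)
  have hval : ∀ y : Γ(M.X, M.W i), M.val (M.W i) y ∈
      Algebra.adjoin k (Set.range fun l => e l / e i) := fun y => (M.range i _).1 ⟨y, rfl⟩
  have hmono : Algebra.adjoin k (Set.range fun l => e l / e i) ≤
      Algebra.adjoin k (Set.range (fun l => e l / e i) ∪ {e i / e j}) :=
    Algebra.adjoin_mono Set.subset_union_left
  have hinv : e i / e j ∈ Algebra.adjoin k (Set.range (fun l => e l / e i) ∪ {e i / e j}) :=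
    Algebra.subset_adjoin (Or.inr rfl)
  have hprod : e j / e i * (e i / e j) = 1 := by
    have := he i
    have := he j
    field_simp
  constructor
  · rintro ⟨y, rfl⟩
    revert y
    have key : ∀ (V : M.X.Opens) [Nonempty V] (hV : V = M.X.basicOpen s) (y : Γ(M.X, V)),
        M.val V y ∈ Algebra.adjoin k (Set.range (fun l => e l / e i) ∪ {e i / e j}) := by
      intro V _ hV y
      subst hV
      have hloc := (M.affine i).isLocalization_basicOpen s
      obtain ⟨⟨a, ⟨_, n, rfl⟩⟩, ha⟩ := IsLocalization.surj (Submonoid.powers s) y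
      have e1 := congrArg (M.val (M.X.basicOpen s)) ha
      rw [map_mul] at e1
      have e2 : M.val (M.X.basicOpen s) (algebraMap Γ(M.X, M.W i) Γ(M.X, M.X.basicOpen s) (s ^ n)) =
          (e j / e i) ^ n := by
        rw [← hs, ← map_pow]
        exact M.val_res (M.X.basicOpen_le s) (s ^ n)
      have e3 : M.val (M.X.basicOpen s) (algebraMap Γ(M.X, M.W i) Γ(M.X, M.X.basicOpen s) a) =
          M.val (M.W i) a := M.val_res (M.X.basicOpen_le s) a
      have e4 : M.val (M.X.basicOpen s) y * (e j / e i) ^ n = M.val (M.W i) a := by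
        rw [← e2, ← e3]
        exact e1
      have e5 : M.val (M.X.basicOpen s) y = M.val (M.W i) a * (e i / e j) ^ n := by
        rw [← e4, mul_assoc, ← mul_pow, hprod, one_pow, mul_one]
      rw [e5]
      exact mul_mem (hmono (hval a)) (pow_mem hinv n)
    exact key _ hb.symm
  · intro hz
    -- the range of `val` is a subalgebra
    have hs' : ∃ u : Γ(M.X, M.W i ⊓ M.W j), M.val _ u = e i / e j := by
      have hu : IsUnit (res (inf_le_left : M.W i ⊓ M.W j ≤ M.W i) s) := by
        have key : ∀ (V : M.X.Opens) (hV : V = M.X.basicOpen s) (h : V ≤ M.W i),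
            IsUnit (res h s) := by
          intro V hV h
          subst hV
          exact AlgebraicGeometry.RingedSpace.isUnit_res_basicOpen _ s
        exact key _ hb.symm _
      obtain ⟨u, hu⟩ := hu
      refine ⟨((u⁻¹ : (Γ(M.X, M.W i ⊓ M.W j))ˣ) : Γ(M.X, M.W i ⊓ M.W j)), ?_⟩
      have e1 : M.val (M.W i ⊓ M.W j) (u : Γ(M.X, M.W i ⊓ M.W j)) = e j / e i := by
        rw [hu, M.val_res, hs]
      have e2 : M.val (M.W i ⊓ M.W j) ((u⁻¹ : (Γ(M.X, M.W i ⊓ M.W j))ˣ) : Γ(M.X, M.W i ⊓ M.W j)) *
          (e j / e i) = 1 := by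
        rw [← e1, ← map_mul, Units.inv_mul, map_one]
      apply mul_right_cancel₀ hs0
      rw [e2, mul_comm, hprod]
    refine Algebra.adjoin_induction (p := fun z _ => ∃ y : Γ(M.X, M.W i ⊓ M.W j), M.val _ y = z)
      ?_ ?_ ?_ ?_ hz
    · rintro z (⟨l, rfl⟩ | hz)
      · obtain ⟨y, hy, -⟩ := M.exists_coord i l
        exact ⟨res inf_le_left y, by rw [M.val_res, hy]⟩
      · rw [Set.mem_singleton_iff] at hz
        rw [hz]
        exact hs'
    · intro c
      exact ⟨scal M.s _ c, M.val_scal _ c⟩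
    · rintro a b - - ⟨y, rfl⟩ ⟨y', rfl⟩
      exact ⟨y + y', map_add _ _ _⟩
    · rintro a b - - ⟨y, rfl⟩ ⟨y', rfl⟩
      exact ⟨y * y', map_mul _ _ _⟩

theorem Model.exists_eval (M : Model (k := k) e) (i : Fin (N + 1)) (p : M.X) (hp : p ∈ M.W i) :
    ∃ (F : Type u) (_ : Field F)
      (χ : Algebra.adjoin k (Set.range fun j => e j / e i) →+* F), ∀ j : Fin (N + 1),
      p ∈ M.W j ↔ χ ⟨e j / e i, Algebra.subset_adjoin ⟨j, rfl⟩⟩ ≠ 0 := by
  have hinj := M.val_injective (M.W i)
  -- the isomorphism of `Γ(X, W i)` with the algebra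
  let f : Γ(M.X, M.W i) →+* (Algebra.adjoin k (Set.range fun j => e j / e i) : Subalgebra k L) :=
    (M.val (M.W i)).codRestrict _ fun y => (M.range i _).1 ⟨y, rfl⟩
  have hf : Function.Bijective f := by
    constructor
    · intro a b hab
      exact hinj (congrArg Subtype.val hab)
    · rintro ⟨z, hz⟩
      obtain ⟨y, hy⟩ := (M.range i z).2 hz
      exact ⟨y, Subtype.ext hy⟩
  let g := RingEquiv.ofBijective f hf
  refine ⟨M.X.residueField p, inferInstance,
    ((M.X.evaluation (M.W i) p hp).hom.comp g.symm.toRingHom), fun j => ?_⟩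
  obtain ⟨y, hy, hb⟩ := M.exists_coord i j
  have hg : g.symm ⟨e j / e i, Algebra.subset_adjoin ⟨j, rfl⟩⟩ = y := by
    rw [RingEquiv.symm_apply_eq]
    exact Subtype.ext hy.symm
  have h1 : p ∈ M.W j ↔ p ∈ M.X.basicOpen y := by
    rw [hb]
    exact ⟨fun h => ⟨hp, h⟩, fun h => h.2⟩
  rw [h1]
  show _ ↔ (M.X.evaluation (M.W i) p hp).hom (g.symm ⟨e j / e i, _⟩) ≠ 0
  rw [hg]
  exact (Scheme.evaluation_ne_zero_iff_mem_basicOpen ..).symm

end FQ
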