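import Mathlib
import Pool.Agent.Helper41.FQ.Gens
import Pool.Agent.Helper41.FQ.M.ChAlg
import Pool.Agent.Helper41.FQ.M.ModelLem
import Pool.Agent.Helper41.FQ.M.Inj

/-!
MODULE FQ-CH-6 (the homomorphism from the chart ring to the functions on `U_w`).

For a chart `c` and `y = x.lab c.w`: by `Model.inter_range` and `GP.adjoin_eq` (for `y`;
`range e = x.gens = y.gens`, `e c.i = y.gA`, `e c.j = y.gM`) the values of the functions on
`c.U M` are exactly the range of `y.chartPt.lift`. As `M.val` is injective there is a unique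
function `ρ r` with value `y.chartPt.lift r`; `ρ` is a ring homomorphism, bijective
(`GP.lift_injective`), and maps `algebraMap k _ t` to `scal M.s _ t`.
`φ w`: for a word `w` there is a chart with that word (the elements `gA`, `gM` of `x.lab w` are in
`range e`), `φ w r = germ (ρ r)`.
-/

open CategoryTheory AlgebraicGeometry TopologicalSpace

universe u

namespace FQ

variable {k : Type u} [Field k] [CharP k 2] {κ : Idx → k} {L : Type u} [Field L] [Algebra k L]
  {N : ℕ} {e : Fin (N + 1) → L}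

omit [CharP k 2] in
private theorem ChartIdx.mem_range {x : GP κ L} (he : Set.range e = x.gens)
    (M : Model (k := k) e) (c : ChartIdx x e) (z : L) :
    (∃ y : Γ(M.X, c.U M), M.val (c.U M) y = z) ↔ z ∈ (x.lab c.w).chartPt.lift.range := by
  have hne : ∀ i, e i ≠ 0 := fun i => (he ▸ Set.mem_range_self i : e i ∈ x.gens).1
  have h1 : (∃ y : Γ(M.X, c.U M), M.val (c.U M) y = z) ↔
      z ∈ Algebra.adjoin k (Set.range (fun l => e l / e c.i) ∪ {e c.i / e c.j}) :=
    M.inter_range hne c.i c.j z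
  have hset : (Set.range (fun l => e l / e c.i) ∪ {e c.i / e c.j}) =
      ({y : L | ∃ g ∈ (x.lab c.w).gens, y = g / (x.lab c.w).gA} ∪
        {(x.lab c.w).gA / (x.lab c.w).gM}) := by
    rw [c.hi, c.hj, x.gens_lab, ← he]
    congr 1
    ext y
    constructor
    · rintro ⟨l, rfl⟩
      exact ⟨e l, ⟨l, rfl⟩, rfl⟩
    · rintro ⟨_, ⟨l, rfl⟩, rfl⟩
      exact ⟨l, rfl⟩
  rw [h1, hset, (x.lab c.w).adjoin_eq]

theorem ChartIdx.exists_equiv {x : GP κ L} (he : Set.range e = x.gens) (M : Model (k := k) e)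
    (c : ChartIdx x e) : ∃ ρ : ChartRing (labκ κ c.w) ≃+* Γ(M.X, c.U M),
      (∀ r, M.val (c.U M) (ρ r) = (x.lab c.w).chartPt.lift r) ∧
      ∀ t : k, ρ (algebraMap k _ t) = scal M.s (c.U M) t := by
  let f : Γ(M.X, c.U M) →+* ((x.lab c.w).chartPt.lift.range : Subalgebra k L) :=
    (M.val (c.U M)).codRestrict _ fun y => (c.mem_range he M _).1 ⟨y, rfl⟩
  have hf : Function.Bijective f := by
    constructor
    · intro a b hab
      exact M.val_injective _ (congrArg Subtype.val hab)
    · rintro ⟨z, hz⟩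
      obtain ⟨y, hy⟩ := (c.mem_range he M z).2 hz
      exact ⟨y, Subtype.ext hy⟩
  let g := RingEquiv.ofBijective f hf
  let h : ChartRing (labκ κ c.w) ≃ₐ[k] (x.lab c.w).chartPt.lift.range :=
    AlgEquiv.ofInjective (x.lab c.w).chartPt.lift (x.lab c.w).lift_injective
  have hval : ∀ r, M.val (c.U M) (g.symm (h r)) = (x.lab c.w).chartPt.lift r := by
    intro r
    have h1 : g (g.symm (h r)) = h r := g.apply_symm_apply _
    exact congrArg Subtype.val h1
  refine ⟨h.toRingEquiv.trans g.symm, hval, fun t => ?_⟩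
  apply M.val_injective (c.U M)
  rw [M.val_scal]
  exact (hval _).trans ((x.lab c.w).chartPt.lift.commutes t)

omit [CharP k 2] in
/-- Every word has a chart. -/
private theorem exists_chartIdx (x : GP κ L) (he : Set.range e = x.gens) (w : List (Fin 4)) :
    ∃ c : ChartIdx x e, c.w = w := by
  have h1 : (x.lab w).gA ∈ Set.range e := by
    rw [he, ← x.gens_lab w]
    exact (x.lab w).gA_mem
  have h2 : (x.lab w).gM ∈ Set.range e := by
    rw [he, ← x.gens_lab w]
    exact (x.lab w).gM_mem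
  obtain ⟨i, hi⟩ := h1
  obtain ⟨j, hj⟩ := h2
  exact ⟨⟨w, i, j, hi, hj⟩, rfl⟩

private theorem exists_phi_one (x : GP κ L) (he : Set.range e = x.gens) (M : Model (k := k) e)
    (w : List (Fin 4)) : ∃ φ : ChartRing (labκ κ w) →ₐ[k] M.X.functionField,
      (∀ r, M.evA (φ r) = (x.lab w).chartPt.lift r) ∧
      ∀ z : M.X.functionField, ∃ r s, φ s ≠ 0 ∧ z * φ s = φ r := by
  obtain ⟨c, rfl⟩ := exists_chartIdx x he w
  obtain ⟨ρ, hρ, hs⟩ := c.exists_equiv he M
  let φ : ChartRing (labκ κ c.w) →ₐ[k] M.X.functionField :=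
    { (M.X.germToFunctionField (c.U M)).hom.comp ρ.toRingHom with
      commutes' := fun t => by
        show M.X.germToFunctionField (c.U M) (ρ (algebraMap k _ t)) = scalK M.s t
        rw [hs, scalK_eq] }
  refine ⟨φ, hρ, fun z => ?_⟩
  have haff : IsAffineOpen (c.U M) := M.inter_affine c.i c.j
  have hfr := functionField_isFractionRing_of_isAffineOpen M.X (c.U M) haff
  obtain ⟨a, b, hb, hab⟩ := IsFractionRing.div_surjective (A := Γ(M.X, c.U M)) z
  have hb0 : algebraMap Γ(M.X, c.U M) M.X.functionField b ≠ 0 :=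
    IsFractionRing.to_map_ne_zero_of_mem_nonZeroDivisors hb
  have e1 : φ (ρ.symm b) = algebraMap Γ(M.X, c.U M) M.X.functionField b :=
    congrArg (M.X.germToFunctionField (c.U M)) (ρ.apply_symm_apply b)
  have e2 : φ (ρ.symm a) = algebraMap Γ(M.X, c.U M) M.X.functionField a :=
    congrArg (M.X.germToFunctionField (c.U M)) (ρ.apply_symm_apply a)
  refine ⟨ρ.symm a, ρ.symm b, ?_, ?_⟩
  · rw [e1]
    exact hb0
  · rw [e1, e2, ← hab, div_mul_cancel₀ _ hb0]

theorem exists_phi (x : GP κ L) (he : Set.range e = x.gens) (M : Model (k := k) e) :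
    ∃ φ : ∀ w : List (Fin 4), ChartRing (labκ κ w) →ₐ[k] M.X.functionField,
      (∀ w r, M.evA (φ w r) = (x.lab w).chartPt.lift r) ∧
      (∀ (c : ChartIdx x e) (z : M.X.functionField),
        (∃ y, M.X.germToFunctionField (c.U M) y = z) ↔ ∃ r, φ c.w r = z) ∧
      ∀ (w : List (Fin 4)) (z : M.X.functionField), ∃ r s, φ w s ≠ 0 ∧ z * φ w s = φ w r := by
  choose φ hφ hfrac using exists_phi_one x he M
  refine ⟨φ, hφ, fun c z => ?_, hfrac⟩
  obtain ⟨ρ, hρ, -⟩ := c.exists_equiv he M
  have key : ∀ r, M.X.germToFunctionField (c.U M) (ρ r) = φ c.w r := fun r =>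
    M.ev.injective ((hρ r).trans (hφ c.w r).symm)
  constructor
  · rintro ⟨y, rfl⟩
    exact ⟨ρ.symm y, by rw [← key, ρ.apply_symm_apply]⟩
  · rintro ⟨r, rfl⟩
    exact ⟨ρ r, key r⟩

end FQ
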