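import Mathlib
import Pool.Agent.Helper41.FQ.Gens

/-!
MODULE FQ-CH-2 (some `ζ_b⁶` does not vanish at a given point), pure algebra.

`c ∈ x.gens`, `C = adjoin k {g / c}`, `χ : C →+* F` a ring homomorphism to a field. Write
`v(g) = χ(g / c)` for `g ∈ gens` (and `v(0) = 0`); `v(c) = 1`. Suppose `v(ζ_b⁶) = 0` for all `b`.
* `v(ζ_i² ζ_j² ζ_l²)³ = v(ζ_i⁶) v(ζ_j⁶) v(ζ_l⁶) = 0` (identity
  `(ζ_i²ζ_j²ζ_l²/c)³ = (ζ_i⁶/c)(ζ_j⁶/c)(ζ_l⁶/c)` in `C`), so `v(ζ_i² ζ_j² ζ_l²) = 0`.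
* `m_(i,j)² = ζ_i² Λ_j² + ζ_j² Λ_i²` (2 = 0, `x.two`) with `Λ_j² = κ² ζ_(star j)⁴`: a `k`-linear
  combination of elements `ζ²ζ²ζ²`, so `v(m_(i,j)²) = 0`.
* `v(m_(i,j) m_(l,n))² = v(m_(i,j)²) v(m_(l,n)²) = 0`.
So `v = 0` on all of `gens`, but `v(c) = 1`: contradiction.
-/

open MvPolynomial

universe u v

namespace FQ

variable {k : Type u} [Field k] {κ : Idx → k} {L : Type u} [Field L] [Algebra k L]

theorem GP.cover1 (x : GP κ L) (c : L) (hc : c ∈ x.gens) {F : Type v} [Field F]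
    (χ : Algebra.adjoin k {y : L | ∃ g ∈ x.gens, y = g / c} →+* F) :
    ∃ b : Idx, χ ⟨x.ζ b ^ 6 / c, Algebra.subset_adjoin
      ⟨x.ζ b ^ 6, ⟨pow_ne_zero _ (x.ζ_ne b), Or.inl ⟨b, b, b, by ring⟩⟩, rfl⟩⟩ ≠ 0 := by
  by_contra hcon
  push Not at hcon
  have hA : ∀ i j l : Idx, x.ζ i ^ 2 * x.ζ j ^ 2 * x.ζ l ^ 2 / c ∈
      Algebra.adjoin k {y : L | ∃ g ∈ x.gens, y = g / c} := fun i j l =>
    Algebra.subset_adjoin ⟨_, ⟨mul_ne_zero (mul_ne_zero (pow_ne_zero _ (x.ζ_ne i))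
      (pow_ne_zero _ (x.ζ_ne j))) (pow_ne_zero _ (x.ζ_ne l)), Or.inl ⟨i, j, l, rfl⟩⟩, rfl⟩
  have hB : ∀ i j l n : Idx, x.toGenPt.m i j * x.toGenPt.m l n / c ∈
      Algebra.adjoin k {y : L | ∃ g ∈ x.gens, y = g / c} := fun i j l n => by
    rcases eq_or_ne (x.toGenPt.m i j * x.toGenPt.m l n) 0 with h0 | h0
    · rw [h0, zero_div]
      exact Subalgebra.zero_mem _
    · exact Algebra.subset_adjoin ⟨_, ⟨h0, Or.inr ⟨i, j, l, n, rfl⟩⟩, rfl⟩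
  have hA0 : ∀ b : Idx, χ ⟨x.ζ b ^ 2 * x.ζ b ^ 2 * x.ζ b ^ 2 / c, hA b b b⟩ = 0 := by
    intro b
    rw [← hcon b]
    congr 1
    apply Subtype.ext
    show x.ζ b ^ 2 * x.ζ b ^ 2 * x.ζ b ^ 2 / c = x.ζ b ^ 6 / c
    ring
  have hA1 : ∀ i j l : Idx, χ ⟨x.ζ i ^ 2 * x.ζ j ^ 2 * x.ζ l ^ 2 / c, hA i j l⟩ = 0 := by
    intro i j l
    have h3 : (⟨x.ζ i ^ 2 * x.ζ j ^ 2 * x.ζ l ^ 2 / c, hA i j l⟩ :
        Algebra.adjoin k {y : L | ∃ g ∈ x.gens, y = g / c}) ^ 3 =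
        ⟨x.ζ i ^ 2 * x.ζ i ^ 2 * x.ζ i ^ 2 / c, hA i i i⟩ *
        ⟨x.ζ j ^ 2 * x.ζ j ^ 2 * x.ζ j ^ 2 / c, hA j j j⟩ *
        ⟨x.ζ l ^ 2 * x.ζ l ^ 2 * x.ζ l ^ 2 / c, hA l l l⟩ := by
      apply Subtype.ext
      show (x.ζ i ^ 2 * x.ζ j ^ 2 * x.ζ l ^ 2 / c) ^ 3 =
        x.ζ i ^ 2 * x.ζ i ^ 2 * x.ζ i ^ 2 / c * (x.ζ j ^ 2 * x.ζ j ^ 2 * x.ζ j ^ 2 / c) *
        (x.ζ l ^ 2 * x.ζ l ^ 2 * x.ζ l ^ 2 / c)
      ring
    have h4 := congrArg χ h3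
    rw [map_pow, map_mul, map_mul, hA0, hA0, hA0, mul_zero] at h4
    exact pow_eq_zero_iff (by norm_num) |>.1 h4
  have hB0 : ∀ i j : Idx, χ ⟨x.toGenPt.m i j * x.toGenPt.m i j / c, hB i j i j⟩ = 0 := by
    intro i j
    have h2 : (⟨x.toGenPt.m i j * x.toGenPt.m i j / c, hB i j i j⟩ :
        Algebra.adjoin k {y : L | ∃ g ∈ x.gens, y = g / c}) =
        algebraMap k _ (κ (star j) ^ 2) *
          ⟨x.ζ i ^ 2 * x.ζ (star j) ^ 2 * x.ζ (star j) ^ 2 / c, hA i (star j) (star j)⟩ +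
        algebraMap k _ (κ (star i) ^ 2) *
          ⟨x.ζ j ^ 2 * x.ζ (star i) ^ 2 * x.ζ (star i) ^ 2 / c, hA j (star i) (star i)⟩ := by
      apply Subtype.ext
      show x.toGenPt.m i j * x.toGenPt.m i j / c =
        algebraMap k L (κ (star j) ^ 2) *
          (x.ζ i ^ 2 * x.ζ (star j) ^ 2 * x.ζ (star j) ^ 2 / c) +
        algebraMap k L (κ (star i) ^ 2) *
          (x.ζ j ^ 2 * x.ζ (star i) ^ 2 * x.ζ (star i) ^ 2 / c)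
      rw [GenPt.m, GenPt.Λ, GenPt.Λ]
      simp only [map_pow]
      linear_combination (x.ζ i * x.ζ j * algebraMap k L (κ (star j)) *
        algebraMap k L (κ (star i)) * x.ζ (star j) ^ 2 * x.ζ (star i) ^ 2 / c) * x.two
    rw [h2, map_add, map_mul, map_mul, hA1, hA1, mul_zero, mul_zero, add_zero]
  have hB1 : ∀ i j l n : Idx, χ ⟨x.toGenPt.m i j * x.toGenPt.m l n / c, hB i j l n⟩ = 0 := by
    intro i j l n
    have h3 : (⟨x.toGenPt.m i j * x.toGenPt.m l n / c, hB i j l n⟩ :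
        Algebra.adjoin k {y : L | ∃ g ∈ x.gens, y = g / c}) ^ 2 =
        ⟨x.toGenPt.m i j * x.toGenPt.m i j / c, hB i j i j⟩ *
        ⟨x.toGenPt.m l n * x.toGenPt.m l n / c, hB l n l n⟩ := by
      apply Subtype.ext
      show (x.toGenPt.m i j * x.toGenPt.m l n / c) ^ 2 =
        x.toGenPt.m i j * x.toGenPt.m i j / c * (x.toGenPt.m l n * x.toGenPt.m l n / c)
      ring
    have h4 := congrArg χ h3
    rw [map_pow, map_mul, hB0, hB0, mul_zero] at h4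
    exact pow_eq_zero_iff (by norm_num) |>.1 h4
  obtain ⟨hc0, ⟨i, j, l, hg⟩ | ⟨i, j, l, n, hg⟩⟩ := hc
  · have h1 : (⟨x.ζ i ^ 2 * x.ζ j ^ 2 * x.ζ l ^ 2 / c, hA i j l⟩ :
        Algebra.adjoin k {y : L | ∃ g ∈ x.gens, y = g / c}) = 1 := by
      apply Subtype.ext
      show x.ζ i ^ 2 * x.ζ j ^ 2 * x.ζ l ^ 2 / c = 1
      rw [← hg, div_self hc0]
    have h2 := hA1 i j l
    rw [h1, map_one] at h2
    exact one_ne_zero h2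
  · have h1 : (⟨x.toGenPt.m i j * x.toGenPt.m l n / c, hB i j l n⟩ :
        Algebra.adjoin k {y : L | ∃ g ∈ x.gens, y = g / c}) = 1 := by
      apply Subtype.ext
      show x.toGenPt.m i j * x.toGenPt.m l n / c = 1
      rw [← hg, div_self hc0]
    have h2 := hB1 i j l n
    rw [h1, map_one] at h2
    exact one_ne_zero h2

end FQ
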