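import Mathlib
import Pool.Agent.Helper41.FQ.Gens

/-!
MODULE FQ-CH-3 (on `ζ_(star a) ≠ 0` some `m_(a,n)`, `n ≠ a, star a`, does not vanish), algebra.

`gA = ζ_(star a)⁶`, `C = adjoin k {g / gA}`, `χ : C →+* F` a ring homomorphism to a field. Then
`F` gets the structure of `k`-algebra through `χ` (`k → C → F`), `2 = 0` in `F`. Put
`z_l = χ(ζ_l² ζ_(star a)⁴ / gA)` (so `z_(star a) = 1`; `z` is the normalised `Z`),
`Λ_l = κ_(star l) z_(star l)`, `Λ_a = κ_(star a) ≠ 0`, and
`μ(i,j;l,n) = χ(m_(i,j) m_(l,n) / gA)` (`0` if the product is `0`); note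
`μ(i,j;l,n)² = μ(i,j;i,j) μ(l,n;l,n)`.
Suppose `χ(m_(a,n)² / gA) = μ(a,n;a,n) = 0` for all `n ≠ a, star a` (so `μ(a,n;·,·) = 0` for them).
(1) The relation `F`: `∑_l m_(a,l) Λ_(star l) = 0` in `L` (`= Λ_a ∑ ζ_l Λ_(star l)`, `x.relF`, and
 `ζ_a ∑ Λ_l Λ_(star l) = 0` as 2 = 0), `m_(a,a) = 0`. Multiply by `m_(a,star a)`:
 `μ(a,star a;a,star a) Λ_a = 0`, so `μ(a,star a;a,star a) = 0`.
(2) `m_(a,l)² = ζ_a² Λ_l² + ζ_l² Λ_a²`, so `0 = z_a Λ_l² + z_l Λ_a²` for all `l`:
 `z_l = s Λ_l²`, `s = z_a / Λ_a²`. For `l = star a`: `1 = s Λ_(star a)²`, so `s ≠ 0`,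
 `Λ_(star a) ≠ 0`, `z_a ≠ 0`.
(3) The relation `Q`: `∑_(pairs i ≠ 0) m_(a,i0) m_(a,i1) + ζ_a² ∑_i Λ_(i0) Λ_(i1) = 0` in `L` (see
 `GP.eq_ms` in CP.lean, `h5`), divide by `gA`: all `μ(a,i0;a,i1)² = 0`, so
 `z_a ∑_i Λ_(i0) Λ_(i1) = 0`, hence `∑_i Λ_(i0) Λ_(i1) = 0`.
(4) For a pair `(x,y) = ((i,false),(i,true))` write `α = κ_x, β = κ_y`, `X = z_x, Y = z_y`:
 `Λ_x = β Y`, `Λ_y = α X`, `X = s β² Y²`, `Y = s α² X²`. So `X = s³ β² α⁴ X⁴`: either `X = 0` (and then
 `Y = 0`) or `X³ = 1 / (s³ α⁴ β²)`, and then `Λ_x Λ_y = α β X Y = s α³ β X³ = 1 / (s² α β)`.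
 So `∑_i Λ_(i0) Λ_(i1) = s⁻² ∑_(i ∈ I) 1 / (κ_(i,false) κ_(i,true))`, `I` the set of pairs with
 `X ≠ 0`, which contains the pair `0`. This is nonzero by `x.good.2` (mapped to `F`, `k → F` is
 injective): contradiction with (3).
-/

open MvPolynomial

universe u v

namespace FQ

variable {k : Type u} [Field k] {κ : Idx → k} {L : Type u} [Field L] [Algebra k L]

private theorem cover2_final {F : Type v} [Field F] (φ : k →+* F) {κ : Idx → k} (hκ : Good κ)
    (z : Idx → F) (hz1 : z (0, true) = 1)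
    (hrel : ∀ l, z (0, false) * (φ (κ (star l)) * z (star l)) ^ 2 =
      z l * (φ (κ (0, true))) ^ 2)
    (hQ : z (0, false) * ∑ i : Fin 4, (φ (κ (i, true)) * z (i, true)) *
      (φ (κ (i, false)) * z (i, false)) = 0) : False := by
  classical
  have hφ : ∀ l, φ (κ l) ≠ 0 := fun l => (map_ne_zero φ).2 (hκ.1 l)
  have ha : z (0, false) ≠ 0 := by
    intro h
    have := hrel (0, true)
    rw [h, hz1, zero_mul, one_mul] at this
    exact pow_ne_zero 2 (hφ _) this.symm
  have hsum : ∑ i : Fin 4, (φ (κ (i, true)) * z (i, true)) *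
      (φ (κ (i, false)) * z (i, false)) = 0 := by
    rcases mul_eq_zero.1 hQ with h | h
    · exact absurd h ha
    · exact h
  set s : F := z (0, false) / φ (κ (0, true)) ^ 2 with hs
  have hs0 : s ≠ 0 := div_ne_zero ha (pow_ne_zero 2 (hφ _))
  have hz : ∀ l, z l = s * (φ (κ (star l)) * z (star l)) ^ 2 := by
    intro l
    have h1 := hrel l
    have h2 := hφ (0, true)
    rw [hs]
    field_simp
    linear_combination -h1
  have hterm : ∀ i : Fin 4, (φ (κ (i, true)) * z (i, true)) * (φ (κ (i, false)) * z (i, false)) =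
      if z (i, false) ≠ 0 then (s ^ 2)⁻¹ * φ ((κ (i, false) * κ (i, true))⁻¹) else 0 := by
    intro i
    split_ifs with hi
    · have h1 : z (i, false) = s * (φ (κ (i, true)) * z (i, true)) ^ 2 := hz (i, false)
      have h2 : z (i, true) = s * (φ (κ (i, false)) * z (i, false)) ^ 2 := hz (i, true)
      have h3 : s ^ 3 * φ (κ (i, true)) ^ 2 * φ (κ (i, false)) ^ 4 * z (i, false) ^ 3 = 1 := by
        apply mul_left_cancel₀ hi
        have h4 : z (i, false) =
            s * (φ (κ (i, true)) * (s * (φ (κ (i, false)) * z (i, false)) ^ 2)) ^ 2 := by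
          rw [← h2]; exact h1
        linear_combination -h4
      rw [map_inv₀, map_mul, h2]
      have h5 := hφ (i, true)
      have h6 := hφ (i, false)
      field_simp
      linear_combination h3
    · rw [not_not] at hi
      rw [hi]
      ring
  rw [Finset.sum_congr rfl fun i _ => hterm i, ← Finset.sum_filter, ← Finset.mul_sum,
    ← map_sum] at hsum
  rcases mul_eq_zero.1 hsum with h | h
  · exact inv_ne_zero (pow_ne_zero 2 hs0) h
  · rw [map_eq_zero] at h
    refine hκ.2 (Finset.univ.filter fun i => z (i, false) ≠ 0) ⟨0, ?_⟩ h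
    simpa using ha

private theorem cover2_aux (x : GP κ L) {F : Type v} [Field F] (A : Subalgebra k L)
    (hzm : ∀ l, x.ζ l ^ 2 / x.ζ (0, true) ^ 2 ∈ A)
    (hmm : ∀ i j l n, x.toGenPt.m i j * x.toGenPt.m l n / x.gA ∈ A) (χ : A →+* F)
    (hcon : ∀ n : Idx, n ≠ (0, false) → n ≠ (0, true) →
      χ ⟨_, hmm (0, false) n (0, false) n⟩ = 0) : False := by
  have hgA : x.gA ≠ 0 := pow_ne_zero _ (x.ζ_ne _)
  have ht : x.ζ (0, true) ≠ 0 := x.ζ_ne _
  let zA : Idx → A := fun l => ⟨_, hzm l⟩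
  let mA : Idx → Idx → A := fun l n => ⟨_, hmm (0, false) l (0, false) n⟩
  let φ : k →+* F := χ.comp (algebraMap k A)
  have hcoe : ∀ c : k, ((algebraMap k A c : A) : L) = algebraMap k L c := fun c => rfl
  have h2 : (2 : L) = 0 := x.two
  have hL : ∀ l, x.toGenPt.Λ l = algebraMap k L (κ (star l)) * x.ζ (star l) ^ 2 := fun l => rfl
  -- products of the `m`
  have hsq : ∀ l n, mA l n ^ 2 = mA l l * mA n n := by
    intro l n
    apply Subtype.ext
    show (x.toGenPt.m (0, false) l * x.toGenPt.m (0, false) n / x.gA) ^ 2 =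
      x.toGenPt.m (0, false) l * x.toGenPt.m (0, false) l / x.gA *
        (x.toGenPt.m (0, false) n * x.toGenPt.m (0, false) n / x.gA)
    ring
  have hm0 : ∀ l, l ≠ (0, false) → l ≠ (0, true) → χ (mA l l) = 0 := by
    intro l h1 h2
    exact hcon l h1 h2
  have hmn0 : ∀ l n, l ≠ (0, false) → l ≠ (0, true) → χ (mA l n) = 0 := by
    intro l n h1 h2
    have h3 := congrArg χ (hsq l n)
    rw [map_mul, hm0 l h1 h2, zero_mul, map_pow] at h3
    exact pow_eq_zero_iff (two_ne_zero) |>.1 h3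
  have hma : x.toGenPt.m (0, false) (0, false) = 0 := by
    rw [GenPt.m]
    linear_combination (x.ζ (0, false) * x.toGenPt.Λ (0, false)) * h2
  have hz1 : zA (0, true) = 1 := by
    apply Subtype.ext
    show x.ζ (0, true) ^ 2 / x.ζ (0, true) ^ 2 = 1
    field_simp
  -- (1)
  have hF : ∑ l : Idx, mA l (0, true) * (algebraMap k A (κ l) * zA l) = 0 := by
    apply Subtype.ext
    have h3 := x.relF
    have h4 : ∑ l : Idx, x.toGenPt.m (0, false) l * x.toGenPt.Λ (star l) = 0 := by
      rw [Fintype.sum_prod_type]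
      simp only [Fin.sum_univ_four, Fintype.sum_bool, star, Bool.not_true, Bool.not_false]
      simp only [GenPt.m]
      linear_combination x.toGenPt.Λ (0, false) * h3 + (x.ζ (0, false) *
        (x.toGenPt.Λ (0, true) * x.toGenPt.Λ (0, false) +
        x.toGenPt.Λ (1, true) * x.toGenPt.Λ (1, false) + x.toGenPt.Λ (2, true) *
        x.toGenPt.Λ (2, false) + x.toGenPt.Λ (3, true) * x.toGenPt.Λ (3, false))) * h2
    have h5 : ((∑ l : Idx, mA l (0, true) * (algebraMap k A (κ l) * zA l) : A) : L) =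
        ∑ l : Idx, (x.toGenPt.m (0, false) l * x.toGenPt.m (0, false) (0, true) / x.gA) *
          (algebraMap k L (κ l) * (x.ζ l ^ 2 / x.ζ (0, true) ^ 2)) := by
      rw [AddSubmonoidClass.coe_finsetSum]
      rfl
    rw [h5]
    have h6 : ∀ l : Idx, (x.toGenPt.m (0, false) l * x.toGenPt.m (0, false) (0, true) / x.gA) *
          (algebraMap k L (κ l) * (x.ζ l ^ 2 / x.ζ (0, true) ^ 2)) =
        (x.toGenPt.m (0, false) l * x.toGenPt.Λ (star l)) *
          (x.toGenPt.m (0, false) (0, true) / x.gA / x.ζ (0, true) ^ 2) := by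
      intro l
      rw [hL, star_star]
      ring
    rw [Finset.sum_congr rfl fun l _ => h6 l, ← Finset.sum_mul, h4, zero_mul]
    rfl
  have hmas : χ (mA (0, true) (0, true)) = 0 := by
    have h3 := congrArg χ hF
    rw [map_sum, map_zero, Fintype.sum_prod_type] at h3
    simp only [Fin.sum_univ_four, Fintype.sum_bool, map_mul] at h3
    rw [hmn0 (1, true) _ (by decide) (by decide), hmn0 (1, false) _ (by decide) (by decide),
      hmn0 (2, true) _ (by decide) (by decide), hmn0 (2, false) _ (by decide) (by decide),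
      hmn0 (3, true) _ (by decide) (by decide), hmn0 (3, false) _ (by decide) (by decide)] at h3
    have h4 : mA (0, false) (0, true) = 0 := by
      apply Subtype.ext
      show x.toGenPt.m (0, false) (0, false) * x.toGenPt.m (0, false) (0, true) / x.gA = 0
      rw [hma, zero_mul, zero_div]
    rw [h4, map_zero, hz1, map_one] at h3
    have h5 : φ (κ (0, true)) ≠ 0 := (map_ne_zero φ).2 (x.good.1 _)
    have h6 : χ (mA (0, true) (0, true)) * φ (κ (0, true)) = 0 := by
      show χ (mA (0, true) (0, true)) * χ (algebraMap k A (κ (0, true))) = 0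
      linear_combination h3
    rcases mul_eq_zero.1 h6 with h | h
    · exact h
    · exact absurd h h5
  have hall : ∀ l, χ (mA l l) = 0 := by
    intro l
    by_cases h1 : l = (0, false)
    · subst h1
      have h4 : mA (0, false) (0, false) = 0 := by
        apply Subtype.ext
        show x.toGenPt.m (0, false) (0, false) * x.toGenPt.m (0, false) (0, false) / x.gA = 0
        rw [hma, zero_mul, zero_div]
      rw [h4, map_zero]
    · by_cases h2 : l = (0, true)
      · subst h2
        exact hmas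
      · exact hm0 l h1 h2
  have hF2 : (2 : F) = 0 := by
    have h3 : (2 : A) = 0 := Subtype.ext h2
    have h4 := congrArg χ h3
    rwa [map_ofNat, map_zero] at h4
  refine cover2_final φ x.good (fun l => χ (zA l)) (by rw [hz1, map_one]) ?_ ?_
  · -- (2)
    intro l
    have h3 : mA l l = zA (0, false) * (algebraMap k A (κ (star l)) * zA (star l)) ^ 2 +
        zA l * (algebraMap k A (κ (0, true))) ^ 2 := by
      apply Subtype.ext
      show x.toGenPt.m (0, false) l * x.toGenPt.m (0, false) l / x.gA =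
        x.ζ (0, false) ^ 2 / x.ζ (0, true) ^ 2 *
          (algebraMap k L (κ (star l)) * (x.ζ (star l) ^ 2 / x.ζ (0, true) ^ 2)) ^ 2 +
        x.ζ l ^ 2 / x.ζ (0, true) ^ 2 * (algebraMap k L (κ (0, true))) ^ 2
      rw [GenPt.m, hL, hL, show star (0, false) = (0, true) from rfl, GP.gA]
      field_simp
      linear_combination (x.ζ (0, false) * x.ζ l * algebraMap k L (κ (star l)) *
        x.ζ (star l) ^ 2 * algebraMap k L (κ (0, true)) * x.ζ (0, true) ^ 2) * h2
    have h4 := congrArg χ h3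
    rw [hall, map_add, map_mul, map_mul, map_pow, map_pow, map_mul] at h4
    show χ (zA (0, false)) * (χ (algebraMap k A (κ (star l))) * χ (zA (star l))) ^ 2 =
      χ (zA l) * (χ (algebraMap k A (κ (0, true)))) ^ 2
    linear_combination -h4 - χ (zA l) * (χ (algebraMap k A (κ (0, true)))) ^ 2 * hF2
  · -- (3)
    have h3 : mA (1, false) (1, true) + mA (2, false) (2, true) + mA (3, false) (3, true) +
        zA (0, false) * ∑ i : Fin 4, (algebraMap k A (κ (i, true)) * zA (i, true)) *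
          (algebraMap k A (κ (i, false)) * zA (i, false)) = 0 := by
      rw [Fin.sum_univ_four]
      apply Subtype.ext
      show x.toGenPt.m (0, false) (1, false) * x.toGenPt.m (0, false) (1, true) / x.gA +
        x.toGenPt.m (0, false) (2, false) * x.toGenPt.m (0, false) (2, true) / x.gA +
        x.toGenPt.m (0, false) (3, false) * x.toGenPt.m (0, false) (3, true) / x.gA +
        x.ζ (0, false) ^ 2 / x.ζ (0, true) ^ 2 *
        ((algebraMap k L (κ (0, true)) * (x.ζ (0, true) ^ 2 / x.ζ (0, true) ^ 2)) *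
          (algebraMap k L (κ (0, false)) * (x.ζ (0, false) ^ 2 / x.ζ (0, true) ^ 2)) +
        (algebraMap k L (κ (1, true)) * (x.ζ (1, true) ^ 2 / x.ζ (0, true) ^ 2)) *
          (algebraMap k L (κ (1, false)) * (x.ζ (1, false) ^ 2 / x.ζ (0, true) ^ 2)) +
        (algebraMap k L (κ (2, true)) * (x.ζ (2, true) ^ 2 / x.ζ (0, true) ^ 2)) *
          (algebraMap k L (κ (2, false)) * (x.ζ (2, false) ^ 2 / x.ζ (0, true) ^ 2)) +
        (algebraMap k L (κ (3, true)) * (x.ζ (3, true) ^ 2 / x.ζ (0, true) ^ 2)) *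
          (algebraMap k L (κ (3, false)) * (x.ζ (3, false) ^ 2 / x.ζ (0, true) ^ 2))) = 0
      have h5 : x.toGenPt.m (0, false) (1, false) * x.toGenPt.m (0, false) (1, true) =
          x.toGenPt.m (0, false) (2, false) * x.toGenPt.m (0, false) (2, true) +
          x.toGenPt.m (0, false) (3, false) * x.toGenPt.m (0, false) (3, true) +
          x.ζ (0, false) ^ 2 * (x.toGenPt.Λ (0, false) * x.toGenPt.Λ (0, true) +
            x.toGenPt.Λ (1, false) * x.toGenPt.Λ (1, true) +
            x.toGenPt.Λ (2, false) * x.toGenPt.Λ (2, true) +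
            x.toGenPt.Λ (3, false) * x.toGenPt.Λ (3, true)) := by
        simp only [GenPt.m]
        linear_combination x.toGenPt.Λ (0, false) ^ 2 * x.relQ +
          x.ζ (0, false) * x.toGenPt.Λ (0, false) * x.relF -
          (x.ζ (0, false) ^ 2 * (x.toGenPt.Λ (2, false) * x.toGenPt.Λ (2, true) +
            x.toGenPt.Λ (3, false) * x.toGenPt.Λ (3, true) +
            x.toGenPt.Λ (0, false) * x.toGenPt.Λ (0, true)) +
           x.ζ (0, false) * x.toGenPt.Λ (0, false) * (x.ζ (2, false) * x.toGenPt.Λ (2, true) +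
             x.ζ (2, true) * x.toGenPt.Λ (2, false) + x.ζ (3, false) * x.toGenPt.Λ (3, true) +
             x.ζ (3, true) * x.toGenPt.Λ (3, false) + x.ζ (0, true) * x.toGenPt.Λ (0, false)) +
           x.toGenPt.Λ (0, false) ^ 2 * (x.ζ (2, false) * x.ζ (2, true) +
             x.ζ (3, false) * x.ζ (3, true))) * x.two
      simp only [hL, star, Bool.not_true, Bool.not_false] at h5
      rw [GP.gA]
      field_simp
      linear_combination h5 + (x.toGenPt.m (0, false) (2, false) * x.toGenPt.m (0, false) (2, true) +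
          x.toGenPt.m (0, false) (3, false) * x.toGenPt.m (0, false) (3, true) +
          x.ζ (0, false) ^ 2 * (algebraMap k L (κ (0, true)) * x.ζ (0, true) ^ 2 *
            (algebraMap k L (κ (0, false)) * x.ζ (0, false) ^ 2) +
            algebraMap k L (κ (1, true)) * x.ζ (1, true) ^ 2 *
            (algebraMap k L (κ (1, false)) * x.ζ (1, false) ^ 2) +
            algebraMap k L (κ (2, true)) * x.ζ (2, true) ^ 2 *
            (algebraMap k L (κ (2, false)) * x.ζ (2, false) ^ 2) +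
            algebraMap k L (κ (3, true)) * x.ζ (3, true) ^ 2 *
            (algebraMap k L (κ (3, false)) * x.ζ (3, false) ^ 2))) * h2
    have h4 := congrArg χ h3
    rw [map_add, map_add, map_add, hmn0 _ _ (by decide) (by decide),
      hmn0 _ _ (by decide) (by decide), hmn0 _ _ (by decide) (by decide), map_mul, map_sum,
      map_zero, zero_add, zero_add, zero_add] at h4
    rw [← h4]
    simp only [map_mul]
    rfl

theorem GP.cover2 (x : GP κ L) {F : Type v} [Field F]
    (χ : Algebra.adjoin k {y : L | ∃ g ∈ x.gens, y = g / x.gA} →+* F) :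
    ∃ (n : Idx) (h1 : n ≠ (0, false)) (h2 : n ≠ (0, true)),
      χ ⟨x.toGenPt.m (0, false) n ^ 2 / x.gA, Algebra.subset_adjoin
        ⟨x.toGenPt.m (0, false) n ^ 2, ⟨pow_ne_zero _ (x.m_ne _ _ h1 h2),
          Or.inr ⟨(0, false), n, (0, false), n, sq _⟩⟩, rfl⟩⟩ ≠ 0 := by
  by_contra hcon
  push Not at hcon
  have ht : x.ζ (0, true) ≠ 0 := x.ζ_ne _
  have hzm : ∀ l, x.ζ l ^ 2 / x.ζ (0, true) ^ 2 ∈
      Algebra.adjoin k {y : L | ∃ g ∈ x.gens, y = g / x.gA} := by
    intro l
    refine Algebra.subset_adjoin ⟨x.ζ l ^ 2 * x.ζ (0, true) ^ 2 * x.ζ (0, true) ^ 2,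
      ⟨?_, Or.inl ⟨l, (0, true), (0, true), rfl⟩⟩, ?_⟩
    · exact mul_ne_zero (mul_ne_zero (pow_ne_zero _ (x.ζ_ne _)) (pow_ne_zero _ ht))
        (pow_ne_zero _ ht)
    · rw [GP.gA]
      field_simp
  have hmm : ∀ i j l n, x.toGenPt.m i j * x.toGenPt.m l n / x.gA ∈
      Algebra.adjoin k {y : L | ∃ g ∈ x.gens, y = g / x.gA} := by
    intro i j l n
    by_cases h : x.toGenPt.m i j * x.toGenPt.m l n = 0
    · rw [h, zero_div]
      exact zero_mem _
    · exact Algebra.subset_adjoin ⟨_, ⟨h, Or.inr ⟨i, j, l, n, rfl⟩⟩, rfl⟩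
  refine cover2_aux x _ hzm hmm χ fun n h1 h2 => ?_
  rw [← hcon n h1 h2]
  congr 1
  apply Subtype.ext
  show x.toGenPt.m (0, false) n * x.toGenPt.m (0, false) n / x.gA =
    x.toGenPt.m (0, false) n ^ 2 / x.gA
  ring

end FQ
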