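import Mathlib
import Pool.Agent.Helper41.FQ.Std

/-!
MODULE FQ-STD-4 (the chart ring is not zero).

`k` algebraically closed, all `κ_l ≠ 0`. It suffices to give a point `y : ChartPt κ k`
(then `y.lift : ChartRing κ →ₐ[k] k`, so the ring is nontrivial: `RingHom.domain_nontrivial`).
Choose `w` with `w³ = (κ_(0,true) κ_(1,false)²)⁻¹` (`IsAlgClosed.exists_pow_nat_eq`) and
`h_(1,false) = 1`, `h_(0,true) = w κ_(1,false)`, all other `h_l = 0`;
`Z_(1,false) = 1`, `Z_(0,true) = h_(0,true)²`, all other `Z_l = 0` (in particular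
`Z_a = Z_(0,false) = 0`, so all terms with `Z_a` vanish). Check:
`lam (1,true) = κ_(1,false)`, `lam (0,false) = κ_(0,true) Z_(0,true)`, the other `lam` vanish
(`lam l` involves `Z (star l)`); `eq_w : w κ_(0,true) w² κ_(1,false)² = 1`.
-/

universe u

namespace FQ

variable {k : Type u} [Field k] [IsAlgClosed k] (κ : Idx → k)

theorem ChartRing.nontrivial (hκ : ∀ l, κ l ≠ 0) : Nontrivial (ChartRing κ) := by
  obtain ⟨w, hw⟩ := IsAlgClosed.exists_pow_nat_eq
    ((κ (0, true) * κ (1, false) ^ 2)⁻¹ : k) (n := 3) (by norm_num)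
  have hA := hκ (0, true)
  have hB := hκ (1, false)
  have hw' : w ^ 3 * (κ (0, true) * κ (1, false) ^ 2) = 1 := by
    rw [hw, inv_mul_cancel₀ (mul_ne_zero hA (pow_ne_zero 2 hB))]
  let h : Idx → k := fun l =>
    if l = (1, false) then 1 else if l = (0, true) then w * κ (1, false) else 0
  let Z : Idx → k := fun l =>
    if l = (1, false) then 1 else if l = (0, true) then (w * κ (1, false)) ^ 2 else 0
  have y : ChartPt κ k :=
    { Z := Z
      w := w
      h := h
      h_a := by simp [h]
      h_m := by simp [h]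
      eq_ms := by simp [h, Z]
      eq_as := by simp [h, Z, lam, star]
      eq_Z := by
        intro l hl
        obtain ⟨i, j⟩ := l
        fin_cases i <;> cases j <;> simp_all [h, Z, lam, star]
      eq_w := by
        simp only [Z, lam, star]
        simp
        linear_combination hw' }
  exact RingHom.domain_nontrivial (y.lift : ChartRing κ →ₐ[k] k).toRingHom

end FQ
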