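import Mathlib
import Pool.Agent.Helper41.FQ.M.Psi1
import Pool.Agent.Helper41.FQ.M.Nontriv

/-!
MODULE FQ-STD-5 (non vanishing at the generic point).

`x : GenPt κ L`, `k` algebraically closed of characteristic 2, all `κ_l ≠ 0`.
If `x.Λ a = 0` then the polynomial `cLam κ a` lies in the ideal `(Q, F)` (`x.ker`,
`x.aeval_cLam`), so `ψ (cLam κ a) = 0` (`psi_Q`, `psi_F`), but by `psi_lam` it is the image of
`Λ_a`, a unit (`w Λ_a = 1`) of the nontrivial ring `ChartRing κ`, and `inclE κ` is injective: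
contradiction. If `x.m a m = 0`, `m = (1,false)`: `ψ (cm κ a m)` is the image of
`h_a Λ_m + h_m Λ_a = Λ_a` (`psi_m`, `h_a = 0`, `h_m = 1`): contradiction again.
`exists_GP`: for arbitrary `l` choose a word `w` (`exists_word`) with `lab w (0,false) = l`
(and `lab w (1,false) = n`), and apply the first two statements to the relabelled
point `x.lab w : GenPt (labκ κ w) L` (use `labκ_eq`, `GenPt.lab_ζ`; compute `(x.lab w).Λ l =
x.Λ (lab w l)` as in `GP.lab_Λ`, `GenPt.mv_Λ`, `GenPt.mv_m` of CP.lean, by induction on `w`).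
`(2 : L) = 0` since `L` is a `k`-algebra and `CharP k 2`.
-/

open MvPolynomial

universe u v

namespace FQ

/-- Words in the generators, one for every pair of coordinates in different groups. -/
private def wds : List (List (Fin 4)) :=
  [[], [0], [1], [0, 1], [1, 0], [1, 2], [0, 1, 0], [0, 1, 2], [1, 0, 2], [1, 2, 3],
   [0, 1, 0, 2], [0, 1, 2, 3], [1, 0, 2, 1], [1, 0, 2, 3], [1, 2, 3, 2], [0, 1, 0, 2, 1],
   [0, 1, 0, 2, 3], [0, 1, 2, 3, 2], [1, 0, 2, 1, 3], [1, 0, 2, 3, 2], [1, 2, 3, 2, 1],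
   [0, 1, 0, 2, 1, 3], [0, 1, 0, 2, 3, 2], [0, 1, 2, 3, 2, 1], [1, 0, 2, 1, 3, 2],
   [1, 0, 2, 3, 2, 1], [1, 2, 3, 2, 1, 0], [0, 1, 0, 2, 1, 3, 2], [0, 1, 0, 2, 3, 2, 1],
   [0, 1, 2, 3, 2, 1, 0], [1, 0, 2, 1, 3, 2, 1], [1, 0, 2, 1, 3, 2, 3], [1, 0, 2, 3, 2, 1, 0],
   [0, 1, 0, 2, 1, 3, 2, 1], [0, 1, 0, 2, 1, 3, 2, 3], [0, 1, 0, 2, 3, 2, 1, 0],
   [1, 0, 2, 1, 3, 2, 1, 0], [1, 0, 2, 1, 3, 2, 1, 3], [0, 1, 0, 2, 1, 3, 2, 1, 0],
   [0, 1, 0, 2, 1, 3, 2, 1, 3], [1, 0, 2, 1, 3, 2, 1, 0, 3], [1, 0, 2, 1, 3, 2, 1, 3, 2],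
   [0, 1, 0, 2, 1, 3, 2, 1, 0, 3], [0, 1, 0, 2, 1, 3, 2, 1, 3, 2],
   [1, 0, 2, 1, 3, 2, 1, 0, 3, 2], [0, 1, 0, 2, 1, 3, 2, 1, 0, 3, 2],
   [1, 0, 2, 1, 3, 2, 1, 0, 3, 2, 1], [0, 1, 0, 2, 1, 3, 2, 1, 0, 3, 2, 1]]

private theorem wds_spec : ∀ a m : Idx, m ≠ a → m ≠ star a →
    ∃ w ∈ wds, lab w (0, false) = a ∧ lab w (1, false) = m := by
  decide +kernel

/-- every pair `(a, m)` with `m ≠ a, star a` occurs: `decide` over the 48 pairs, with an explicit
table of words (for instance `fun a m => ...`), or a search over a small finset of words. -/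
theorem exists_word (a m : Idx) (h1 : m ≠ a) (h2 : m ≠ star a) :
    ∃ w : List (Fin 4), lab w (0, false) = a ∧ lab w (1, false) = m := by
  obtain ⟨w, -, hw⟩ := wds_spec a m h1 h2
  exact ⟨w, hw⟩

section Aux

variable {k : Type u} [Field k] {κ : Idx → k} {L : Type v} [Field L] [Algebra k L]

private theorem psi_of_mem [CharP k 2] {p : MvPolynomial Idx k}
    (hp : p ∈ Ideal.span ({polyQ k, polyF κ} : Set (MvPolynomial Idx k))) : psi κ p = 0 := by
  have hle : Ideal.span ({polyQ k, polyF κ} : Set (MvPolynomial Idx k)) ≤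
      RingHom.ker (psi κ) := by
    rw [Ideal.span_le]
    intro q hq
    simp only [Set.mem_insert_iff, Set.mem_singleton_iff] at hq
    rcases hq with rfl | rfl
    · rw [SetLike.mem_coe, RingHom.mem_ker]
      exact psi_Q κ
    · rw [SetLike.mem_coe, RingHom.mem_ker]
      exact psi_F κ
  exact RingHom.mem_ker.1 (hle hp)

private theorem lab_Λ_aux (x : GenPt κ L) (w : List (Fin 4)) (l : Idx) :
    (x.lab w).Λ l = x.Λ (FQ.lab w l) := by
  rw [GenPt.Λ, GenPt.lab_ζ, lab_star, labκ_eq, lab_star]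
  rfl

private theorem lab_m_aux (x : GenPt κ L) (w : List (Fin 4)) (l n : Idx) :
    (x.lab w).m l n = x.m (FQ.lab w l) (FQ.lab w n) := by
  rw [GenPt.m, lab_Λ_aux, lab_Λ_aux, GenPt.lab_ζ, GenPt.lab_ζ]
  rfl

end Aux

variable {k : Type u} [Field k] [IsAlgClosed k] [CharP k 2] {κ : Idx → k}
  {L : Type v} [Field L] [Algebra k L]

private theorem lam_pt_ne_zero (hκ : ∀ l, κ l ≠ 0) :
    lam κ (ChartRing.pt κ).Z (0, false) ≠ 0 := by
  intro h
  have h4 := (ChartRing.pt κ).eq_w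
  rw [h, mul_zero] at h4
  have := ChartRing.nontrivial κ hκ
  exact zero_ne_one h4

theorem GenPt.Λ_ne_zero (hκ : ∀ l, κ l ≠ 0) (x : GenPt κ L) : x.Λ (0, false) ≠ 0 := by
  intro h
  have h1 := (x.ker (cLam κ (0, false))).1 (by rw [x.aeval_cLam, h])
  have h2 := psi_of_mem h1
  rw [psi_lam] at h2
  exact lam_pt_ne_zero hκ (inclE_injective κ (by rw [h2, map_zero]))

theorem GenPt.m_ne_zero (hκ : ∀ l, κ l ≠ 0) (x : GenPt κ L) :
    x.m (0, false) (1, false) ≠ 0 := by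
  intro h
  have h1 := (x.ker (cm κ (0, false) (1, false))).1 (by rw [x.aeval_cm, h])
  have h2 := psi_of_mem h1
  rw [psi_m, (ChartRing.pt κ).h_a, (ChartRing.pt κ).h_m, zero_mul, zero_add, one_mul] at h2
  exact lam_pt_ne_zero hκ (inclE_injective κ (by rw [h2, map_zero]))

theorem exists_GP (hκ : Good κ) (x : GenPt κ L) : ∃ y : GP κ L, y.toGenPt = x := by
  have hlab : ∀ w : List (Fin 4), ∀ l, labκ κ w l ≠ 0 := by
    intro w l
    rw [labκ_eq]
    exact hκ.1 _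
  have htwo : (2 : L) = 0 := by
    have := charP_of_injective_algebraMap (algebraMap k L).injective 2
    exact_mod_cast CharP.cast_eq_zero L 2
  have hΛ : ∀ l, x.Λ l ≠ 0 := by
    intro l
    obtain ⟨m, h1, h2⟩ : ∃ m : Idx, m ≠ l ∧ m ≠ star l := by
      revert l
      decide
    obtain ⟨w, hw, -⟩ := exists_word l m h1 h2
    have := GenPt.Λ_ne_zero (hlab w) (x.lab w)
    rwa [lab_Λ_aux, hw] at this
  have hm : ∀ l n, n ≠ l → n ≠ star l → x.m l n ≠ 0 := by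
    intro l n h1 h2
    obtain ⟨w, hw1, hw2⟩ := exists_word l n h1 h2
    have := GenPt.m_ne_zero (hlab w) (x.lab w)
    rwa [lab_m_aux, hw1, hw2] at this
  exact ⟨{ toGenPt := x, good := hκ, two := htwo, Λ_ne := hΛ, m_ne := hm }, rfl⟩

end FQ
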