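import Mathlib
import Pool.Agent.Helper41.FQ.Gens
import Pool.Agent.Helper41.FQ.M.Cov1
import Pool.Agent.Helper41.FQ.M.Cov2
import Pool.Agent.Helper41.FQ.M.ModelLem
import Pool.Agent.Helper41.FQ.M.NeZero

/-!
MODULE FQ-CH-5 (the charts `U_w` cover `X`; the open sets `ζ_b ≠ 0` cover `X`).

`p : M.X`; `p ∈ W i₀` for some `i₀` (`M.cover`). `Model.exists_eval` and `GP.cover1` (with
`c = e i₀`; the two adjoined sets are equal because `Set.range e = x.gens`) give `b` with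
`p ∈ W i`, `e i = ζ_b⁶` (such an `i` exists as `ζ_b⁶ ∈ gens = range e`). This is `cover_ζ`.
Let `b = star a'`, `a' = star b`. Choose a word `w₀` with `lab w₀ (0,false) = a'` (exists_word), apply
`GP.cover2` to `x.lab w₀` (`(x.lab w₀).ζ (0,true) = x.ζ (star a') = x.ζ b`, `gens_lab`,
`GP.lab_ζ`, `lab_star`) and `exists_eval` for `i`: there is `n ≠ (0,false), (0,true)` with
`p ∈ W j`, `e j = (x.lab w₀).m (0,false) n ^ 2 = x.m a' n' ^ 2`, `n' = lab w₀ n ≠ a', star a'`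
(`lab w₀` is injective, commutes with `star`). Choose `w` with `lab w (0,false) = a'`,
`lab w (1,false) = n'`.
-/

open CategoryTheory AlgebraicGeometry TopologicalSpace

universe u

namespace FQ

variable {k : Type u} [Field k] {κ : Idx → k} {L : Type u} [Field L] [Algebra k L] {N : ℕ}
  {e : Fin (N + 1) → L}

private theorem lab_injective' (w : List (Fin 4)) : Function.Injective (lab w) :=
  Finite.injective_iff_surjective.2 (lab_surjective w)

/-- Evaluation at a point of the model, for an arbitrary description `S` of the set of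
coordinates and of the reference coordinate. -/
private theorem exists_eval' (M : Model (k := k) e) (i : Fin (N + 1)) (p : M.X) (hp : p ∈ M.W i)
    (S : Set L) (hS : Set.range e = S) (c : L) (hc : e i = c) :
    ∃ (F : Type u) (_ : Field F) (χ : Algebra.adjoin k {y : L | ∃ g ∈ S, y = g / c} →+* F),
      ∀ (g : L) (hg : g ∈ Algebra.adjoin k {y : L | ∃ g ∈ S, y = g / c}) (j : Fin (N + 1)),
        g = e j / c → χ ⟨g, hg⟩ ≠ 0 → p ∈ M.W j := by
  obtain ⟨F, hF, χ, hχ⟩ := M.exists_eval i p hp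
  have hset : {y : L | ∃ g ∈ S, y = g / c} = Set.range fun j => e j / e i := by
    subst hS
    subst hc
    ext y
    constructor
    · rintro ⟨g, ⟨j, rfl⟩, rfl⟩
      exact ⟨j, rfl⟩
    · rintro ⟨j, rfl⟩
      exact ⟨e j, ⟨j, rfl⟩, rfl⟩
  have hle : Algebra.adjoin k {y : L | ∃ g ∈ S, y = g / c} ≤
      Algebra.adjoin k (Set.range fun j => e j / e i) := by
    rw [hset]
  refine ⟨F, hF, χ.comp (Subalgebra.inclusion hle).toRingHom, ?_⟩
  intro g hg j hgj h
  rw [hχ j]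
  subst hc
  subst hgj
  exact h

theorem GP.cover_ζ (x : GP κ L) (he : Set.range e = x.gens) (M : Model (k := k) e) (p : M.X) :
    ∃ (b : Idx) (i : Fin (N + 1)), e i = x.ζ b ^ 6 ∧ p ∈ M.W i := by
  have hp : p ∈ (⨆ i, M.W i : M.X.Opens) := by
    rw [M.cover]
    trivial
  obtain ⟨i₀, hi₀⟩ := Opens.mem_iSup.1 hp
  have hc : e i₀ ∈ x.gens := he ▸ Set.mem_range_self i₀
  obtain ⟨F, hF, χ, hχ⟩ := exists_eval' M i₀ p hi₀ x.gens he (e i₀) rfl
  obtain ⟨b, hb⟩ := x.cover1 (e i₀) hc χ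
  have hmem : x.ζ b ^ 6 ∈ x.gens :=
    ⟨pow_ne_zero _ (x.ζ_ne b), Or.inl ⟨b, b, b, by ring⟩⟩
  rw [← he] at hmem
  obtain ⟨i, hi⟩ := hmem
  exact ⟨b, i, hi, hχ _ _ i (by rw [hi]) hb⟩

theorem GP.cover_chart (x : GP κ L) (he : Set.range e = x.gens) (M : Model (k := k) e)
    (p : M.X) : ∃ c : ChartIdx x e, p ∈ c.U M := by
  obtain ⟨b, i, hi, hpi⟩ := x.cover_ζ he M p
  have hmex : ∀ b : Idx, ∃ m : Idx, m ≠ star b ∧ m ≠ star (star b) := by decide
  obtain ⟨m, hm1, hm2⟩ := hmex b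
  obtain ⟨w₀, hw₀, -⟩ := exists_word (star b) m hm1 hm2
  have hlt : ∀ w : List (Fin 4), FQ.lab w (0, false) = star b → FQ.lab w (0, true) = b := by
    intro w hw
    have h1 : ((0, true) : Idx) = star (0, false) := rfl
    rw [h1, lab_star, hw, star_star]
  have hgA : ∀ w : List (Fin 4), FQ.lab w (0, false) = star b → e i = (x.lab w).gA := by
    intro w hw
    rw [GP.gA, GP.lab_ζ, hlt w hw, hi]
  obtain ⟨F, hF, χ, hχ⟩ := exists_eval' M i p hpi (x.lab w₀).gens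
    (by rw [he, GP.gens_lab]) (x.lab w₀).gA (hgA w₀ hw₀)
  obtain ⟨n, h1, h2, hn⟩ := (x.lab w₀).cover2 χ
  have hmem : (x.lab w₀).toGenPt.m (0, false) n ^ 2 ∈ x.gens := by
    rw [← x.gens_lab w₀]
    exact ⟨pow_ne_zero _ ((x.lab w₀).m_ne _ _ h1 h2), Or.inr ⟨(0, false), n, (0, false), n, sq _⟩⟩
  rw [← he] at hmem
  obtain ⟨j, hj⟩ := hmem
  have hpj : p ∈ M.W j := hχ _ _ j (by rw [hj]) hn
  have hn1 : FQ.lab w₀ n ≠ star b := by
    intro h
    rw [← hw₀] at h
    exact h1 (lab_injective' w₀ h)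
  have hn2 : FQ.lab w₀ n ≠ star (star b) := by
    intro h
    rw [star_star, ← hlt w₀ hw₀] at h
    exact h2 (lab_injective' w₀ h)
  obtain ⟨w, hw1, hw2⟩ := exists_word (star b) (FQ.lab w₀ n) hn1 hn2
  refine ⟨⟨w, i, j, hgA w hw1, ?_⟩, hpi, hpj⟩
  rw [GP.gM, GP.lab_m, hw1, hw2, hj, GP.lab_m, hw₀]

end FQ
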