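import Mathlib
import Pool.Agent.Helper41.FQ.CP

/-!
MODULE FQ-STD-7 (chart values after relabelling by one generator `mv i`).

Everything in the field `L`, `2 = 0` (`x.two`), with `x.mv_Λ`, `x.mv_m` (`GenPt.mv_Λ`,
`GenPt.mv_m`), `mam_ne`, `Λ_ne`, `lmb`. Write `a=(0,false), m=(1,false), p=(2,false)`.
* `mv 2`, `mv 3` fix `a` and `m`: `λ` is unchanged and everything is permuted.
* `mv 1` fixes `a` and sends `m` to `p`: `λ' = m_(a,p) / Λ_a = λ h_p`, so `Z'_l = Z_(mv 1 l) / h_p²`,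
  `w' = w h_p²`, `h'_l = m_(a, mv 1 l) / m_(a,p) = h_(mv 1 l) / h_p`.
* `mv 0` exchanges `a` and `m`: `λ' = m_(m,a) / Λ_m = λ Λ_a / Λ_m` (`m_(l,n) = m_(n,l)`), so
  `Z'_l = Z_(mv 0 l) (Λ_m / Λ_a)²` and, since `Λ_a m_(m,n) = Λ_m m_(a,n) + Λ_n m_(a,m)` (2 = 0),
  `h'_l = m_(m,mv 0 l) / m_(m,a) = (Λ_m h_(mv 0 l) + Λ_(mv 0 l)) / Λ_a`, where the `Λ` on the right
  are the normalised ones, `lam κ x.chartPt.Z l = Λ_l / λ²` (`GP.lam_cZ`).
-/

universe u v

namespace FQ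

variable {k : Type u} [Field k] {κ : Idx → k} {L : Type v} [Field L] [Algebra k L]

private theorem mv_lmb (x : GP κ L) (i : Fin 4) : (x.mv i).toGenPt.lmb =
    x.toGenPt.m (FQ.mv i (0, false)) (FQ.mv i (1, false)) / x.toGenPt.Λ (FQ.mv i (0, false)) := by
  rw [GenPt.lmb]
  show (x.toGenPt.mv i).m (0, false) (1, false) / (x.toGenPt.mv i).Λ (0, false) = _
  rw [GenPt.mv_m, GenPt.mv_Λ]

private theorem mv_cZ (x : GP κ L) (i : Fin 4) (l : Idx) : (x.mv i).chartPt.Z l =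
    x.ζ (FQ.mv i l) ^ 2 / (x.toGenPt.m (FQ.mv i (0, false)) (FQ.mv i (1, false)) /
      x.toGenPt.Λ (FQ.mv i (0, false))) ^ 2 := by
  show (x.mv i).cZ l = _
  rw [GP.cZ, mv_lmb]
  rfl

private theorem mv_ch (x : GP κ L) (i : Fin 4) (l : Idx) : (x.mv i).chartPt.h l =
    x.toGenPt.m (FQ.mv i (0, false)) (FQ.mv i l) /
      x.toGenPt.m (FQ.mv i (0, false)) (FQ.mv i (1, false)) := by
  show (x.mv i).ch l = _
  rw [GP.ch]
  show (x.toGenPt.mv i).m (0, false) l / (x.toGenPt.mv i).m (0, false) (1, false) = _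
  rw [GenPt.mv_m, GenPt.mv_m]

private theorem chart_Z (x : GP κ L) (l : Idx) : x.chartPt.Z l =
    x.ζ l ^ 2 / (x.toGenPt.m (0, false) (1, false) / x.toGenPt.Λ (0, false)) ^ 2 := rfl

private theorem chart_h (x : GP κ L) (l : Idx) : x.chartPt.h l =
    x.toGenPt.m (0, false) l / x.toGenPt.m (0, false) (1, false) := rfl

private theorem chart_lam (x : GP κ L) (l : Idx) : lam κ x.chartPt.Z l =
    x.toGenPt.Λ l / (x.toGenPt.m (0, false) (1, false) / x.toGenPt.Λ (0, false)) ^ 2 :=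
  x.lam_cZ l

private theorem m_comm (x : GP κ L) (l n : Idx) : x.toGenPt.m l n = x.toGenPt.m n l := by
  rw [GenPt.m, GenPt.m]
  ring

theorem GP.h_ne (x : GP κ L) (l : Idx) (h1 : l ≠ (0, false)) (h2 : l ≠ (0, true)) :
    x.chartPt.h l ≠ 0 :=
  div_ne_zero (x.m_ne _ _ h1 h2) x.mam_ne

theorem GP.lamZ_ne (x : GP κ L) (l : Idx) : lam κ x.chartPt.Z l ≠ 0 := by
  rw [chart_lam]
  exact div_ne_zero (x.Λ_ne l) (pow_ne_zero 2 (div_ne_zero x.mam_ne (x.Λ_ne _)))

theorem GP.mv0_Z (x : GP κ L) (l : Idx) : (x.mv 0).chartPt.Z l =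
    x.chartPt.Z (FQ.mv 0 l) * (lam κ x.chartPt.Z (1, false) / lam κ x.chartPt.Z (0, false)) ^ 2 := by
  have ha : FQ.mv 0 (0, false) = (1, false) := by decide
  have hm : FQ.mv 0 (1, false) = (0, false) := by decide
  rw [mv_cZ, chart_lam, chart_lam, chart_Z, ha, hm, m_comm x (1, false) (0, false)]
  have h1 := x.mam_ne
  have h2 := x.Λ_ne (0, false)
  have h3 := x.Λ_ne (1, false)
  field_simp

theorem GP.mv0_h (x : GP κ L) (l : Idx) : (x.mv 0).chartPt.h l =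
    (lam κ x.chartPt.Z (1, false) * x.chartPt.h (FQ.mv 0 l) + lam κ x.chartPt.Z (FQ.mv 0 l)) /
      lam κ x.chartPt.Z (0, false) := by
  have ha : FQ.mv 0 (0, false) = (1, false) := by decide
  have hm : FQ.mv 0 (1, false) = (0, false) := by decide
  rw [mv_ch, chart_lam, chart_lam, chart_lam, chart_h, ha, hm, m_comm x (1, false) (0, false)]
  have h1 := x.mam_ne
  have h2 := x.Λ_ne (0, false)
  have h3 := x.Λ_ne (1, false)
  have key : x.toGenPt.m (1, false) (FQ.mv 0 l) * x.toGenPt.Λ (0, false) =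
      x.toGenPt.Λ (1, false) * x.toGenPt.m (0, false) (FQ.mv 0 l) +
        x.toGenPt.Λ (FQ.mv 0 l) * x.toGenPt.m (0, false) (1, false) := by
    simp only [GenPt.m]
    linear_combination (-x.ζ (0, false) * x.toGenPt.Λ (FQ.mv 0 l) * x.toGenPt.Λ (1, false)) * x.two
  have gen : ∀ A B W n p m : L, m ≠ 0 → A ≠ 0 → n * A = B * p + W * m →
      n / m = (B / (m / A) ^ 2 * (p / m) + W / (m / A) ^ 2) / (A / (m / A) ^ 2) := by
    intro A B W n p m hm hA h
    field_simp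
    linear_combination h
  exact gen _ _ _ _ _ _ h1 h2 key

theorem GP.mv1_Z (x : GP κ L) (l : Idx) : (x.mv 1).chartPt.Z l =
    x.chartPt.Z (FQ.mv 1 l) / x.chartPt.h (2, false) ^ 2 := by
  have ha : FQ.mv 1 (0, false) = (0, false) := by decide
  have hm : FQ.mv 1 (1, false) = (2, false) := by decide
  rw [mv_cZ, chart_Z, chart_h, ha, hm]
  have h1 := x.mam_ne
  have h2 := x.Λ_ne (0, false)
  have h3 : x.toGenPt.m (0, false) (2, false) ≠ 0 := x.m_ne _ _ (by decide) (by decide)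
  field_simp

theorem GP.mv1_h (x : GP κ L) (l : Idx) : (x.mv 1).chartPt.h l =
    x.chartPt.h (FQ.mv 1 l) / x.chartPt.h (2, false) := by
  have ha : FQ.mv 1 (0, false) = (0, false) := by decide
  have hm : FQ.mv 1 (1, false) = (2, false) := by decide
  rw [mv_ch, chart_h, chart_h, ha, hm, div_div_div_cancel_right₀ x.mam_ne]

theorem GP.mv2_Z (x : GP κ L) (l : Idx) : (x.mv 2).chartPt.Z l = x.chartPt.Z (FQ.mv 2 l) := by
  have ha : FQ.mv 2 (0, false) = (0, false) := by decide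
  have hm : FQ.mv 2 (1, false) = (1, false) := by decide
  rw [mv_cZ, chart_Z, ha, hm]

theorem GP.mv2_h (x : GP κ L) (l : Idx) : (x.mv 2).chartPt.h l = x.chartPt.h (FQ.mv 2 l) := by
  have ha : FQ.mv 2 (0, false) = (0, false) := by decide
  have hm : FQ.mv 2 (1, false) = (1, false) := by decide
  rw [mv_ch, chart_h, ha, hm]

theorem GP.mv3_Z (x : GP κ L) (l : Idx) : (x.mv 3).chartPt.Z l = x.chartPt.Z (FQ.mv 3 l) := by
  have ha : FQ.mv 3 (0, false) = (0, false) := by decide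
  have hm : FQ.mv 3 (1, false) = (1, false) := by decide
  rw [mv_cZ, chart_Z, ha, hm]

theorem GP.mv3_h (x : GP κ L) (l : Idx) : (x.mv 3).chartPt.h l = x.chartPt.h (FQ.mv 3 l) := by
  have ha : FQ.mv 3 (0, false) = (0, false) := by decide
  have hm : FQ.mv 3 (1, false) = (1, false) := by decide
  rw [mv_ch, chart_h, ha, hm]

end FQ
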