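import Mathlib
import Pool.Agent.Helper41.FQ.Std

/-!
MODULE FQ-STD-1 (submersive presentation of the chart ring).

`ChartRing κ = k[Vars] ⧸ (rel κ l : l ∈ Idx)`. The relation `rel κ l`, `l ≠ a = (0,false)`, is
`Z_l - (h_l² + Z_a w² Λ_l²)`, and `rel κ a = w Λ_a - 1`, `Λ_l = κ_(star l) Z_(star l)`.
Take the generators `P.val v = mk (X v)` (all 13 variables), the relations `rel κ l`, `l : Idx`,
and `P.map l = inl l` for `l ≠ a`, `P.map a = inr 0` (the variable `w`), injective.
Mathlib: `Algebra.Presentation.naive`, `Algebra.PreSubmersivePresentation`,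
`PreSubmersivePresentation.jacobian`, `jacobiMatrix`, `SubmersivePresentation`.
Jacobian: in characteristic 2 every square has zero partial derivatives
(`pderiv i (p ^ 2) = 2 * p * pderiv i p = 0`), hence
  ∂ rel_l / ∂ Z_n = δ_(l,n) for l, n ≠ a (note that Z_a * w² * Λ_l² differentiates to 0 with
  respect to Z_n, n ≠ a, and to w), ∂ rel_l / ∂ w = 0 (l ≠ a),
  ∂ rel_a / ∂ w = Λ_a, ∂ rel_a / ∂ Z_n = w κ_(star a) if n = star a, 0 otherwise.
So the Jacobi matrix is lower triangular up to the order of the indices, all rows `l ≠ a` are unit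
vectors, and its determinant is `Λ_a` (or: expand along the row / use
`Matrix.det_of_lowerTriangular`, or exhibit an inverse matrix; only `IsUnit` is needed: the image
in `ChartRing κ` is a unit because `w Λ_a = 1`, `(ChartRing.pt κ).eq_w`).
-/

open MvPolynomial

universe u

namespace FQ

variable {k : Type u} [Field k] [CharP k 2] (κ : Idx → k)

/-- the map of the presentation -/
private def presMap (l : Idx) : Vars := if l = (0, false) then Sum.inr 0 else Sum.inl l

private theorem presMap_inj : Function.Injective presMap := by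
  intro x y h
  unfold presMap at h
  split_ifs at h with h1 h2 h2
  · rw [h1, h2]
  · exact Sum.inl_injective h

private theorem two_eq_zero_mv : (2 : MvPolynomial Vars k) = 0 := by
  have h : (2 : k) = 0 := CharTwo.two_eq_zero
  rw [← map_ofNat (C : k →+* MvPolynomial Vars k) 2, h, map_zero]

private theorem pderiv_sq (i : Vars) (p : MvPolynomial Vars k) : pderiv i (p ^ 2) = 0 := by
  rw [pow_two, Derivation.leibniz, smul_eq_mul, ← two_mul, two_eq_zero_mv, zero_mul]

private theorem pderiv_rel_of_ne (i j : Idx) (hj : j ≠ (0, false)) :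
    pderiv (presMap i) (rel κ j) = if i = j then 1 else 0 := by
  rw [rel, if_neg hj, map_sub, map_add, pderiv_sq, zero_add, Derivation.leibniz, pderiv_sq,
    Derivation.leibniz, pderiv_sq]
  unfold presMap
  by_cases hi : i = (0, false)
  · have hij : i ≠ j := fun h => hj (h ▸ hi)
    rw [if_pos hi, if_neg hij]
    simp [pderiv_X_of_ne]
  · rw [if_neg hi]
    have h1 : pderiv (Sum.inl i : Vars) (X (Sum.inl (0, false)) : MvPolynomial Vars k) = 0 :=
      pderiv_X_of_ne (fun h => hi (Sum.inl_injective h).symm)
    rw [h1]
    by_cases hij : i = j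
    · subst hij
      simp
    · rw [if_neg hij, pderiv_X_of_ne (fun h => hij (Sum.inl_injective h).symm)]
      simp

omit [CharP k 2] in
private theorem pderiv_rel_self :
    pderiv (presMap (0, false)) (rel κ (0, false)) = pLam κ (0, false) := by
  rw [rel, if_pos rfl, map_sub, Derivation.leibniz]
  unfold presMap
  rw [if_pos rfl]
  simp [pLam]

theorem ChartRing.exists_pres :
    ∃ P : Algebra.SubmersivePresentation k (ChartRing κ) Vars Idx,
      (∀ v, P.val v = ChartRing.mk κ (X v)) ∧
      ∀ l, P.map l = if l = (0, false) then Sum.inr 0 else Sum.inl l := by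
  classical
  let P1 : Algebra.PreSubmersivePresentation k (ChartRing κ) Vars Idx :=
    { toPresentation := (Algebra.Presentation.naive : Algebra.Presentation k
        (MvPolynomial Vars k ⧸ Ideal.span (Set.range (rel κ))) Vars Idx)
      map := presMap
      map_inj := presMap_inj }
  have hM : P1.jacobiMatrix =
      (1 : Matrix Idx Idx (MvPolynomial Vars k)).updateCol (0, false)
        (fun i => pderiv (presMap i) (rel κ (0, false))) := by
    ext i j : 1
    rw [P1.jacobiMatrix_apply]
    change pderiv (presMap i) (rel κ j) = _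
    by_cases hj : j = (0, false)
    · subst hj
      rw [Matrix.updateCol_self]
    · rw [Matrix.updateCol_ne hj, pderiv_rel_of_ne κ i j hj, Matrix.one_apply]
  have hdet : P1.jacobiMatrix.det = pLam κ (0, false) := by
    rw [hM, ← Matrix.cramer_apply, Matrix.cramer_one]
    exact pderiv_rel_self κ
  have hval : ∀ v, P1.val v = ChartRing.mk κ (X v) := fun v => rfl
  have halg : ∀ p : MvPolynomial Vars k, algebraMap P1.Ring (ChartRing κ) p =
      ChartRing.mk κ p := fun p => by
    rw [Algebra.Generators.algebraMap_apply]
    have : (aeval P1.val : MvPolynomial Vars k →ₐ[k] ChartRing κ) = ChartRing.mk κ := by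
      ext v
      rw [aeval_X, hval]
    exact DFunLike.congr_fun this p
  refine ⟨{ toPreSubmersivePresentation := P1, jacobian_isUnit := ?_ }, hval, fun l => rfl⟩
  rw [P1.jacobian_eq_jacobiMatrix_det, hdet]
  have hw := (ChartRing.pt κ).eq_w
  refine IsUnit.of_mul_eq_one (ChartRing.mk κ (X (Sum.inr 0))) ?_
  erw [halg, mul_comm]
  rw [ChartRing.pt, ChartRing.lam_eq] at hw
  exact hw

end FQ
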