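import Mathlib
import Pool.Agent.Helper41.FQ.M.Pres

/-!
MODULE FQ-STD-2 (the chart ring is standard smooth of relative dimension 5; basis of `Ω`).

From `ChartRing.exists_pres`: the dimension of the presentation is `13 - 8 = 5`
(`Algebra.SubmersivePresentation.isStandardSmoothOfRelativeDimension`, `Presentation.dimension`
is `Nat.card Vars - Nat.card Idx`), and `SubmersivePresentation.basisKaehlerOfIsCompl` with
`f : Fin 5 → Vars`, `f = ![inl (0,false), inr 1, inr 2, inr 3, inr 4]` (the complement of the range
of `P.map`) gives the basis; `basisKaehlerOfIsCompl_apply` says `b i = D (P.val (f i))`, and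
`P.val (f i) = mk (X (f i))` is `(ChartRing.pt κ).coords i` (check the five cases: `pt.Z l` is
`mk (X (inl l))` and `pt.h (2,false) = mk (pH κ (2,false)) = mk (X (inr 1))`, and so on).
-/

open MvPolynomial

universe u

namespace FQ

variable {k : Type u} [Field k] [CharP k 2] (κ : Idx → k)

theorem ChartRing.standardSmooth :
    Algebra.IsStandardSmoothOfRelativeDimension 5 k (ChartRing κ) := by
  obtain ⟨P, -, -⟩ := ChartRing.exists_pres κ
  refine P.isStandardSmoothOfRelativeDimension ?_
  simp [Algebra.Presentation.dimension, Nat.card_eq_fintype_card]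

/-- The free variables. -/
private def fv : Fin 5 → Vars :=
  ![Sum.inl (0, false), Sum.inr 1, Sum.inr 2, Sum.inr 3, Sum.inr 4]

private lemma fv_inj : Function.Injective fv := by
  unfold fv
  intro i j h
  fin_cases i <;> fin_cases j <;> simp_all

private lemma fv_compl (m : Idx → Vars)
    (hm : ∀ l, m l = if l = (0, false) then Sum.inr 0 else Sum.inl l) :
    IsCompl (Set.range fv) (Set.range m) := by
  refine ⟨Set.disjoint_left.2 ?_, codisjoint_iff.2 (Set.eq_univ_of_forall ?_)⟩
  · rintro _ ⟨i, rfl⟩ ⟨l, hl⟩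
    rw [hm] at hl
    unfold fv at hl
    split_ifs at hl with h
    · fin_cases i <;> simp at hl
    · fin_cases i
      · exact h (Sum.inl_injective hl)
      all_goals simp at hl
  · rintro (l | i)
    · by_cases h : l = (0, false)
      · exact Or.inl ⟨0, by rw [h]; rfl⟩
      · exact Or.inr ⟨l, by rw [hm, if_neg h]⟩
    · fin_cases i
      · exact Or.inr ⟨(0, false), by rw [hm, if_pos rfl]; rfl⟩
      · exact Or.inl ⟨1, rfl⟩
      · exact Or.inl ⟨2, rfl⟩
      · exact Or.inl ⟨3, rfl⟩
      · exact Or.inl ⟨4, rfl⟩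

theorem ChartRing.exists_basis :
    ∃ b : Module.Basis (Fin 5) (ChartRing κ) (Ω[ChartRing κ⁄k]),
      ∀ i, b i = KaehlerDifferential.D k (ChartRing κ) ((ChartRing.pt κ).coords i) := by
  obtain ⟨P, hv, hm⟩ := ChartRing.exists_pres κ
  refine ⟨P.basisKaehlerOfIsCompl fv_inj (fv_compl P.map hm), fun i => ?_⟩
  rw [P.basisKaehlerOfIsCompl_apply, hv]
  congr 1
  fin_cases i <;> rfl

end FQ
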