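import Mathlib
import Pool.Agent.Helper41.FQ.CP
import Pool.Agent.Helper41.FQ.M.Basis

/-!
MODULE FQ-OM-1 (the basis of `Ω_K` given by a chart).

`φ : ChartRing κ →ₐ[k] K` is injective and every element of the field `K` is a quotient of
elements of the image; so `K` is a fraction field of `ChartRing κ` (give `K` the algebra structure
`φ.toRingHom.toAlgebra`, `IsFractionRing (ChartRing κ) K`). For a localization `K` of `R` the map
`Ω[R⁄k] → Ω[K⁄k]` is a localization of modules (Mathlib: `KaehlerDifferential.isLocalizedModule`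
or `...isLocalizedModule_map`), so the basis `b i = D (pt.coords i)` of `ChartRing.exists_basis`
gives a basis of `Ω[K⁄k]` (`Module.Basis.ofIsLocalizedModule`), whose vectors are
`D (φ (pt.coords i))`. For the last statement: `D r = ∑ c_i • D (coords i)` in `Ω[R⁄k]`, apply the
map to `Ω[K⁄k]` (`KaehlerDifferential.map_D`).
-/

open MvPolynomial

universe u v

namespace FQ

variable {k : Type u} [Field k] [CharP k 2] {κ : Idx → k} {K : Type v} [Field K] [Algebra k K]

theorem exists_omBasis (φ : ChartRing κ →ₐ[k] K) (hinj : Function.Injective φ)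
    (hfrac : ∀ z : K, ∃ r s, φ s ≠ 0 ∧ z * φ s = φ r) :
    ∃ b : Module.Basis (Fin 5) K (Ω[K⁄k]),
      (∀ i, b i = KaehlerDifferential.D k K (φ ((ChartRing.pt κ).coords i))) ∧
      ∀ r : ChartRing κ, ∃ c : Fin 5 → ChartRing κ,
        KaehlerDifferential.D k K (φ r) = ∑ i, φ (c i) • b i := by
  let _ : Algebra (ChartRing κ) K := φ.toRingHom.toAlgebra
  have hmap : ∀ r : ChartRing κ, algebraMap (ChartRing κ) K r = φ r := fun _ => rfl
  have : IsScalarTower k (ChartRing κ) K :=
    IsScalarTower.of_algebraMap_eq fun c => (φ.commutes c).symm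
  have : FaithfulSMul (ChartRing κ) K :=
    (faithfulSMul_iff_algebraMap_injective (ChartRing κ) K).2 hinj
  have : IsFractionRing (ChartRing κ) K := IsFractionRing.of_field _ _ fun z => by
    obtain ⟨r, s, hs, h⟩ := hfrac z
    refine ⟨r, s, ?_⟩
    rw [hmap, hmap, eq_div_iff hs]
    exact h
  obtain ⟨b0, hb0⟩ := ChartRing.exists_basis κ
  let b : Module.Basis (Fin 5) K (Ω[K⁄k]) :=
    b0.ofIsLocalizedModule K (nonZeroDivisors (ChartRing κ))
      (KaehlerDifferential.map k k (ChartRing κ) K)
  have hb : ∀ i, b i = KaehlerDifferential.D k K (φ ((ChartRing.pt κ).coords i)) := by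
    intro i
    show b0.ofIsLocalizedModule K (nonZeroDivisors (ChartRing κ))
      (KaehlerDifferential.map k k (ChartRing κ) K) i = _
    rw [Module.Basis.ofIsLocalizedModule_apply, hb0, KaehlerDifferential.map_D, hmap]
  refine ⟨b, hb, fun r => ⟨fun i => b0.repr (KaehlerDifferential.D k (ChartRing κ) r) i, ?_⟩⟩
  have h1 := congrArg (KaehlerDifferential.map k k (ChartRing κ) K)
    (b0.sum_repr (KaehlerDifferential.D k (ChartRing κ) r))
  rw [KaehlerDifferential.map_D, hmap, map_sum] at h1
  rw [← h1]
  refine Finset.sum_congr rfl fun i _ => ?_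
  rw [map_smul, hb0, KaehlerDifferential.map_D, hb, hmap]
  exact algebraMap_smul K (b0.repr (KaehlerDifferential.D k (ChartRing κ) r) i)
    (KaehlerDifferential.D k K (φ ((ChartRing.pt κ).coords i))) |>.symm

end FQ
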