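import Mathlib
import Pool.Agent.Helper41.FQ.FieldDef

/-!
MODULE FQ-OM-2 (the multiderivation given by a basis of `Ω_K`).

`ofBasis b` is `g ↦ b.det (d g₁, …, d g_n)`. Fill in the four properties:
`D` is additive, Leibniz (`Derivation.leibniz`: `D (a*b) = a • D b + b • D a`), zero on constants
(`Derivation.map_algebraMap`), and `b.det` is an alternating map; note
`(fun i => D (Function.update g j x i)) = Function.update (fun i => D (g i)) j (D x)`.
-/

open MvPolynomial

universe u v

noncomputable section

namespace FQ

variable {k : Type u} [Field k] {K : Type v} [Field K] [Algebra k K] {n : ℕ}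

private theorem omUpd (g : Fin n → K) (j : Fin n) (x : K) :
    (fun i => KaehlerDifferential.D k K (Function.update g j x i)) =
      Function.update (fun i => KaehlerDifferential.D k K (g i)) j
        (KaehlerDifferential.D k K x) := by
  funext i
  by_cases h : i = j
  · subst h
    simp
  · simp [Function.update_of_ne h]

/-- The multiderivation `g ↦ det (d g₁, …, d g_n)`. -/
def MultiDer.ofBasis (b : Module.Basis (Fin n) K (Ω[K⁄k])) : MultiDer (algebraMap k K) n where
  toFun := fun g => b.det fun i => KaehlerDifferential.D k K (g i)
  map_add' := by
    intro g j x y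
    rw [omUpd, omUpd, omUpd, map_add, AlternatingMap.map_update_add]
  leibniz' := by
    intro g j x y
    rw [omUpd, omUpd, omUpd, Derivation.leibniz, AlternatingMap.map_update_add,
      AlternatingMap.map_update_smul, AlternatingMap.map_update_smul, smul_eq_mul, smul_eq_mul]
  map_scal' := by
    intro g j c
    rw [omUpd, Derivation.map_algebraMap, AlternatingMap.map_update_zero]
  alternating' := by
    intro g j j' hne h
    exact b.det.map_eq_zero_of_eq _ (by simp only [h]) hne

end FQ
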