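import Mathlib
import Pool.Agent.Helper41.FQ.CP

/-!
MODULE FQ-OM-3 (Jacobian determinant of the move `m ↔ p`).

`y : ChartPt κ K`, characteristic 2, `b i = D (y.coords i)`, coordinates
`Z_a, h_p, h_(star p), h_q, h_(star q)`. Put `g = h_p⁻¹`. In characteristic 2 `D (x ^ 2) = 0` and
`D (x² y) = x² D y`. The derivatives of the new coordinates:
  `D (Z_a / h_p²) = g² D Z_a`,
  `D (1 / h_p) = g² D h_p`,
  `D (h_(star m) / h_p) = g D h_(star m) + g² h_(star m) D h_p`,
  `D (h_q / h_p) = g D h_q + g² h_q D h_p`, and the same for `star q`.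
From `eq_ms`: `h_(star m) = h_p h_(star p) + h_q h_(star q) + Z_a w² S`, `S = ∑_i Λ_(i0) Λ_(i1)`,
`D (Z_a w² S) = w² D (Z_a S)` and `D S` is a multiple of `D Z_a`: `Λ_l = κ_(star l) Z_(star l)` and
`D Z_l = w² Λ_l² D Z_a` for all `l` (from `eq_Z`; for `l = a` by `eq_w`; `D (h_l²) = 0`).
So `D h_(star m) = h_p D h_(star p) + h_(star p) D h_p + h_q D h_(star q) + h_(star q) D h_q +
c D Z_a` for some `c`. The matrix of the new differentials in the basis `b` is (rows = new)
  (g², 0, 0, 0, 0),
  (0, g², 0, 0, 0),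
  (*, *, g h_p = 1, *, *),
  (0, *, 0, g, 0),
  (0, *, 0, 0, g).
Its determinant is `g² g² 1 g g = g⁶` (use `b.det` as an alternating multilinear map, or
`Module.Basis.det_apply` and `Matrix.det` of the explicit 5 × 5 matrix; expanding the first,
second, fourth and fifth row first gives a triangular matrix).
-/

open MvPolynomial

universe u v

namespace FQ

variable {k : Type u} [Field k] [CharP k 2] {κ : Idx → k} {K : Type v} [Field K] [Algebra k K]

private theorem two_eq_zeroA (k : Type u) [Field k] [CharP k 2] {K : Type v} [Field K]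
    [Algebra k K] : (2 : K) = 0 := by
  have h : (2 : k) = 0 := by exact_mod_cast CharP.cast_eq_zero k 2
  have h' := congrArg (algebraMap k K) h
  rwa [map_ofNat, map_zero] at h'

private theorem D_sqA (x : K) : KaehlerDifferential.D k K (x ^ 2) = 0 := by
  rw [sq, Derivation.leibniz, ← two_smul K, two_eq_zeroA k, zero_smul]

private theorem D_sq_mulA (x y : K) : KaehlerDifferential.D k K (y * x ^ 2) =
    x ^ 2 • KaehlerDifferential.D k K y := by
  rw [Derivation.leibniz, D_sqA, smul_zero, zero_add]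

private theorem D_invA (x : K) : KaehlerDifferential.D k K x⁻¹ =
    x⁻¹ ^ 2 • KaehlerDifferential.D k K x := by
  have h := Derivation.leibniz_inv (KaehlerDifferential.D k K) x
  rw [h]
  congr 1
  linear_combination -(x⁻¹ ^ 2) * two_eq_zeroA k (K := K)

private theorem D_divA (x y : K) : KaehlerDifferential.D k K (y / x) =
    x⁻¹ • KaehlerDifferential.D k K y + (x⁻¹ ^ 2 * y) • KaehlerDifferential.D k K x := by
  rw [div_eq_mul_inv, Derivation.leibniz, D_invA, smul_smul, add_comm, mul_comm y]

private theorem D_ZA (y : ChartPt κ K) (l : Idx) :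
    KaehlerDifferential.D k K (y.Z l) =
      (y.w * lam κ y.Z l) ^ 2 • KaehlerDifferential.D k K (y.Z (0, false)) := by
  by_cases h : l = (0, false)
  · subst h
    rw [y.eq_w, one_pow, one_smul]
  · have h2 : y.Z l = y.h l ^ 2 + y.Z (0, false) * (y.w * lam κ y.Z l) ^ 2 := by
      rw [mul_pow, ← mul_assoc]
      exact y.eq_Z l h
    have h3 : KaehlerDifferential.D k K (y.Z l) = KaehlerDifferential.D k K
      (y.h l ^ 2 + y.Z (0, false) * (y.w * lam κ y.Z l) ^ 2) := congrArg _ h2
    rw [h3, map_add, D_sqA, zero_add, D_sq_mulA]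

/-- `D x` is a multiple of `D Z_a`. -/
private def MulA (k : Type u) [Field k] {K : Type v} [Field K] [Algebra k K] (z x : K) : Prop :=
  ∃ c : K, KaehlerDifferential.D k K x = c • KaehlerDifferential.D k K z

omit [CharP k 2] in
private theorem MulA.mul {z x x' : K} (h : MulA k z x) (h' : MulA k z x') :
    MulA k z (x * x') := by
  obtain ⟨c, hc⟩ := h
  obtain ⟨c', hc'⟩ := h'
  refine ⟨x * c' + x' * c, ?_⟩
  rw [Derivation.leibniz, hc, hc', smul_smul, smul_smul, ← add_smul]

omit [CharP k 2] in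
private theorem MulA.add {z x x' : K} (h : MulA k z x) (h' : MulA k z x') :
    MulA k z (x + x') := by
  obtain ⟨c, hc⟩ := h
  obtain ⟨c', hc'⟩ := h'
  refine ⟨c + c', ?_⟩
  rw [map_add, hc, hc', ← add_smul]

private theorem mulA_lam (y : ChartPt κ K) (l : Idx) :
    MulA k (y.Z (0, false)) (lam κ y.Z l) := by
  refine MulA.mul ⟨0, ?_⟩ ⟨_, D_ZA y (star l)⟩
  rw [zero_smul]
  exact Derivation.map_algebraMap _ _

private theorem mulA_S (y : ChartPt κ K) :
    MulA k (y.Z (0, false)) (y.Z (0, false) * y.w ^ 2 *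
      ∑ i : Fin 4, lam κ y.Z (i, false) * lam κ y.Z (i, true)) := by
  have hs : MulA k (y.Z (0, false)) (∑ i : Fin 4, lam κ y.Z (i, false) * lam κ y.Z (i, true)) := by
    rw [Fin.sum_univ_four]
    exact ((((mulA_lam y _).mul (mulA_lam y _)).add ((mulA_lam y _).mul (mulA_lam y _))).add
      ((mulA_lam y _).mul (mulA_lam y _))).add ((mulA_lam y _).mul (mulA_lam y _))
  have hz : MulA k (y.Z (0, false)) (y.Z (0, false)) := ⟨1, (one_smul _ _).symm⟩
  have hw : MulA k (y.Z (0, false)) (y.w ^ 2) := ⟨0, by rw [D_sqA, zero_smul]⟩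
  exact (hz.mul hw).mul hs

private theorem D_ms (y : ChartPt κ K) : ∃ c : K, KaehlerDifferential.D k K (y.h (1, true)) =
    y.h (2, false) • KaehlerDifferential.D k K (y.h (2, true)) +
    y.h (2, true) • KaehlerDifferential.D k K (y.h (2, false)) +
    (y.h (3, false) • KaehlerDifferential.D k K (y.h (3, true)) +
    y.h (3, true) • KaehlerDifferential.D k K (y.h (3, false))) +
    c • KaehlerDifferential.D k K (y.Z (0, false)) := by
  obtain ⟨c, hc⟩ := mulA_S (k := k) y
  refine ⟨c, ?_⟩
  rw [y.eq_ms, map_add, map_add, hc, Derivation.leibniz, Derivation.leibniz]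

theorem det_moveA (y : ChartPt κ K) (hp : y.h (2, false) ≠ 0)
    (b : Module.Basis (Fin 5) K (Ω[K⁄k]))
    (hb : ∀ i, b i = KaehlerDifferential.D k K (y.coords i)) :
    b.det (fun i => KaehlerDifferential.D k K
      ((![y.Z (0, false) / y.h (2, false) ^ 2, 1 / y.h (2, false),
        y.h (1, true) / y.h (2, false), y.h (3, false) / y.h (2, false),
        y.h (3, true) / y.h (2, false)] : Fin 5 → K) i)) = (y.h (2, false) ^ 6)⁻¹ := by
  set p : K := y.h (2, false) with hpdef
  set g : K := p⁻¹ with hg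
  have h0 : b 0 = KaehlerDifferential.D k K (y.Z (0, false)) := hb 0
  have h1 : b 1 = KaehlerDifferential.D k K p := hb 1
  have h2 : b 2 = KaehlerDifferential.D k K (y.h (2, true)) := hb 2
  have h3 : b 3 = KaehlerDifferential.D k K (y.h (3, false)) := hb 3
  have h4 : b 4 = KaehlerDifferential.D k K (y.h (3, true)) := hb 4
  obtain ⟨c, hc⟩ := D_ms (k := k) y
  have e0 : KaehlerDifferential.D k K (y.Z (0, false) / p ^ 2) = g ^ 2 • b 0 := by
    rw [div_eq_mul_inv, ← inv_pow, D_sq_mulA, h0]
  have e1 : KaehlerDifferential.D k K (1 / p) = g ^ 2 • b 1 := by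
    rw [one_div, D_invA, h1]
  have e2 : KaehlerDifferential.D k K (y.h (1, true) / p) = (g * c) • b 0 +
      (g * y.h (2, true) + g ^ 2 * y.h (1, true)) • b 1 + (1 : K) • b 2 +
      (g * y.h (3, true)) • b 3 + (g * y.h (3, false)) • b 4 := by
    have hgp : g * p = 1 := inv_mul_cancel₀ hp
    rw [D_divA, hc, h0, h1, h2, h3, h4, ← hg, ← hgp]
    simp only [smul_add, smul_smul, add_smul]
    abel
  have e3 : KaehlerDifferential.D k K (y.h (3, false) / p) =
      (g ^ 2 * y.h (3, false)) • b 1 + g • b 3 := by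
    rw [D_divA, h1, h3, ← hg, add_comm]
  have e4 : KaehlerDifferential.D k K (y.h (3, true) / p) =
      (g ^ 2 * y.h (3, true)) • b 1 + g • b 4 := by
    rw [D_divA, h1, h4, ← hg, add_comm]
  have hM : b.toMatrix (fun i => KaehlerDifferential.D k K
      ((![y.Z (0, false) / p ^ 2, 1 / p, y.h (1, true) / p, y.h (3, false) / p,
        y.h (3, true) / p] : Fin 5 → K) i)) =
      !![g ^ 2, 0, g * c, 0, 0;
        0, g ^ 2, g * y.h (2, true) + g ^ 2 * y.h (1, true), g ^ 2 * y.h (3, false),
          g ^ 2 * y.h (3, true);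
        0, 0, 1, 0, 0;
        0, 0, g * y.h (3, true), g, 0;
        0, 0, g * y.h (3, false), 0, g] := by
    ext i j
    rw [Module.Basis.toMatrix_apply]
    fin_cases j
    · show b.repr (KaehlerDifferential.D k K (y.Z (0, false) / p ^ 2)) i = _
      rw [e0]
      fin_cases i <;> simp
    · show b.repr (KaehlerDifferential.D k K (1 / p)) i = _
      rw [e1]
      fin_cases i <;> simp
    · show b.repr (KaehlerDifferential.D k K (y.h (1, true) / p)) i = _
      rw [e2]
      fin_cases i <;> simp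
    · show b.repr (KaehlerDifferential.D k K (y.h (3, false) / p)) i = _
      rw [e3]
      fin_cases i <;> simp
    · show b.repr (KaehlerDifferential.D k K (y.h (3, true) / p)) i = _
      rw [e4]
      fin_cases i <;> simp
  rw [Module.Basis.det_apply, hM, ← Matrix.det_submatrix_equiv_self (Equiv.swap (2 : Fin 5) 4),
    Matrix.det_of_isUpperTriangular]
  · rw [Fin.prod_univ_five]
    have s0 : (Equiv.swap (2 : Fin 5) 4) 0 = 0 := by decide
    have s1 : (Equiv.swap (2 : Fin 5) 4) 1 = 1 := by decide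
    have s2 : (Equiv.swap (2 : Fin 5) 4) 2 = 4 := by decide
    have s3 : (Equiv.swap (2 : Fin 5) 4) 3 = 3 := by decide
    have s4 : (Equiv.swap (2 : Fin 5) 4) 4 = 2 := by decide
    simp only [Matrix.submatrix_apply, s0, s1, s2, s3, s4]
    simp
    rw [hg]
    field_simp
  · intro i j hij
    simp only [id] at hij
    have s0 : (Equiv.swap (2 : Fin 5) 4) 0 = 0 := by decide
    have s1 : (Equiv.swap (2 : Fin 5) 4) 1 = 1 := by decide
    have s2 : (Equiv.swap (2 : Fin 5) 4) 2 = 4 := by decide
    have s3 : (Equiv.swap (2 : Fin 5) 4) 3 = 3 := by decide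
    have s4 : (Equiv.swap (2 : Fin 5) 4) 4 = 2 := by decide
    revert hij
    fin_cases i <;> fin_cases j <;> simp [Matrix.submatrix_apply, s0, s1, s2, s3, s4]

end FQ
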