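import Mathlib
import Pool.Agent.Helper41.FQ.CP

/-!
MODULE FQ-OM-4 (Jacobian determinant of the move `a ↔ m`).

`y : ChartPt κ K`, characteristic 2, `b i = D (y.coords i)`, coordinates
`Z_a, h_p, h_(star p), h_q, h_(star q)`; `Λ_l = lam κ y.Z l`; `ρ = Λ_m / Λ_a`.
In characteristic 2 `D (x ^ 2) = 0`, `D (x² y) = x² D y`; `D Z_l = w² Λ_l² D Z_a` for all `l`
(from `eq_Z`; for `l = a` by `eq_w`), so every `D Λ_l` is a multiple of `D Z_a`.
The derivatives of the new coordinates, modulo multiples of `D Z_a` in the last four: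
  `D (Z_m ρ²) = ρ² D Z_m = ρ² w² Λ_m² D Z_a = ρ⁴ D Z_a` (as `w = Λ_a⁻¹`),
  `D ((Λ_m h_l + Λ_l) / Λ_a) = ρ D h_l + (multiple of D Z_a)` for `l = p, star p, q, star q`.
The matrix in the basis `b` is triangular with diagonal `ρ⁴, ρ, ρ, ρ, ρ`, determinant `ρ⁸`.
-/

open MvPolynomial

universe u v

namespace FQ

variable {k : Type u} [Field k] [CharP k 2] {κ : Idx → k} {K : Type v} [Field K] [Algebra k K]

private theorem two_eq_zero' (k : Type u) [Field k] [CharP k 2] {K : Type v} [Field K]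
    [Algebra k K] : (2 : K) = 0 := by
  have h : (2 : k) = 0 := by exact_mod_cast CharP.cast_eq_zero k 2
  have h' := congrArg (algebraMap k K) h
  rwa [map_ofNat, map_zero] at h'

private theorem D_sq' (x : K) : KaehlerDifferential.D k K (x ^ 2) = 0 := by
  rw [sq, Derivation.leibniz, ← two_smul K, two_eq_zero' k, zero_smul]

private theorem D_sq_mul' (x y : K) : KaehlerDifferential.D k K (y * x ^ 2) =
    x ^ 2 • KaehlerDifferential.D k K y := by
  rw [Derivation.leibniz, D_sq', smul_zero, zero_add]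

private theorem D_Z' (y : ChartPt κ K) (l : Idx) :
    KaehlerDifferential.D k K (y.Z l) =
      (y.w * lam κ y.Z l) ^ 2 • KaehlerDifferential.D k K (y.Z (0, false)) := by
  by_cases h : l = (0, false)
  · subst h
    rw [y.eq_w, one_pow, one_smul]
  · have h2 : y.Z l = y.h l ^ 2 + y.Z (0, false) * (y.w * lam κ y.Z l) ^ 2 := by
      rw [mul_pow, ← mul_assoc]
      exact y.eq_Z l h
    have h3 : KaehlerDifferential.D k K (y.Z l) = KaehlerDifferential.D k K
      (y.h l ^ 2 + y.Z (0, false) * (y.w * lam κ y.Z l) ^ 2) := congrArg _ h2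
    rw [h3, map_add, D_sq', zero_add, D_sq_mul']

/-- `D x` is a multiple of `D Z_a`. -/
private def Mul' (k : Type u) [Field k] {K : Type v} [Field K] [Algebra k K] (z x : K) : Prop :=
  ∃ c : K, KaehlerDifferential.D k K x = c • KaehlerDifferential.D k K z

omit [CharP k 2] in
private theorem Mul'.mul {z x x' : K} (h : Mul' k z x) (h' : Mul' k z x') :
    Mul' k z (x * x') := by
  obtain ⟨c, hc⟩ := h
  obtain ⟨c', hc'⟩ := h'
  refine ⟨x * c' + x' * c, ?_⟩
  rw [Derivation.leibniz, hc, hc', smul_smul, smul_smul, ← add_smul]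

omit [CharP k 2] in
private theorem Mul'.inv {z x : K} (h : Mul' k z x) : Mul' k z x⁻¹ := by
  by_cases hx : x = 0
  · subst hx
    exact ⟨0, by simp⟩
  obtain ⟨c, hc⟩ := h
  refine ⟨x⁻¹ ^ 2 * -c, ?_⟩
  have h1 : KaehlerDifferential.D k K (x * x⁻¹) = 0 := by
    rw [mul_inv_cancel₀ hx]
    exact Derivation.map_one_eq_zero _
  rw [Derivation.leibniz, hc] at h1
  have h2 : x • KaehlerDifferential.D k K x⁻¹ =
      -(x⁻¹ • c • KaehlerDifferential.D k K z) := eq_neg_of_add_eq_zero_left h1
  have h3 := congrArg (fun u => x⁻¹ • u) h2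
  simp only [smul_smul, inv_mul_cancel₀ hx, one_smul, smul_neg] at h3
  rw [h3, ← neg_smul]
  congr 1
  ring

private theorem mul'_lam (y : ChartPt κ K) (l : Idx) :
    Mul' k (y.Z (0, false)) (lam κ y.Z l) := by
  refine Mul'.mul ⟨0, ?_⟩ ⟨_, D_Z' y (star l)⟩
  rw [zero_smul]
  exact Derivation.map_algebraMap _ _

private theorem exists_new (y : ChartPt κ K) (h : K) (l : Idx) : ∃ c : K,
    KaehlerDifferential.D k K ((lam κ y.Z (1, false) * h + lam κ y.Z l) / lam κ y.Z (0, false)) =
      (lam κ y.Z (1, false) / lam κ y.Z (0, false)) • KaehlerDifferential.D k K h +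
        c • KaehlerDifferential.D k K (y.Z (0, false)) := by
  have e : (lam κ y.Z (1, false) * h + lam κ y.Z l) / lam κ y.Z (0, false) =
      (lam κ y.Z (1, false) * (lam κ y.Z (0, false))⁻¹) * h +
        lam κ y.Z l * (lam κ y.Z (0, false))⁻¹ := by
    rw [div_eq_mul_inv]; ring
  obtain ⟨c1, h1⟩ := (mul'_lam y (1, false)).mul (mul'_lam y (0, false)).inv
  obtain ⟨c2, h2⟩ := (mul'_lam y l).mul (mul'_lam y (0, false)).inv
  refine ⟨h * c1 + c2, ?_⟩
  rw [e, map_add, h2, Derivation.leibniz, h1, smul_smul, add_assoc, ← add_smul, div_eq_mul_inv]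

theorem det_moveB (y : ChartPt κ K)
    (b : Module.Basis (Fin 5) K (Ω[K⁄k]))
    (hb : ∀ i, b i = KaehlerDifferential.D k K (y.coords i)) :
    b.det (fun i => KaehlerDifferential.D k K
      ((![y.Z (1, false) * (lam κ y.Z (1, false) / lam κ y.Z (0, false)) ^ 2,
        (lam κ y.Z (1, false) * y.h (2, false) + lam κ y.Z (2, false)) / lam κ y.Z (0, false),
        (lam κ y.Z (1, false) * y.h (2, true) + lam κ y.Z (2, true)) / lam κ y.Z (0, false),
        (lam κ y.Z (1, false) * y.h (3, false) + lam κ y.Z (3, false)) / lam κ y.Z (0, false),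
        (lam κ y.Z (1, false) * y.h (3, true) + lam κ y.Z (3, true)) /
          lam κ y.Z (0, false)] : Fin 5 → K) i)) =
      (lam κ y.Z (1, false) / lam κ y.Z (0, false)) ^ 8 := by
  set ρ : K := lam κ y.Z (1, false) / lam κ y.Z (0, false) with hρ
  have h0 : b 0 = KaehlerDifferential.D k K (y.Z (0, false)) := hb 0
  have h1 : b 1 = KaehlerDifferential.D k K (y.h (2, false)) := hb 1
  have h2 : b 2 = KaehlerDifferential.D k K (y.h (2, true)) := hb 2
  have h3 : b 3 = KaehlerDifferential.D k K (y.h (3, false)) := hb 3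
  have h4 : b 4 = KaehlerDifferential.D k K (y.h (3, true)) := hb 4
  obtain ⟨c1, e1⟩ := exists_new (k := k) y (y.h (2, false)) (2, false)
  obtain ⟨c2, e2⟩ := exists_new (k := k) y (y.h (2, true)) (2, true)
  obtain ⟨c3, e3⟩ := exists_new (k := k) y (y.h (3, false)) (3, false)
  obtain ⟨c4, e4⟩ := exists_new (k := k) y (y.h (3, true)) (3, true)
  rw [← h0, ← h1, ← hρ] at e1
  rw [← h0, ← h2, ← hρ] at e2
  rw [← h0, ← h3, ← hρ] at e3
  rw [← h0, ← h4, ← hρ] at e4
  have ha : lam κ y.Z (0, false) ≠ 0 := right_ne_zero_of_mul_eq_one y.eq_w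
  have hw : y.w = (lam κ y.Z (0, false))⁻¹ := eq_inv_of_mul_eq_one_left y.eq_w
  have e0 : KaehlerDifferential.D k K (y.Z (1, false) * ρ ^ 2) = ρ ^ 4 • b 0 := by
    rw [D_sq_mul', D_Z', ← h0, smul_smul]
    congr 1
    rw [hρ, hw]
    ring
  have hM : b.toMatrix (fun i => KaehlerDifferential.D k K
      ((![y.Z (1, false) * ρ ^ 2,
        (lam κ y.Z (1, false) * y.h (2, false) + lam κ y.Z (2, false)) / lam κ y.Z (0, false),
        (lam κ y.Z (1, false) * y.h (2, true) + lam κ y.Z (2, true)) / lam κ y.Z (0, false),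
        (lam κ y.Z (1, false) * y.h (3, false) + lam κ y.Z (3, false)) / lam κ y.Z (0, false),
        (lam κ y.Z (1, false) * y.h (3, true) + lam κ y.Z (3, true)) /
          lam κ y.Z (0, false)] : Fin 5 → K) i)) =
      !![ρ ^ 4, c1, c2, c3, c4; 0, ρ, 0, 0, 0; 0, 0, ρ, 0, 0; 0, 0, 0, ρ, 0; 0, 0, 0, 0, ρ] := by
    ext i j
    rw [Module.Basis.toMatrix_apply]
    fin_cases j
    · show b.repr (KaehlerDifferential.D k K (y.Z (1, false) * ρ ^ 2)) i = _
      rw [e0]
      fin_cases i <;> simp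
    · show b.repr (KaehlerDifferential.D k K ((lam κ y.Z (1, false) * y.h (2, false) +
        lam κ y.Z (2, false)) / lam κ y.Z (0, false))) i = _
      rw [e1]
      fin_cases i <;> simp
    · show b.repr (KaehlerDifferential.D k K ((lam κ y.Z (1, false) * y.h (2, true) +
        lam κ y.Z (2, true)) / lam κ y.Z (0, false))) i = _
      rw [e2]
      fin_cases i <;> simp
    · show b.repr (KaehlerDifferential.D k K ((lam κ y.Z (1, false) * y.h (3, false) +
        lam κ y.Z (3, false)) / lam κ y.Z (0, false))) i = _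
      rw [e3]
      fin_cases i <;> simp
    · show b.repr (KaehlerDifferential.D k K ((lam κ y.Z (1, false) * y.h (3, true) +
        lam κ y.Z (3, true)) / lam κ y.Z (0, false))) i = _
      rw [e4]
      fin_cases i <;> simp
  rw [Module.Basis.det_apply, hM, Matrix.det_of_isUpperTriangular]
  · simp [Fin.prod_univ_five]
    ring
  · intro i j hij
    simp only [id] at hij
    revert hij
    fin_cases i <;> fin_cases j <;> simp

end FQ
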