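import Mathlib
import Pool.Agent.Helper41.FQ.CP

/-!
MODULE FQ-OM-5 (the moves which only permute the coordinates; comparison of two bases).

`det_moveC`, `det_moveD`: `b.det` is alternating; a permutation of its arguments changes it by a
sign, and signs are `1` in characteristic 2 (`b.det b = 1`, `Module.Basis.det_self`;
`AlternatingMap.map_perm`).
`det_compare`: for two bases `b, b'` of the same module, `b.det = (b.det b') • b'.det`
(`AlternatingMap.eq_smul_basis_det`).
-/

open MvPolynomial

universe u v

namespace FQ

variable {k : Type u} [Field k] [CharP k 2] {κ : Idx → k} {K : Type v} [Field K] [Algebra k K]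

private theorem det_perm (b : Module.Basis (Fin 5) K (Ω[K⁄k])) (σ : Equiv.Perm (Fin 5))
    (c d : Fin 5 → K) (hb : ∀ i, b i = KaehlerDifferential.D k K (c i))
    (hd : ∀ i, d i = c (σ i)) : b.det (fun i => KaehlerDifferential.D k K (d i)) = 1 := by
  have : CharP K 2 := charP_of_injective_algebraMap (algebraMap k K).injective 2
  have h1 : (fun i => KaehlerDifferential.D k K (d i)) = (b : Fin 5 → Ω[K⁄k]) ∘ σ := by
    funext i
    rw [Function.comp_apply, hb, hd]
  rw [h1, AlternatingMap.map_perm, Module.Basis.det_self]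
  rcases Int.units_eq_one_or (Equiv.Perm.sign σ) with h | h
  · rw [h, one_smul]
  · rw [h, Units.neg_smul, one_smul, CharTwo.neg_eq]

theorem det_moveC (y : ChartPt κ K) (b : Module.Basis (Fin 5) K (Ω[K⁄k]))
    (hb : ∀ i, b i = KaehlerDifferential.D k K (y.coords i)) :
    b.det (fun i => KaehlerDifferential.D k K
      ((![y.Z (0, false), y.h (3, false), y.h (3, true), y.h (2, false),
        y.h (2, true)] : Fin 5 → K) i)) = 1 := by
  refine det_perm b (Equiv.swap 1 3 * Equiv.swap 2 4) y.coords _ hb ?_
  intro i
  fin_cases i <;> rfl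

theorem det_moveD (y : ChartPt κ K) (b : Module.Basis (Fin 5) K (Ω[K⁄k]))
    (hb : ∀ i, b i = KaehlerDifferential.D k K (y.coords i)) :
    b.det (fun i => KaehlerDifferential.D k K
      ((![y.Z (0, false), y.h (2, false), y.h (2, true), y.h (3, true),
        y.h (3, false)] : Fin 5 → K) i)) = 1 := by
  refine det_perm b (Equiv.swap 3 4) y.coords _ hb ?_
  intro i
  fin_cases i <;> rfl

omit [CharP k 2] in
theorem det_compare {n : ℕ} (b b' : Module.Basis (Fin n) K (Ω[K⁄k]))
    (v : Fin n → Ω[K⁄k]) : b.det v = b.det b' * b'.det v := by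
  have h := AlternatingMap.eq_smul_basis_det b' b.det
  conv_lhs => rw [h]
  rfl

end FQ
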