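import Mathlib
import Pool.Agent.Helper41.FQ.M.OmBasis
import Pool.Agent.Helper41.FQ.M.OmDet
import Pool.Agent.Helper41.FQ.M.OmDetA
import Pool.Agent.Helper41.FQ.M.OmDetB
import Pool.Agent.Helper41.FQ.M.OmDetC
import Pool.Agent.Helper41.FQ.M.Inj
import Pool.Agent.Helper41.FQ.M.Moves

/-!
MODULE FQ-OM-6 (the eight multiderivations of degree 5 of the function field).

Let `y w : ChartPt (labκ κ w) K` be the image of the universal point `ChartRing.pt` under `φ w`
(define `ChartPt.map`), so `ev` maps the coordinates of `y w` to those of `(x.lab w).chartPt`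
(`hφ`, `ChartPt.lift_mk`, `ChartPt.aeval_pH`, ...). `ev` is injective (fields), hence `φ w` is
injective (`GP.lift_injective`), and the relations of Moves.lean between `(x.lab (i :: w)).chartPt`
and `(x.lab w).chartPt` hold between `y (i :: w)` and `y w` in `K`.
Let `b w` be the basis of `exists_omBasis (φ w)`. Put `c w l = (y w).Z l * (lam (y w).Z a) ^ 2`.
CLAIM: for all `w, i, l`: `c w l • (b w).det = c (i :: w) (mv i l) • (b (i :: w)).det`.
Indeed by `det_compare` this says `c w l * (b w).det (b (i :: w)) = c (i :: w) (mv i l)`, and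
`b (i :: w) j = D ((y (i :: w)).coords j)` is, by the Moves, the vector of det_moveA (i = 1),
det_moveB (i = 0), det_moveC (i = 2), det_moveD (i = 3). Check:
 i = 1: `c w l / h_p⁶ = (Z_l / h_p²) (Λ_a / h_p²)²`. OK.
 i = 0: `Z_l Λ_a² (Λ_m/Λ_a)⁸ = Z_l (Λ_m/Λ_a)² (Λ_m (Λ_m/Λ_a)²)²`. OK (slot `a` of `i :: w` is slot
 `m` of `w`, and its normalised `Λ` is `Λ_m (Λ_m/Λ_a)²`).
 i = 2, 3: equal.
So `σ c := (c [] c) • ofBasis (b [])` (for `c : Idx`, with `lab [] c = c`) satisfies, by induction on
`w`: `σ (lab w l) = c w l • ofBasis (b w)` as functions (`lab (i :: w) l = lab w (mv i l)`,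
`mv_mv`). The two properties: for `g : Fin 5 → ChartRing`, `D (φ w (g j))` is a combination of
the `b w i` with coefficients in the image of `φ w` (exists_omBasis), so
`(b w).det (D (φ w (g ·)))` is in the image of `φ w` (it is the determinant of the matrix of the
coefficients), and `r := that * Λ_a²`. For the second: `g = (ChartRing.pt _).coords`, the value of
the determinant is `1`, so `σ (lab w l) (φ w ∘ g) = Z_l Λ_a²` and `r = w²` (`w Λ_a = 1`).
-/

open MvPolynomial

universe u v

namespace FQ

variable {k : Type u} [Field k] [CharP k 2] {κ : Idx → k} {K L : Type v} [Field K] [Algebra k K]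
  [Field L] [Algebra k L]

/-- The image of the universal point. -/
private noncomputable def ymap {κ : Idx → k} {K : Type v} [Field K] [Algebra k K]
    (f : ChartRing κ →ₐ[k] K) : ChartPt κ K where
  Z := fun l => f ((ChartRing.pt κ).Z l)
  w := f (ChartRing.pt κ).w
  h := fun l => f ((ChartRing.pt κ).h l)
  h_a := by rw [(ChartRing.pt κ).h_a, map_zero]
  h_m := by rw [(ChartRing.pt κ).h_m, map_one]
  eq_ms := by
    have hl : ∀ l, lam κ (fun l => f ((ChartRing.pt κ).Z l)) l =
      f (lam κ (ChartRing.pt κ).Z l) := fun l => by rw [lam, lam, map_mul, AlgHom.commutes]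
    simp only [hl, ← map_mul, ← map_pow, ← map_add, ← map_sum]
    exact congrArg f (ChartRing.pt κ).eq_ms
  eq_as := by
    have hl : ∀ l, lam κ (fun l => f ((ChartRing.pt κ).Z l)) l =
      f (lam κ (ChartRing.pt κ).Z l) := fun l => by rw [lam, lam, map_mul, AlgHom.commutes]
    simp only [hl, ← map_mul, ← map_add]
    exact congrArg f (ChartRing.pt κ).eq_as
  eq_Z := by
    intro l h
    have hl : ∀ l, lam κ (fun l => f ((ChartRing.pt κ).Z l)) l =
      f (lam κ (ChartRing.pt κ).Z l) := fun l => by rw [lam, lam, map_mul, AlgHom.commutes]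
    simp only [hl, ← map_mul, ← map_pow, ← map_add]
    exact congrArg f ((ChartRing.pt κ).eq_Z l h)
  eq_w := by
    have hl : ∀ l, lam κ (fun l => f ((ChartRing.pt κ).Z l)) l =
      f (lam κ (ChartRing.pt κ).Z l) := fun l => by rw [lam, lam, map_mul, AlgHom.commutes]
    rw [hl, ← map_mul, (ChartRing.pt κ).eq_w, map_one]

omit [CharP k 2] in
private theorem ymap_lam (f : ChartRing κ →ₐ[k] K) (l : Idx) :
    lam κ (ymap f).Z l = f (lam κ (ChartRing.pt κ).Z l) := by
  show lam κ (fun l => f ((ChartRing.pt κ).Z l)) l = _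
  rw [lam, lam, map_mul, AlgHom.commutes]

omit [CharP k 2] in
private theorem ymap_coords (f : ChartRing κ →ₐ[k] K) (i : Fin 5) :
    (ymap f).coords i = f ((ChartRing.pt κ).coords i) := by
  fin_cases i <;> rfl

theorem exists_multiDer (x : GP κ L) (ev : K →ₐ[k] L)
    (φ : ∀ w : List (Fin 4), ChartRing (labκ κ w) →ₐ[k] K)
    (hφ : ∀ w r, ev (φ w r) = (x.lab w).chartPt.lift r)
    (hfrac : ∀ w (z : K), ∃ r s, φ w s ≠ 0 ∧ z * φ w s = φ w r) :
    ∃ σ : Idx → MultiDer (algebraMap k K) 5, ∀ (w : List (Fin 4)) (l : Idx),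
      (∀ g : Fin 5 → ChartRing (labκ κ w), ∃ r, (σ (lab w l)).toFun (fun i => φ w (g i)) =
        φ w ((ChartRing.pt (labκ κ w)).Z l) * φ w r) ∧
      (∃ (g : Fin 5 → ChartRing (labκ κ w)) (r : _), φ w ((ChartRing.pt (labκ κ w)).Z l) =
        (σ (lab w l)).toFun (fun i => φ w (g i)) * φ w r) := by
  have hev : Function.Injective ev := ev.toRingHom.injective
  have hinj : ∀ w, Function.Injective (φ w) := by
    intro w r s hrs
    refine (x.lab w).lift_injective ?_
    rw [← hφ, ← hφ, hrs]
  have hb : ∀ w, ∃ b : Module.Basis (Fin 5) K (Ω[K⁄k]),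
      (∀ i, b i = KaehlerDifferential.D k K (φ w ((ChartRing.pt (labκ κ w)).coords i))) ∧
      ∀ r : ChartRing (labκ κ w), ∃ c : Fin 5 → ChartRing (labκ κ w),
        KaehlerDifferential.D k K (φ w r) = ∑ i, φ w (c i) • b i :=
    fun w => exists_omBasis (φ w) (hinj w) (hfrac w)
  choose b hb1 hb2 using hb
  set y : ∀ w, ChartPt (labκ κ w) K := fun w => ymap (φ w) with hy
  have hby : ∀ w i, b w i = KaehlerDifferential.D k K ((y w).coords i) := by
    intro w i
    rw [hb1, hy, ymap_coords]
  -- the images of the coordinates of `y w` in `L`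
  have hZ : ∀ w l, ev ((y w).Z l) = (x.lab w).chartPt.Z l := by
    intro w l
    show ev (φ w (ChartRing.mk _ (X (Sum.inl l)))) = _
    rw [hφ, ChartPt.lift_mk, aeval_X]
    rfl
  have hh : ∀ w l, ev ((y w).h l) = (x.lab w).chartPt.h l := by
    intro w l
    show ev (φ w (ChartRing.mk _ (pH _ l))) = _
    rw [hφ, ChartPt.lift_mk, ChartPt.aeval_pH]
  have hlam : ∀ w l, ev (lam (labκ κ w) (y w).Z l) = lam (labκ κ w) (x.lab w).chartPt.Z l := by
    intro w l
    rw [lam, lam, map_mul, AlgHom.commutes, hZ]
  -- non vanishing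
  have hlam0 : ∀ w l, lam (labκ κ w) (y w).Z l ≠ 0 := by
    intro w l h
    apply (x.lab w).lamZ_ne l
    rw [← hlam, h, map_zero]
  have hh0 : ∀ w, (y w).h (2, false) ≠ 0 := by
    intro w h
    apply (x.lab w).h_ne (2, false) (by decide) (by decide)
    rw [← hh, h, map_zero]
  -- the moves
  have hm0Z : ∀ w l, (y (0 :: w)).Z l = (y w).Z (FQ.mv 0 l) *
      (lam (labκ κ w) (y w).Z (1, false) / lam (labκ κ w) (y w).Z (0, false)) ^ 2 := by
    intro w l
    apply hev
    rw [map_mul, map_pow, map_div₀, hZ, hZ, hlam, hlam]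
    exact (x.lab w).mv0_Z l
  have hm0h : ∀ w l, (y (0 :: w)).h l =
      (lam (labκ κ w) (y w).Z (1, false) * (y w).h (FQ.mv 0 l) +
        lam (labκ κ w) (y w).Z (FQ.mv 0 l)) / lam (labκ κ w) (y w).Z (0, false) := by
    intro w l
    apply hev
    rw [map_div₀, map_add, map_mul, hh, hh, hlam, hlam, hlam]
    exact (x.lab w).mv0_h l
  have hm1Z : ∀ w l, (y (1 :: w)).Z l = (y w).Z (FQ.mv 1 l) / (y w).h (2, false) ^ 2 := by
    intro w l
    apply hev
    rw [map_div₀, map_pow, hZ, hZ, hh]
    exact (x.lab w).mv1_Z l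
  have hm1h : ∀ w l, (y (1 :: w)).h l = (y w).h (FQ.mv 1 l) / (y w).h (2, false) := by
    intro w l
    apply hev
    rw [map_div₀, hh, hh, hh]
    exact (x.lab w).mv1_h l
  have hm2Z : ∀ w l, (y (2 :: w)).Z l = (y w).Z (FQ.mv 2 l) := by
    intro w l
    apply hev
    rw [hZ, hZ]
    exact (x.lab w).mv2_Z l
  have hm2h : ∀ w l, (y (2 :: w)).h l = (y w).h (FQ.mv 2 l) := by
    intro w l
    apply hev
    rw [hh, hh]
    exact (x.lab w).mv2_h l
  have hm3Z : ∀ w l, (y (3 :: w)).Z l = (y w).Z (FQ.mv 3 l) := by
    intro w l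
    apply hev
    rw [hZ, hZ]
    exact (x.lab w).mv3_Z l
  have hm3h : ∀ w l, (y (3 :: w)).h l = (y w).h (FQ.mv 3 l) := by
    intro w l
    apply hev
    rw [hh, hh]
    exact (x.lab w).mv3_h l
  -- the determinants
  set c : List (Fin 4) → Idx → K := fun w l =>
    (y w).Z l * (lam (labκ κ w) (y w).Z (0, false)) ^ 2 with hc
  have hdet : ∀ w (i : Fin 4) l, c w l * (b w).det (b (i :: w)) = c (i :: w) (FQ.mv i l) := by
    intro w i l
    have hfun : (b (i :: w) : Fin 5 → Ω[K⁄k]) =
        fun j => KaehlerDifferential.D k K ((y (i :: w)).coords j) := by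
      funext j
      rw [hby]
    rw [hfun]
    have hlam' : lam (labκ κ (i :: w)) (y (i :: w)).Z (0, false) =
        algebraMap k K (labκ κ w (FQ.mv i (0, true))) * (y (i :: w)).Z (0, true) := rfl
    fin_cases i
    · have h1 : (fun j => KaehlerDifferential.D k K ((y (0 :: w)).coords j)) =
        (fun j => KaehlerDifferential.D k K
          ((![(y w).Z (1, false) * (lam (labκ κ w) (y w).Z (1, false) /
                lam (labκ κ w) (y w).Z (0, false)) ^ 2,
            (lam (labκ κ w) (y w).Z (1, false) * (y w).h (2, false) +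
              lam (labκ κ w) (y w).Z (2, false)) / lam (labκ κ w) (y w).Z (0, false),
            (lam (labκ κ w) (y w).Z (1, false) * (y w).h (2, true) +
              lam (labκ κ w) (y w).Z (2, true)) / lam (labκ κ w) (y w).Z (0, false),
            (lam (labκ κ w) (y w).Z (1, false) * (y w).h (3, false) +
              lam (labκ κ w) (y w).Z (3, false)) / lam (labκ κ w) (y w).Z (0, false),
            (lam (labκ κ w) (y w).Z (1, false) * (y w).h (3, true) +
              lam (labκ κ w) (y w).Z (3, true)) /
              lam (labκ κ w) (y w).Z (0, false)] : Fin 5 → K) j)) := by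
        funext j
        congr 1
        fin_cases j
        · exact hm0Z w (0, false)
        · exact hm0h w (2, false)
        · exact hm0h w (2, true)
        · exact hm0h w (3, false)
        · exact hm0h w (3, true)
      have h2 := det_moveB (y w) (b w) (hby w)
      rw [← h1] at h2
      refine (congrArg (c w l * ·) h2).trans ?_
      show (y w).Z l * (lam (labκ κ w) (y w).Z (0, false)) ^ 2 * _ =
        (y (0 :: w)).Z (FQ.mv 0 l) * (lam (labκ κ (0 :: w)) (y (0 :: w)).Z (0, false)) ^ 2
      have h3 : lam (labκ κ (0 :: w)) (y (0 :: w)).Z (0, false) =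
          lam (labκ κ w) (y w).Z (1, false) *
          (lam (labκ κ w) (y w).Z (1, false) / lam (labκ κ w) (y w).Z (0, false)) ^ 2 := by
        have : lam (labκ κ (0 :: w)) (y (0 :: w)).Z (0, false) =
          algebraMap k K (labκ κ w (1, true)) * (y (0 :: w)).Z (0, true) := rfl
        rw [this, hm0Z, ← mul_assoc]
        rfl
      rw [h3, hm0Z, mv_mv]
      have h4 := hlam0 w (0, false)
      field_simp
    · have h1 : (fun j => KaehlerDifferential.D k K ((y (1 :: w)).coords j)) =
        (fun j => KaehlerDifferential.D k K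
          ((![(y w).Z (0, false) / (y w).h (2, false) ^ 2, 1 / (y w).h (2, false),
            (y w).h (1, true) / (y w).h (2, false), (y w).h (3, false) / (y w).h (2, false),
            (y w).h (3, true) / (y w).h (2, false)] : Fin 5 → K) j)) := by
        funext j
        congr 1
        fin_cases j
        · exact hm1Z w (0, false)
        · refine (hm1h w (2, false)).trans ?_
          show (y w).h (1, false) / _ = _
          rw [(y w).h_m]
          rfl
        · exact hm1h w (2, true)
        · exact hm1h w (3, false)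
        · exact hm1h w (3, true)
      have h2 := det_moveA (y w) (hh0 w) (b w) (hby w)
      rw [← h1] at h2
      refine (congrArg (c w l * ·) h2).trans ?_
      show (y w).Z l * (lam (labκ κ w) (y w).Z (0, false)) ^ 2 * _ =
        (y (1 :: w)).Z (FQ.mv 1 l) * (lam (labκ κ (1 :: w)) (y (1 :: w)).Z (0, false)) ^ 2
      have h3 : lam (labκ κ (1 :: w)) (y (1 :: w)).Z (0, false) =
          lam (labκ κ w) (y w).Z (0, false) / (y w).h (2, false) ^ 2 := by
        have : lam (labκ κ (1 :: w)) (y (1 :: w)).Z (0, false) =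
          algebraMap k K (labκ κ w (0, true)) * (y (1 :: w)).Z (0, true) := rfl
        rw [this, hm1Z, ← mul_div_assoc]
        rfl
      rw [h3, hm1Z, mv_mv]
      have h4 := hh0 w
      field_simp
    · have h1 : (fun j => KaehlerDifferential.D k K ((y (2 :: w)).coords j)) =
        (fun j => KaehlerDifferential.D k K
          ((![(y w).Z (0, false), (y w).h (3, false), (y w).h (3, true), (y w).h (2, false),
            (y w).h (2, true)] : Fin 5 → K) j)) := by
        funext j
        congr 1
        fin_cases j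
        · exact hm2Z w (0, false)
        · exact hm2h w (2, false)
        · exact hm2h w (2, true)
        · exact hm2h w (3, false)
        · exact hm2h w (3, true)
      have h2 := det_moveC (y w) (b w) (hby w)
      rw [← h1] at h2
      refine (congrArg (c w l * ·) h2).trans ?_
      show (y w).Z l * (lam (labκ κ w) (y w).Z (0, false)) ^ 2 * _ =
        (y (2 :: w)).Z (FQ.mv 2 l) * (lam (labκ κ (2 :: w)) (y (2 :: w)).Z (0, false)) ^ 2
      have h3 : lam (labκ κ (2 :: w)) (y (2 :: w)).Z (0, false) =
          lam (labκ κ w) (y w).Z (0, false) := by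
        have : lam (labκ κ (2 :: w)) (y (2 :: w)).Z (0, false) =
          algebraMap k K (labκ κ w (0, true)) * (y (2 :: w)).Z (0, true) := rfl
        rw [this, hm2Z]
        rfl
      rw [h3, hm2Z, mv_mv, mul_one]
    · have h1 : (fun j => KaehlerDifferential.D k K ((y (3 :: w)).coords j)) =
        (fun j => KaehlerDifferential.D k K
          ((![(y w).Z (0, false), (y w).h (2, false), (y w).h (2, true), (y w).h (3, true),
            (y w).h (3, false)] : Fin 5 → K) j)) := by
        funext j
        congr 1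
        fin_cases j
        · exact hm3Z w (0, false)
        · exact hm3h w (2, false)
        · exact hm3h w (2, true)
        · exact hm3h w (3, false)
        · exact hm3h w (3, true)
      have h2 := det_moveD (y w) (b w) (hby w)
      rw [← h1] at h2
      refine (congrArg (c w l * ·) h2).trans ?_
      show (y w).Z l * (lam (labκ κ w) (y w).Z (0, false)) ^ 2 * _ =
        (y (3 :: w)).Z (FQ.mv 3 l) * (lam (labκ κ (3 :: w)) (y (3 :: w)).Z (0, false)) ^ 2
      have h3 : lam (labκ κ (3 :: w)) (y (3 :: w)).Z (0, false) =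
          lam (labκ κ w) (y w).Z (0, false) := by
        have : lam (labκ κ (3 :: w)) (y (3 :: w)).Z (0, false) =
          algebraMap k K (labκ κ w (0, true)) * (y (3 :: w)).Z (0, true) := rfl
        rw [this, hm3Z]
        rfl
      rw [h3, hm3Z, mv_mv, mul_one]
  refine ⟨fun l => MultiDer.smul (c [] l) (MultiDer.ofBasis (b [])), ?_⟩
  have hσ : ∀ (w : List (Fin 4)) (l : Idx) (g : Fin 5 → K),
      (MultiDer.smul (c [] (lab w l)) (MultiDer.ofBasis (b []))).toFun g =
        c w l * (b w).det fun i => KaehlerDifferential.D k K (g i) := by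
    intro w
    induction w with
    | nil => intro l g; rfl
    | cons i w ih =>
      intro l g
      show (MultiDer.smul (c [] (lab w (FQ.mv i l))) (MultiDer.ofBasis (b []))).toFun g = _
      rw [ih, det_compare (b w) (b (i :: w)), ← mul_assoc, hdet, mv_mv]
  intro w l
  constructor
  · intro g
    choose cf hcf using fun j => hb2 w (g j)
    have hdetg : ((b w).det fun i => KaehlerDifferential.D k K (φ w (g i))) =
        φ w (Matrix.det (Matrix.of fun i j => cf j i)) := by
      rw [Module.Basis.det_apply, AlgHom.map_det]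
      congr 1
      ext i j
      rw [Module.Basis.toMatrix_apply, hcf, map_sum]
      simp [Finsupp.single_apply]
    refine ⟨(lam (labκ κ w) (ChartRing.pt (labκ κ w)).Z (0, false)) ^ 2 *
      Matrix.det (Matrix.of fun i j => cf j i), ?_⟩
    show (MultiDer.smul (c [] (lab w l)) (MultiDer.ofBasis (b []))).toFun _ = _
    rw [hσ, hdetg, map_mul, map_pow, ← ymap_lam]
    show (y w).Z l * (lam (labκ κ w) (y w).Z (0, false)) ^ 2 * _ =
      (y w).Z l * ((lam (labκ κ w) (y w).Z (0, false)) ^ 2 * _)
    rw [mul_assoc]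
  · refine ⟨(ChartRing.pt (labκ κ w)).coords, (ChartRing.pt (labκ κ w)).w ^ 2, ?_⟩
    show _ = (MultiDer.smul (c [] (lab w l)) (MultiDer.ofBasis (b []))).toFun _ * _
    have h1 : ((b w).det fun i => KaehlerDifferential.D k K
        (φ w ((ChartRing.pt (labκ κ w)).coords i))) = 1 := by
      have : (fun i => KaehlerDifferential.D k K
        (φ w ((ChartRing.pt (labκ κ w)).coords i))) = (b w : Fin 5 → Ω[K⁄k]) := by
        funext i
        rw [hb1]
      rw [this, Module.Basis.det_self]
    rw [hσ, h1, mul_one]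
    show (y w).Z l = (y w).Z l * (lam (labκ κ w) (y w).Z (0, false)) ^ 2 *
      φ w ((ChartRing.pt (labκ κ w)).w ^ 2)
    have h2 : φ w ((ChartRing.pt (labκ κ w)).w ^ 2) = (y w).w ^ 2 := by
      rw [map_pow]
      rfl
    rw [h2]
    have h3 := (y w).eq_w
    linear_combination (-(y w).Z l * ((y w).w * lam (labκ κ w) (y w).Z (0, false) + 1)) * h3

end FQ
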