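import Mathlib
import Pool.Agent.Helper41.FQ.M.ChPhi
import Pool.Agent.Helper41.FQ.M.Cover
import Pool.Agent.Helper41.FQ.M.OmFinal

/-!
MODULE FQ-CH-8 (the anticanonical sheaf of `X` is ample).

Let `φ` be as in `exists_phi` and `σ : Idx → MultiDer (algebraMap k K) 5` as in `exists_multiDer`
(`K = M.X.functionField`, `algebraMap k K = scalK M.s` by definition, `ev = M.evA`).
For a point `p` take `b, i` with `e i = ζ_b⁶`, `p ∈ W i` (`GP.cover_ζ`), and `D = σ b`.
Regularity: on a chart `c`, write `b = lab c.w l` (`lab_surjective`); `D` maps tuples of functions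
on `c.U M` to `Z_l * (functions)` (first property, second property of `exists_phi`). So `D` gives
`D.toSection _ : AnticanonicalSection M.s 5 1` (`MultiDer.toSection`, Pool/Agent/FQ/Field.lean).
Its locus is `W i`: it suffices to compare on each chart `c` (they cover `X`). Apply
`MultiDer.locus_iff` with `W = c.U M`, `h` the function on `c.U M` with germ `φ c.w Z_l`,
`D' = (germ h)⁻¹ • D` (`MultiDer.smul`; `germ h ≠ 0`: its value in `L` is `(x.lab c.w).cZ l ≠ 0`):
`D'` is regular on `c.U M` (first property), and some value is a unit (second property: from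
`Z_l = D(g) r` we get `1 = D'(g) r` with `D'(g)`, `r` functions on `c.U M`).
So on `c.U M` the locus is `X.basicOpen h`. And `X.basicOpen h = W i ∩ c.U M`: the function `h` has
value `Z_l = ζ_b² / λ²`, `h³ = (ζ_b⁶ / gA) (gA / λ⁶)`, where `gA / λ⁶ = Z_(star a)³` is a unit on
`c.U M` and `ζ_b⁶ / gA = e i / e c.i` is a function on `W c.i` whose basic open set is
`W c.i ∩ W i` (`M.basic`). Finally `W i` is affine (`M.affine`).
-/

open CategoryTheory AlgebraicGeometry TopologicalSpace MvPolynomial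

universe u

namespace FQ

variable {k : Type u} [Field k] [CharP k 2] {κ : Idx → k} {L : Type u} [Field L] [Algebra k L]
  {N : ℕ} {e : Fin (N + 1) → L}

/-- the function `Z_l` of the chart `c` defines `W i ∩ U_c` in `U_c` if `e i = ζ_(lab w l)⁶`. -/
theorem ChartIdx.basicOpen_Z {x : GP κ L} (he : Set.range e = x.gens) (M : Model (k := k) e)
    (c : ChartIdx x e) (l : Idx) (i : Fin (N + 1)) (hi : e i = (x.lab c.w).ζ l ^ 6)
    (h : Γ(M.X, c.U M)) (hh : M.val (c.U M) h = (x.lab c.w).chartPt.Z l) :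
    M.X.basicOpen h = M.W i ⊓ c.U M := by
  obtain ⟨y, hy⟩ := (M.range c.i (e i / e c.i)).2 (Algebra.subset_adjoin ⟨i, rfl⟩)
  have hb := M.basic c.i i y hy
  obtain ⟨ρ, hρ, -⟩ := c.exists_equiv he M
  have hle : c.U M ≤ M.W c.i := inf_le_left
  -- the unit `Z_(star a)`
  have hZu : IsUnit ((ChartRing.pt (labκ κ c.w)).Z (0, true)) := by
    have h1 := (ChartRing.pt (labκ κ c.w)).eq_w
    have h2 : (ChartRing.pt (labκ κ c.w)).Z (0, true) *
        ((ChartRing.pt (labκ κ c.w)).w *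
          algebraMap k (ChartRing (labκ κ c.w)) (labκ κ c.w (0, true))) = 1 := by
      rw [← h1]
      show _ = (ChartRing.pt (labκ κ c.w)).w *
        (algebraMap k (ChartRing (labκ κ c.w)) (labκ κ c.w (0, true)) *
          (ChartRing.pt (labκ κ c.w)).Z (0, true))
      ring
    exact IsUnit.of_mul_eq_one _ h2
  have hu : IsUnit (ρ ((ChartRing.pt (labκ κ c.w)).Z (0, true))) := hZu.map ρ
  have hv : M.val (c.U M) (ρ ((ChartRing.pt (labκ κ c.w)).Z (0, true))) =
      (x.lab c.w).chartPt.Z (0, true) := by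
    rw [hρ]
    show (x.lab c.w).chartPt.lift (ChartRing.mk _ (X (Sum.inl (0, true)))) = _
    rw [ChartPt.lift_mk, aeval_X]
    rfl
  have key : h ^ 3 = res hle y * ρ ((ChartRing.pt (labκ κ c.w)).Z (0, true)) ^ 3 := by
    apply M.val_injective (c.U M)
    rw [map_pow, map_mul, map_pow, hh, hv, M.val_res hle]
    have hy' : M.val (M.W c.i) y = e i / e c.i := hy
    rw [hy', hi, c.hi]
    show ((x.lab c.w).ζ l ^ 2 / (x.lab c.w).toGenPt.lmb ^ 2) ^ 3 =
      (x.lab c.w).ζ l ^ 6 / (x.lab c.w).ζ (0, true) ^ 6 *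
        ((x.lab c.w).ζ (0, true) ^ 2 / (x.lab c.w).toGenPt.lmb ^ 2) ^ 3
    have h1 := (x.lab c.w).ζ_ne (0, true)
    have h2 := (x.lab c.w).lmb_ne
    field_simp
  have h3 : M.X.basicOpen (h ^ 3) = M.X.basicOpen h := M.X.basicOpen_pow h (by norm_num)
  rw [← h3, key, M.X.basicOpen_mul, M.X.basicOpen_of_isUnit (hu.pow 3)]
  have h4 : M.X.basicOpen (res hle y) = c.U M ⊓ M.X.basicOpen y :=
    M.X.basicOpen_res y (homOfLE hle).op
  rw [h4, hb]
  ext p
  simp only [Opens.coe_inf, Set.mem_inter_iff]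
  constructor
  · rintro ⟨⟨h1, h2, h3⟩, -⟩
    exact ⟨h3, h1⟩
  · rintro ⟨h1, h2⟩
    exact ⟨⟨h2, hle h2, h1⟩, h2⟩

theorem model_ample (x : GP κ L) (he : Set.range e = x.gens) (M : Model (k := k) e) :
    AnticanonicalIsAmple M.s 5 := by
  intro p
  obtain ⟨b, i, hi, hp⟩ := x.cover_ζ he M p
  obtain ⟨φ, h1, h2, h3⟩ := exists_phi x he M
  obtain ⟨σ, hσ⟩ := exists_multiDer x M.evA φ h1 h3
  let D : MultiDer (scalK M.s) 5 := σ b
  have hlab : ∀ c : ChartIdx x e, ∃ l, lab c.w l = b := fun c => lab_surjective c.w b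
  have hval : ∀ (c : ChartIdx x e) (l : Idx), M.ev (φ c.w ((ChartRing.pt (labκ κ c.w)).Z l)) =
      (x.lab c.w).chartPt.Z l := by
    intro c l
    have := h1 c.w ((ChartRing.pt (labκ κ c.w)).Z l)
    rw [M.evA_apply] at this
    rw [this]
    show (x.lab c.w).chartPt.lift (ChartRing.mk _ (X (Sum.inl l))) = _
    rw [ChartPt.lift_mk, aeval_X]
    rfl
  have hne : ∀ (c : ChartIdx x e) (l : Idx), φ c.w ((ChartRing.pt (labκ κ c.w)).Z l) ≠ 0 := by
    intro c l h0
    have := hval c l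
    rw [h0, map_zero] at this
    have h4 : (x.lab c.w).ζ l ^ 2 / (x.lab c.w).toGenPt.lmb ^ 2 ≠ 0 :=
      div_ne_zero (pow_ne_zero 2 ((x.lab c.w).ζ_ne l)) (pow_ne_zero 2 (x.lab c.w).lmb_ne)
    exact h4 this.symm
  -- the values of `D` on functions on a chart
  have hDv : ∀ (c : ChartIdx x e) (l : Idx), lab c.w l = b → ∀ g : Fin 5 → Γ(M.X, c.U M),
      ∃ y : Γ(M.X, c.U M), D.toFun (fun j => M.X.germToFunctionField (c.U M) (g j)) =
        φ c.w ((ChartRing.pt (labκ κ c.w)).Z l) * M.X.germToFunctionField (c.U M) y := by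
    intro c l hl g
    choose r hr using fun j => (h2 c (M.X.germToFunctionField (c.U M) (g j))).1 ⟨g j, rfl⟩
    obtain ⟨r', hr'⟩ := (hσ c.w l).1 r
    obtain ⟨y, hy⟩ := (h2 c (φ c.w r')).2 ⟨r', rfl⟩
    refine ⟨y, ?_⟩
    rw [hy, ← hr', hl]
    have : (fun j => M.X.germToFunctionField (c.U M) (g j)) = fun j => φ c.w (r j) :=
      funext fun j => (hr j).symm
    rw [this]
  have hreg : ∀ c : ChartIdx x e, D.RegularOn (c.U M) := by
    intro c g
    obtain ⟨l, hl⟩ := hlab c
    obtain ⟨y, hy⟩ := hDv c l hl g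
    obtain ⟨z, hz⟩ := (h2 c _).2 ⟨(ChartRing.pt (labκ κ c.w)).Z l, rfl⟩
    refine ⟨z * y, ?_⟩
    rw [map_mul, hz, hy]
  have haff : ∀ c : ChartIdx x e, IsAffineOpen (c.U M) := fun c => M.inter_affine c.i c.j
  have hD : ∀ q : M.X, ∃ (W : M.X.Opens) (_ : q ∈ W) (_ : Nonempty W),
      IsAffineOpen W ∧ D.RegularOn W := by
    intro q
    obtain ⟨c, hc⟩ := x.cover_chart he M q
    exact ⟨c.U M, hc, c.nonempty M, haff c, hreg c⟩
  have hloc : (D.toSection hD).locus = M.W i := by
    ext q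
    obtain ⟨c, hc⟩ := x.cover_chart he M q
    obtain ⟨l, hl⟩ := hlab c
    obtain ⟨h, hh⟩ := (h2 c _).2 ⟨(ChartRing.pt (labκ κ c.w)).Z l, rfl⟩
    have hh0 : M.X.germToFunctionField (c.U M) h ≠ 0 := by
      rw [hh]
      exact hne c l
    let D' : MultiDer (scalK M.s) 5 := MultiDer.smul (M.X.germToFunctionField (c.U M) h)⁻¹ D
    have hD'v : ∀ g : Fin 5 → Γ(M.X, c.U M), ∃ y : Γ(M.X, c.U M),
        M.X.germToFunctionField (c.U M) y =
          D'.toFun (fun j => M.X.germToFunctionField (c.U M) (g j)) := by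
      intro g
      obtain ⟨y, hy⟩ := hDv c l hl g
      refine ⟨y, ?_⟩
      show _ = (M.X.germToFunctionField (c.U M) h)⁻¹ * D.toFun _
      rw [hy, ← hh, ← mul_assoc, inv_mul_cancel₀ hh0, one_mul]
    have e1 := MultiDer.locus_iff D D' hD (c.U M) (haff c) h
      (fun g => by
        show _ = _ * ((M.X.germToFunctionField (c.U M) h)⁻¹ * D.toFun g)
        rw [← mul_assoc, mul_inv_cancel₀ hh0, one_mul])
      hD'v
      (by
        obtain ⟨g, r, hgr⟩ := (hσ c.w l).2
        choose g' hg' using fun j => (h2 c (φ c.w (g j))).2 ⟨g j, rfl⟩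
        obtain ⟨r', hr'⟩ := (h2 c (φ c.w r)).2 ⟨r, rfl⟩
        obtain ⟨y, hy⟩ := hD'v g'
        have hyr : y * r' = 1 := by
          apply M.X.germToFunctionField_injective (c.U M)
          rw [map_mul, hy, hr', map_one]
          show (M.X.germToFunctionField (c.U M) h)⁻¹ * D.toFun _ * _ = 1
          have : (fun j => M.X.germToFunctionField (c.U M) (g' j)) = fun j => φ c.w (g j) :=
            funext hg'
          rw [this, mul_assoc]
          have h5 : D.toFun (fun j => φ c.w (g j)) * φ c.w r =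
              φ c.w ((ChartRing.pt (labκ κ c.w)).Z l) := by
            rw [hgr, hl]
          rw [h5, ← hh, inv_mul_cancel₀ hh0]
        exact ⟨g', ⟨y, r', hyr, by rw [mul_comm]; exact hyr⟩, hy⟩)
      q hc
    have e2 := c.basicOpen_Z he M l i (by rw [hi, x.lab_ζ, hl]) h (by
      show M.ev (M.X.germToFunctionField (c.U M) h) = _
      rw [hh, hval])
    rw [e2] at e1
    constructor
    · intro hq
      exact (e1.1 hq).1
    · intro hq
      exact e1.2 ⟨hq, hc⟩
  refine ⟨1, one_pos, D.toSection hD, ?_, ?_⟩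
  · rw [hloc]
    exact hp
  · rw [hloc]
    exact M.affine i

end FQ
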