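import Mathlib
import Pool.Agent.Helper41.FQ.Std

/-!
MODULE FQ-CH-11 (good coefficients exist).

`k` is infinite (algebraically closed). Choose `d₀ ≠ 0`, then `d₁` outside the finite set of the
subset sums of `{d₀}` (that is `0, d₀`; characteristic 2: also `-d₀ = d₀`), then `d₂` outside the
set of the subset sums of `{d₀, d₁}`, then `d₃` outside the subset sums of `{d₀, d₁, d₂}`. Then no
nonempty subset sum of `d₀, …, d₃` vanishes (look at the largest index; `-x = x`). Put
`κ (i, false) = 1`, `κ (i, true) = d_i⁻¹`.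
-/

universe u

namespace FQ

private theorem exists_subsetSum_ne (k : Type u) [Field k] [Infinite k] (n : ℕ) :
    ∃ d : Fin n → k, ∀ I : Finset (Fin n), I.Nonempty → ∑ i ∈ I, d i ≠ 0 := by
  classical
  induction n with
  | zero =>
    refine ⟨fun _ => 0, fun I hI => ?_⟩
    obtain ⟨i, _⟩ := hI
    exact i.elim0
  | succ n ih =>
    obtain ⟨d, hd⟩ := ih
    obtain ⟨x, hx⟩ := Infinite.exists_notMem_finset
      ((Finset.univ : Finset (Finset (Fin n))).image (fun I => - ∑ i ∈ I, d i))
    refine ⟨Fin.cons x d, fun I hI => ?_⟩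
    have hsum : ∑ i ∈ I, (Fin.cons x d : Fin (n + 1) → k) i =
        (if (0 : Fin (n + 1)) ∈ I then x else 0) +
          ∑ i ∈ Finset.univ.filter (fun i : Fin n => i.succ ∈ I), d i := by
      rw [Finset.sum_filter, ← Finset.univ_inter I, ← Finset.sum_ite_mem, Fin.sum_univ_succ]
      simp only [Fin.cons_zero, Fin.cons_succ, Finset.univ_inter]
    rw [hsum]
    by_cases h0 : (0 : Fin (n + 1)) ∈ I
    · rw [if_pos h0]
      intro h
      apply hx
      rw [Finset.mem_image]
      exact ⟨_, Finset.mem_univ _, (eq_neg_of_add_eq_zero_left h).symm⟩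
    · rw [if_neg h0, zero_add]
      apply hd
      obtain ⟨i, hi⟩ := hI
      induction i using Fin.cases with
      | zero => exact absurd hi h0
      | succ j => exact ⟨j, by simp [hi]⟩

theorem exists_good (k : Type u) [Field k] [IsAlgClosed k] [CharP k 2] :
    ∃ κ : Idx → k, Good κ := by
  haveI : Infinite k := IsAlgClosed.instInfinite
  obtain ⟨d, hd⟩ := exists_subsetSum_ne k 4
  have hd0 : ∀ i, d i ≠ 0 := by
    intro i
    have := hd {i} (Finset.singleton_nonempty i)
    rwa [Finset.sum_singleton] at this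
  refine ⟨fun l => if l.2 = true then (d l.1)⁻¹ else 1, fun l => ?_, fun I hI => ?_⟩
  · dsimp only
    split_ifs
    · exact inv_ne_zero (hd0 _)
    · exact one_ne_zero
  · have h1 : ∑ i ∈ I, ((if ((i, false) : Idx).2 = true then (d i)⁻¹ else 1) *
        (if ((i, true) : Idx).2 = true then (d i)⁻¹ else 1))⁻¹ = ∑ i ∈ I, d i := by
      refine Finset.sum_congr rfl fun i _ => ?_
      simp
    exact fun h => hd I hI (h1.symm.trans h)

end FQ
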