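import Mathlib
import Pool.Agent.Helper41.FQ.M.ChPhi

/-!
MODULE FQ-CH-9 (the ratio `λ_c / λ_c'` is a function on `U_c ∩ U_c'`).

Let `y = x.lab c.w`, `y' = x.lab c'.w`, `λ = y.lmb`, `λ' = y'.lmb`; `a' = lab c'.w (0,false)`,
`m' = lab c'.w (1,false)`, so `λ' = x.m a' m' / x.Λ a'`. Choose `l, n` with
`a' = lab c.w l`, `m' = lab c.w n` (`lab_surjective`), so `λ' = y.m l n / y.Λ l` (`GP.lab_m`,
`GP.lab_Λ`). The functions on `U_c` with values `A = y.Λ l / λ²` (`= lam κ y.cZ l`) and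
`B = y.m l n / λ³` (`= h_l Λ_n + h_n Λ_l`, see ChAlg.lean) exist (values of elements of the chart
ring: `ChartIdx.exists_equiv`), and `λ / λ' = A / B = A B / B²`, where
`1 / B² = λ⁶ / m_(a',m')² = (λ⁶ / gA) (gA / m_(a',m')²)`, `gA = e c.i`, `λ⁶ / gA = 1 / Z_(star a)³`
is the value of a function on `U_c`, and `gA / m_(a',m')² = e c.i / e c'.j` (`c'.hj`) is the
value of a function on `W c.i ∩ W c'.j ⊇ U_c ∩ U_c'` (`Model.inter_range`).
Multiply the restrictions to `U_c ∩ U_c'` (`Model.val_res`). The second statement follows from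
the first by injectivity of `val`: for all `b = lab c.w l = lab c'.w l'`:
`Z'_(l') = ζ_b² / λ'² = (λ/λ')² ζ_b² / λ² = g² Z_l`.
-/

open CategoryTheory AlgebraicGeometry TopologicalSpace MvPolynomial

universe u

namespace FQ

variable {k : Type u} [Field k] [CharP k 2] {κ : Idx → k} {L : Type u} [Field L] [Algebra k L]
  {N : ℕ} {e : Fin (N + 1) → L}

instance ChartIdx.inter_nonempty {x : GP κ L} (M : Model (k := k) e) (c c' : ChartIdx x e) :
    Nonempty (c.U M ⊓ c'.U M : M.X.Opens) :=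
  ⟨⟨genericPoint M.X, generic_mem (c.U M), generic_mem (c'.U M)⟩⟩

omit [CharP k 2] in
/-- `m_(l,n) / λ³ = h_l Λ_n + h_n Λ_l`. -/
private theorem m_norm (y : GP κ L) (l n : Idx) :
    y.ch l * lam κ y.cZ n + y.ch n * lam κ y.cZ l =
      y.toGenPt.m l n / y.toGenPt.lmb ^ 3 := by
  rw [y.lam_cZ, y.lam_cZ, GP.ch, GP.ch]
  have h1 := y.lmb_ne
  have h2 := y.Λ_ne (0, false)
  have h3 := y.mam_ne
  rw [y.mam_eq]
  field_simp
  simp only [GenPt.m]
  linear_combination (y.ζ (0, false) * y.toGenPt.Λ l * y.toGenPt.Λ n) * y.two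

omit [CharP k 2] in
/-- The element of the chart ring giving the ratio. -/
private theorem exists_elt (y : GP κ L) (l n : Idx) (hm : y.toGenPt.m l n ≠ 0) :
    ∃ r : ChartRing κ, y.chartPt.lift r * (y.gA / y.toGenPt.m l n ^ 2) =
      y.toGenPt.lmb / (y.toGenPt.m l n / y.toGenPt.Λ l) := by
  refine ⟨ChartRing.mk κ (pLam κ l * (pH κ l * pLam κ n + pH κ n * pLam κ l) *
    (X (Sum.inr 0) * C (κ (0, true))) ^ 3), ?_⟩
  rw [ChartPt.lift_mk]
  simp only [map_mul, map_add, map_pow, ChartPt.aeval_pLam, ChartPt.aeval_pH, aeval_X, aeval_C]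
  have h1 := y.lmb_ne
  have h2 := y.Λ_ne l
  have h4 := y.Λ_ne (0, false)
  have e1 : y.chartPt.h l * lam κ y.chartPt.Z n + y.chartPt.h n * lam κ y.chartPt.Z l =
      y.toGenPt.m l n / y.toGenPt.lmb ^ 3 := m_norm y l n
  have e2 : lam κ y.chartPt.Z l = y.toGenPt.Λ l / y.toGenPt.lmb ^ 2 := y.lam_cZ l
  have e3 : y.chartPt.val (Sum.inr 0) = y.toGenPt.lmb ^ 2 / y.toGenPt.Λ (0, false) := rfl
  have e4 : y.toGenPt.Λ (0, false) = algebraMap k L (κ (0, true)) * y.ζ (0, true) ^ 2 := rfl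
  rw [e1, e2, e3, GP.gA]
  have h5 := y.ζ_ne (0, true)
  have h6 : algebraMap k L (κ (0, true)) ≠ 0 := by
    intro h
    rw [e4, h, zero_mul] at h4
    exact h4 rfl
  rw [e4]
  field_simp

theorem ChartIdx.exists_ratio {x : GP κ L} (he : Set.range e = x.gens) (M : Model (k := k) e)
    (c c' : ChartIdx x e) : ∃ g : Γ(M.X, c.U M ⊓ c'.U M),
      M.val _ g = (x.lab c.w).toGenPt.lmb / (x.lab c'.w).toGenPt.lmb := by
  obtain ⟨l, hl⟩ := lab_surjective c.w (lab c'.w (0, false))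
  obtain ⟨n, hn⟩ := lab_surjective c.w (lab c'.w (1, false))
  have hm : (x.lab c'.w).toGenPt.m (0, false) (1, false) = (x.lab c.w).toGenPt.m l n := by
    rw [x.lab_m, x.lab_m, hl, hn]
  have hΛ : (x.lab c'.w).toGenPt.Λ (0, false) = (x.lab c.w).toGenPt.Λ l := by
    rw [x.lab_Λ, x.lab_Λ, hl]
  have hm0 : (x.lab c.w).toGenPt.m l n ≠ 0 := hm ▸ (x.lab c'.w).mam_ne
  obtain ⟨r, hr⟩ := exists_elt (x.lab c.w) l n hm0
  obtain ⟨ρ, hρ, -⟩ := ChartIdx.exists_equiv he M c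
  have hne : ∀ i, e i ≠ 0 := fun i => (he ▸ Set.mem_range_self i : e i ∈ x.gens).1
  obtain ⟨t, ht⟩ := (M.inter_range hne c.i c'.j (e c.i / e c'.j)).2
    (Algebra.subset_adjoin (Or.inr rfl))
  have hle1 : c.U M ⊓ c'.U M ≤ c.U M := inf_le_left
  have hle2 : c.U M ⊓ c'.U M ≤ M.W c.i ⊓ M.W c'.j :=
    inf_le_inf inf_le_left inf_le_right
  refine ⟨res hle1 (ρ r) * res hle2 t, ?_⟩
  rw [map_mul, M.val_res, M.val_res, hρ, ht, c.hi, c'.hj]
  have e5 : (x.lab c'.w).gM = (x.lab c.w).toGenPt.m l n ^ 2 := by rw [GP.gM, hm]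
  rw [e5, hr]
  show _ = _ / ((x.lab c'.w).toGenPt.m (0, false) (1, false) /
    (x.lab c'.w).toGenPt.Λ (0, false))
  rw [hm, hΛ]

end FQ
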