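import Mathlib
import Pool.Agent.Helper41.FQ.M.OmBasis
import Pool.Agent.Helper41.FQ.FieldDef

/-!
MODULE FQ-OM-7 (the derivation `∂/∂Z_a` of a chart).

With the basis `b` of `Ω[K⁄k]` of `exists_omBasis φ`, the first coordinate function
`b.coord 0 : Ω[K⁄k] →ₗ[K] K` composed with `D` is a derivation `∂` of `K` with `∂ (φ Z_a) = 1`
(`coords 0 = Z_a`), and it maps the image of `φ` to itself (second part of `exists_omBasis`).
As a `MultiDer` with one variable: `toFun g = ∂ (g 0)`.
-/

open MvPolynomial

universe u v

namespace FQ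

variable {k : Type u} [Field k] [CharP k 2] {κ : Idx → k} {K : Type v} [Field K] [Algebra k K]

theorem exists_der (φ : ChartRing κ →ₐ[k] K) (hinj : Function.Injective φ)
    (hfrac : ∀ z : K, ∃ r s, φ s ≠ 0 ∧ z * φ s = φ r) :
    ∃ δ : MultiDer (algebraMap k K) 1,
      δ.toFun (fun _ => φ ((ChartRing.pt κ).Z (0, false))) = 1 ∧
      ∀ g : Fin 1 → ChartRing κ, ∃ r, δ.toFun (fun i => φ (g i)) = φ r := by
  obtain ⟨b, hb, hc⟩ := exists_omBasis φ hinj hfrac
  have hupd : ∀ (g : Fin 1 → K) (j : Fin 1) (a : K), Function.update g j a 0 = a := by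
    intro g j a
    have hj : j = 0 := Subsingleton.elim _ _
    subst hj
    exact Function.update_self _ _ _
  let δ : MultiDer (algebraMap k K) 1 :=
    { toFun := fun g => b.coord 0 (KaehlerDifferential.D k K (g 0))
      map_add' := by
        intro g j x y
        rw [hupd, hupd, hupd, map_add, map_add]
      leibniz' := by
        intro g j x y
        rw [hupd, hupd, hupd, Derivation.leibniz, map_add, map_smul, map_smul, smul_eq_mul,
          smul_eq_mul]
      map_scal' := by
        intro g j c
        rw [hupd, Derivation.map_algebraMap, map_zero]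
      alternating' := by
        intro g j j' hj
        exact absurd (Subsingleton.elim j j') hj }
  refine ⟨δ, ?_, ?_⟩
  · show b.coord 0 (KaehlerDifferential.D k K (φ ((ChartRing.pt κ).coords 0))) = 1
    rw [← hb 0, Module.Basis.coord_apply, Module.Basis.repr_self, Finsupp.single_eq_same]
  · intro g
    obtain ⟨c, hcg⟩ := hc (g 0)
    refine ⟨c 0, ?_⟩
    show b.coord 0 (KaehlerDifferential.D k K (φ (g 0))) = φ (c 0)
    rw [hcg, map_sum, Finset.sum_eq_single 0]
    · rw [map_smul, Module.Basis.coord_apply, Module.Basis.repr_self, Finsupp.single_eq_same,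
        smul_eq_mul, mul_one]
    · intro i _ hi
      rw [map_smul, Module.Basis.coord_apply, Module.Basis.repr_self,
        Finsupp.single_eq_of_ne hi.symm, smul_zero]
    · intro h
      exact absurd (Finset.mem_univ _) h

end FQ
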