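import Mathlib
import Pool.Agent.Helper41.FQ.Def
import Pool.Agent.Helper52.FQ.Charts
import Pool.Agent.Helper52.FQ.P1
import Pool.Agent.Helper52.FQ.LineVanish
import Pool.Agent.FQ.Field

/-!
MODULE FQ-SAN-2 (sanity check of the definitions: `ℙ¹` is a smooth Fano variety of dimension 1).

Integral, proper: Helper52/FQ/P1.lean, ProjIntegral.lean (`P1 k` is `PP k 1` up to unfolding).
Projective: `N = 1`, `i = 𝟙`. Smooth of relative dimension 1: on the two standard affine charts the
ring of functions is `k[t]` (`ev_bijective`), standard smooth of relative dimension 1. Ample: for a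
point of `D₊(xᵢ)` take `m = 1` and the vector field `d/dt`, `t = xⱼ/xᵢ` (`exists_der`), which is
`- s² d/ds` on `D₊(xⱼ)`, `s = xᵢ/xⱼ` (`der_other`); its locus is `D₊(xᵢ)`, affine.
-/

open CategoryTheory AlgebraicGeometry HomogeneousLocalization

universe u

noncomputable section

namespace FQ

attribute [local instance] MvPolynomial.gradedAlgebra

private theorem std_poly (R : Type u) [CommRing R] :
    Algebra.IsStandardSmoothOfRelativeDimension 1 R (MvPolynomial Unit R) := by
  let v : Empty → MvPolynomial Unit R := Empty.elim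
  let P : Algebra.PreSubmersivePresentation R
      (MvPolynomial Unit R ⧸ Ideal.span (Set.range v)) Unit Empty :=
    Algebra.PreSubmersivePresentation.naive (R := R) (σ := Unit) (ι := Empty) (v := v)
      Empty.elim (fun a => a.elim)
  have hu : IsUnit P.jacobian := by
    rw [Algebra.PreSubmersivePresentation.jacobian_eq_jacobiMatrix_det]
    rw [Matrix.det_isEmpty, map_one]
    exact isUnit_one
  let S : Algebra.SubmersivePresentation R
      (MvPolynomial Unit R ⧸ Ideal.span (Set.range v)) Unit Empty :=
    { toPreSubmersivePresentation := P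
      jacobian_isUnit := hu }
  have h0 : Ideal.span (Set.range v) = ⊥ := by
    rw [Set.range_eq_empty, Ideal.span_empty]
  have h1 : Algebra.IsStandardSmoothOfRelativeDimension 1 R
      (MvPolynomial Unit R ⧸ Ideal.span (Set.range v)) :=
    S.isStandardSmoothOfRelativeDimension (by
      rw [Algebra.Presentation.dimension]
      simp)
  exact Algebra.IsStandardSmoothOfRelativeDimension.of_algEquiv 1
    ((Ideal.quotientEquivAlgOfEq R h0).trans (AlgEquiv.quotientBot R (MvPolynomial Unit R)))

private theorem std_polynomial (R : Type u) [CommRing R] :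
    Algebra.IsStandardSmoothOfRelativeDimension 1 R (Polynomial R) :=
  have := std_poly R
  Algebra.IsStandardSmoothOfRelativeDimension.of_algEquiv 1 (MvPolynomial.uniqueAlgEquiv R Unit)

variable (k : Type u) [Field k]



private theorem appLE_top_eq {X Y : Scheme.{u}} (f : X ⟶ Y) (U : X.Opens) :
    f.appLE ⊤ U le_top = (U.ι ≫ f).appTop ≫ U.topIso.hom := by
  simp only [Scheme.Hom.appLE, Scheme.Hom.comp_app, Scheme.Opens.topIso_hom, Scheme.Opens.ι_app]
  erw [Category.assoc, ← X.presheaf.map_comp]
  rfl

section Gen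

variable {A : Type u} [CommRing A] [Algebra k A] (𝒜 : ℕ → Submodule k A) [GradedAlgebra 𝒜]

private theorem ι_str (f : A) {m : ℕ} (hf : f ∈ 𝒜 m) (hm : 0 < m) :
    (Proj.basicOpen 𝒜 f).ι ≫ Helper52.FQ.projStr k 𝒜 =
      (Proj.basicOpen 𝒜 f).toSpecΓ ≫
        Spec.map (CommRingCat.ofHom ((fromZeroRingHom 𝒜 (Submonoid.powers f)).comp
          (algebraMap k (𝒜 0))) ≫ Proj.awayToSection 𝒜 f) := by
  have h1 := Proj.awayι_toSpecZero 𝒜 f hf hm
  have h2 := Proj.basicOpenIsoSpec_inv_ι 𝒜 f hf hm
  rw [Iso.inv_comp_eq] at h2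
  rw [h2, Category.assoc, Helper52.FQ.projStr, reassoc_of% h1, Proj.basicOpenIsoSpec_hom,
    Proj.basicOpenToSpec, Category.assoc, ← Spec.map_comp, ← Spec.map_comp]
  rfl

private theorem scal_gen (f : A) {m : ℕ} (hf : f ∈ 𝒜 m) (hm : 0 < m) (c : k) :
    scal (Helper52.FQ.projStr k 𝒜) (Proj.basicOpen 𝒜 f) c =
      (Proj.awayToSection 𝒜 f).hom
        (fromZeroRingHom 𝒜 (Submonoid.powers f) (algebraMap k (𝒜 0) c)) := by
  unfold scal
  have h := appLE_top_eq (Helper52.FQ.projStr k 𝒜) (Proj.basicOpen 𝒜 f)
  rw [ι_str k 𝒜 f hf hm] at h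
  have h2 : (Scheme.ΓSpecIso (.of k)).inv ≫ (Helper52.FQ.projStr k 𝒜).appLE ⊤
      (Proj.basicOpen 𝒜 f) le_top =
      CommRingCat.ofHom ((fromZeroRingHom 𝒜 (Submonoid.powers f)).comp
          (algebraMap k (𝒜 0))) ≫ Proj.awayToSection 𝒜 f := by
    rw [h, Scheme.Hom.comp_appTop, Scheme.Opens.toSpecΓ_appTop]
    simp only [Category.assoc]
    rw [Iso.inv_comp_eq, Scheme.ΓSpecIso_naturality_assoc, Iso.inv_hom_id, Category.comp_id]
  exact congrArg (fun F => F.hom c) h2

end Gen

/-- setting `xᵢ = 1`. -/
private def dehom (i : Fin 2) : MvPolynomial (Fin 2) k →+* Polynomial k :=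
  (MvPolynomial.aeval (fun l : Fin 2 => if l = i then (1 : Polynomial k) else Polynomial.X)).toRingHom

private theorem dehom_C (i : Fin 2) (c : k) : dehom k i (MvPolynomial.C c) = Polynomial.C c := by
  simp only [dehom, AlgHom.toRingHom_eq_coe, RingHom.coe_coe, MvPolynomial.algHom_C]
  rfl

private theorem dehom_X (i l : Fin 2) :
    dehom k i (MvPolynomial.X l) = if l = i then 1 else Polynomial.X := by
  simp [dehom]


private theorem X_mem (i : Fin 2) :
    (MvPolynomial.X i : MvPolynomial (Fin 2) k) ∈ MvPolynomial.homogeneousSubmodule (Fin 2) k 1 :=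
  MvPolynomial.isHomogeneous_X k i

private theorem X_mem' (i : Fin 2) : (MvPolynomial.X i : MvPolynomial (Fin 2) k) ∈
    MvPolynomial.homogeneousSubmodule (Fin 2) k (1 • 1) :=
  MvPolynomial.isHomogeneous_X k i

private def fwd (i j : Fin 2) : Polynomial k →+*
    Away (MvPolynomial.homogeneousSubmodule (Fin 2) k) (MvPolynomial.X i) :=
  Polynomial.eval₂RingHom
    ((fromZeroRingHom (MvPolynomial.homogeneousSubmodule (Fin 2) k)
      (Submonoid.powers (MvPolynomial.X i))).comp
      (algebraMap k (MvPolynomial.homogeneousSubmodule (Fin 2) k 0)))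
    (Away.mk (MvPolynomial.homogeneousSubmodule (Fin 2) k)
      (X_mem k i) 1 (MvPolynomial.X j) (X_mem' k j))

private theorem fwd_C (i j : Fin 2) (c : k) : (fwd k i j (Polynomial.C c)).val =
    algebraMap (MvPolynomial (Fin 2) k) (Localization.Away (MvPolynomial.X i))
      (MvPolynomial.C c) := by
  simp only [fwd, Polynomial.coe_eval₂RingHom, Polynomial.eval₂_C, RingHom.comp_apply]
  rfl

private theorem mk_spec_aux {R : Type u} [CommRing R] (x y : R) (n : ℕ) :
    Localization.mk y (⟨x ^ n, n, rfl⟩ : Submonoid.powers x) *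
      algebraMap R (Localization.Away x) x ^ n = algebraMap R (Localization.Away x) y := by
  rw [Localization.mk_eq_mk']
  have h6 := IsLocalization.mk'_spec
    (Localization (Submonoid.powers x)) y (⟨x ^ n, n, rfl⟩ : Submonoid.powers x)
  rw [← map_pow]
  exact h6

private theorem fwd_X (i j : Fin 2) : (fwd k i j Polynomial.X).val *
    algebraMap (MvPolynomial (Fin 2) k) (Localization.Away (MvPolynomial.X i))
      (MvPolynomial.X i) =
    algebraMap (MvPolynomial (Fin 2) k) (Localization.Away (MvPolynomial.X i))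
      (MvPolynomial.X j) := by
  have h1 : fwd k i j Polynomial.X = Away.mk (MvPolynomial.homogeneousSubmodule (Fin 2) k)
      (X_mem k i) 1 (MvPolynomial.X j) (X_mem' k j) := by
    simp only [fwd, Polynomial.coe_eval₂RingHom, Polynomial.eval₂_X]
  rw [h1, Away.val_mk]
  have := mk_spec_aux (MvPolynomial.X i : MvPolynomial (Fin 2) k) (MvPolynomial.X j) 1
  exact (congrArg (fun z => _ * z) (pow_one _).symm).trans this

private theorem fin2_aux : ∀ i j l : Fin 2, i ≠ j → l ≠ i → l = j := by decide

private theorem fwd_dehom (i j : Fin 2) (hij : i ≠ j) (n : ℕ) (p : MvPolynomial (Fin 2) k)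
    (hp : p.IsHomogeneous n) : (fwd k i j (dehom k i p)).val *
    algebraMap (MvPolynomial (Fin 2) k) (Localization.Away (MvPolynomial.X i))
      (MvPolynomial.X i) ^ n =
    algebraMap (MvPolynomial (Fin 2) k) (Localization.Away (MvPolynomial.X i)) p := by
  classical
  -- the composite as a ring homomorphism
  let L := Localization.Away (MvPolynomial.X i : MvPolynomial (Fin 2) k)
  let a : MvPolynomial (Fin 2) k →+* L := algebraMap _ _
  let Φ : MvPolynomial (Fin 2) k →+* L :=
    ((algebraMap (Away (MvPolynomial.homogeneousSubmodule (Fin 2) k) (MvPolynomial.X i)) L).comp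
      (fwd k i j)).comp (dehom k i)
  have hΦ : ∀ q, Φ q = (fwd k i j (dehom k i q)).val := fun q => rfl
  have hΦC : ∀ c, Φ (MvPolynomial.C c) = a (MvPolynomial.C c) := by
    intro c
    rw [hΦ, dehom_C, fwd_C]
  have hΦX : ∀ l, Φ (MvPolynomial.X l) * a (MvPolynomial.X i) = a (MvPolynomial.X l) := by
    intro l
    rw [hΦ, dehom_X]
    by_cases hl : l = i
    · subst hl
      rw [if_pos rfl, map_one, val_one, one_mul]
    · rw [if_neg hl]
      rw [fin2_aux i j l hij hl]
      exact fwd_X k i j
  rw [← hΦ]
  change Φ p * a (MvPolynomial.X i) ^ n = a p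
  conv_lhs => rw [p.as_sum]
  conv_rhs => rw [p.as_sum]
  rw [map_sum, map_sum, Finset.sum_mul]
  refine Finset.sum_congr rfl fun d hd => ?_
  have hn : n = d 0 + d 1 := by
    have := hp (MvPolynomial.mem_support_iff.1 hd)
    rw [← this]
    simp [Finsupp.weight_apply, Finsupp.sum_fintype, Fin.sum_univ_two]
  have hm : MvPolynomial.monomial d (p.coeff d) =
      MvPolynomial.C (p.coeff d) * (MvPolynomial.X 0 ^ d 0 * MvPolynomial.X 1 ^ d 1) := by
    rw [MvPolynomial.monomial_eq, Finsupp.prod_fintype _ _ (by simp), Fin.prod_univ_two]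
  rw [hm, hn, map_mul, map_mul, map_mul, map_mul, map_pow, map_pow, map_pow, map_pow, hΦC]
  have h0 := hΦX 0
  have h1 := hΦX 1
  rw [← h0, ← h1]
  ring

private theorem fwd_surjective (i j : Fin 2) (hij : i ≠ j) : Function.Surjective (fwd k i j) := by
  intro y
  obtain ⟨n, b, hb, rfl⟩ := y.mk_surjective _ (X_mem k i)
  refine ⟨dehom k i b, ?_⟩
  apply HomogeneousLocalization.val_injective
  rw [Away.val_mk]
  have h1 := fwd_dehom k i j hij n b (by
    have : b ∈ MvPolynomial.homogeneousSubmodule (Fin 2) k n := by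
      rw [smul_eq_mul, mul_one] at hb
      exact hb
    exact this)
  have h2 := mk_spec_aux (MvPolynomial.X i : MvPolynomial (Fin 2) k) b n
  have hu : IsUnit (algebraMap (MvPolynomial (Fin 2) k)
      (Localization.Away (MvPolynomial.X i : MvPolynomial (Fin 2) k)) (MvPolynomial.X i) ^ n) :=
    (IsLocalization.Away.algebraMap_isUnit _).pow n
  exact hu.mul_right_cancel (h1.trans h2.symm)

private theorem fwd_injective (i j : Fin 2) (hij : i ≠ j) : Function.Injective (fwd k i j) := by
  have hu : IsUnit (dehom k i (MvPolynomial.X i)) := by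
    rw [dehom_X, if_pos rfl]
    exact isUnit_one
  let Ψ : Localization.Away (MvPolynomial.X i : MvPolynomial (Fin 2) k) →+* Polynomial k :=
    IsLocalization.Away.lift (MvPolynomial.X i) hu
  have hΨ : ∀ b, Ψ (algebraMap _ _ b) = dehom k i b := fun b =>
    IsLocalization.Away.lift_eq (MvPolynomial.X i) hu b
  let B : Polynomial k →+* Polynomial k := (Ψ.comp (algebraMap
    (Away (MvPolynomial.homogeneousSubmodule (Fin 2) k) (MvPolynomial.X i))
      (Localization.Away (MvPolynomial.X i : MvPolynomial (Fin 2) k)))).comp (fwd k i j)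
  have hB : B = RingHom.id _ := by
    apply Polynomial.ringHom_ext
    · intro c
      change Ψ (fwd k i j (Polynomial.C c)).val = _
      rw [fwd_C, hΨ, dehom_C]
      rfl
    · change Ψ (fwd k i j Polynomial.X).val = _
      have h1 := congrArg Ψ (fwd_X k i j)
      rw [map_mul, hΨ, hΨ, dehom_X, dehom_X, if_pos rfl, if_neg hij.symm, mul_one] at h1
      exact h1
  intro p q hpq
  have h1 : B p = B q := by
    change Ψ (fwd k i j p).val = Ψ (fwd k i j q).val
    rw [hpq]
  rw [hB] at h1
  exact h1

/-- The map `k[t] → Γ(D₊(xᵢ))`, `t ↦ xⱼ / xᵢ`. -/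
private def ev (i j : Fin 2) : Polynomial k →+* Γ(PP k 1, PP.chart k 1 i) :=
  Polynomial.eval₂RingHom (scal (PP.str k 1) _) (PP.coord k 1 i j)

private theorem ev_eq (i j : Fin 2) (p : Polynomial k) : ev k i j p =
    (Proj.awayToSection (MvPolynomial.homogeneousSubmodule (Fin 2) k) (MvPolynomial.X i)).hom
      (fwd k i j p) := by
  let e' : Polynomial k →+* Γ(PP k 1, PP.chart k 1 i) :=
    (Proj.awayToSection (MvPolynomial.homogeneousSubmodule (Fin 2) k)
      (MvPolynomial.X i)).hom.comp (fwd k i j)
  have : ev k i j = e' := by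
    apply Polynomial.ringHom_ext
    · intro c
      have h1 : ev k i j (Polynomial.C c) = scal (PP.str k 1) _ c := by
        rw [ev, Polynomial.coe_eval₂RingHom, Polynomial.eval₂_C]
      have h2 : fwd k i j (Polynomial.C c) = fromZeroRingHom
          (MvPolynomial.homogeneousSubmodule (Fin 2) k) (Submonoid.powers (MvPolynomial.X i))
          (algebraMap k (MvPolynomial.homogeneousSubmodule (Fin 2) k 0) c) := by
        rw [fwd, Polynomial.coe_eval₂RingHom, Polynomial.eval₂_C]
        rfl
      refine h1.trans ((scal_gen k (MvPolynomial.homogeneousSubmodule (Fin 2) k)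
        (MvPolynomial.X i) (X_mem k i) one_pos c).trans ?_)
      exact congrArg _ h2.symm
    · have h1 : ev k i j Polynomial.X = PP.coord k 1 i j := by
        rw [ev, Polynomial.coe_eval₂RingHom, Polynomial.eval₂_X]
      have h2 : fwd k i j Polynomial.X = Away.mk (MvPolynomial.homogeneousSubmodule (Fin 2) k)
          (X_mem k i) 1 (MvPolynomial.X j) (X_mem' k j) := by
        rw [fwd, Polynomial.coe_eval₂RingHom, Polynomial.eval₂_X]
      refine h1.trans ?_
      exact congrArg (Proj.awayToSection (MvPolynomial.homogeneousSubmodule (Fin 2) k)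
        (MvPolynomial.X i)).hom h2.symm
  rw [this]
  rfl

private theorem ev_bijective (i j : Fin 2) (hij : i ≠ j) : Function.Bijective (ev k i j) := by
  have hb : Function.Bijective (Proj.awayToSection
      (MvPolynomial.homogeneousSubmodule (Fin 2) k) (MvPolynomial.X i)).hom := by
    have hiso : IsIso (Proj.awayToSection
        (MvPolynomial.homogeneousSubmodule (Fin 2) k) (MvPolynomial.X i)) :=
      (inferInstance : IsIso (Proj.basicOpenIsoAway
        (MvPolynomial.homogeneousSubmodule (Fin 2) k) (MvPolynomial.X i)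
        (X_mem k i) one_pos).hom)
    exact ConcreteCategory.bijective_of_isIso (Proj.awayToSection
      (MvPolynomial.homogeneousSubmodule (Fin 2) k) (MvPolynomial.X i))
  have : ⇑(ev k i j) = (Proj.awayToSection (MvPolynomial.homogeneousSubmodule (Fin 2) k)
      (MvPolynomial.X i)).hom ∘ (fwd k i j) := funext fun p => ev_eq k i j p
  rw [this]
  exact hb.comp ⟨fwd_injective k i j hij, fwd_surjective k i j hij⟩

private theorem chart_affine (i : Fin 2) : IsAffineOpen (PP.chart k 1 i) :=
  Proj.isAffineOpen_basicOpen (MvPolynomial.homogeneousSubmodule (Fin 2) k) (MvPolynomial.X i)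
    (X_mem k i) one_pos

private theorem exists_mem_chart (x : PP k 1) : ∃ i : Fin 2, x ∈ PP.chart k 1 i := by
  have h := PP.cover k (Set.mem_univ x : x ∈ (⊤ : (PP k 1).Opens))
  rcases h with h | h
  · exact ⟨0, h⟩
  · exact ⟨1, h⟩

private theorem exists_ne (i : Fin 2) : ∃ j : Fin 2, i ≠ j := by
  revert i
  decide

private theorem smooth_P1 : SmoothOfRelativeDimension 1 (PP.str k 1) := by
  refine ⟨fun x => ?_⟩
  obtain ⟨i, hi⟩ := exists_mem_chart k x
  obtain ⟨j, hij⟩ := exists_ne i
  refine ⟨⊤, isAffineOpen_top _, PP.chart k 1 i, chart_affine k i, hi, le_top, ?_⟩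
  have h1 : (scal (PP.str k 1) (PP.chart k 1 i)).IsStandardSmoothOfRelativeDimension 1 := by
    let _ := (scal (PP.str k 1) (PP.chart k 1 i)).toAlgebra
    let e : Polynomial k ≃ₐ[k] Γ(PP k 1, PP.chart k 1 i) :=
      AlgEquiv.ofRingEquiv (f := RingEquiv.ofBijective (ev k i j) (ev_bijective k i j hij)) (by
        intro c
        change ev k i j (Polynomial.C c) = scal (PP.str k 1) (PP.chart k 1 i) c
        rw [ev, Polynomial.coe_eval₂RingHom, Polynomial.eval₂_C])
    have := std_polynomial k
    exact Algebra.IsStandardSmoothOfRelativeDimension.of_algEquiv 1 e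
  have h2 := RingHom.IsStandardSmoothOfRelativeDimension.equiv
    (Scheme.ΓSpecIso (.of k)).commRingCatIsoToRingEquiv
  have h3 := RingHom.IsStandardSmoothOfRelativeDimension.comp h1 h2
  have h4 : ((PP.str k 1).appLE ⊤ (PP.chart k 1 i) le_top).hom =
      (scal (PP.str k 1) (PP.chart k 1 i)).comp
        (Scheme.ΓSpecIso (.of k)).commRingCatIsoToRingEquiv.toRingHom := by
    unfold scal
    rw [RingHom.comp_assoc]
    have : (Scheme.ΓSpecIso (.of k)).inv.hom.comp
        (Scheme.ΓSpecIso (.of k)).commRingCatIsoToRingEquiv.toRingHom = RingHom.id _ := by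
      ext a
      change ((Scheme.ΓSpecIso (.of k)).hom ≫ (Scheme.ΓSpecIso (.of k)).inv).hom a = a
      rw [Iso.hom_inv_id]
      rfl
    rw [this]
    rfl
  rw [h4]
  simpa using h3


private theorem unit_gen {A σ : Type u} [CommRing A] [SetLike σ A] [AddSubgroupClass σ A]
    (𝒜 : ℕ → σ) [GradedRing 𝒜] {f g : A} (hf : f ∈ 𝒜 1) (hg : g ∈ 𝒜 (1 • 1)) (x : Proj 𝒜)
    (hx : x ∈ Proj.basicOpen 𝒜 f)
    (hu : IsUnit ((Proj 𝒜).presheaf.germ (Proj.basicOpen 𝒜 f) x hx
      ((Proj.awayToSection 𝒜 f).hom (Away.mk 𝒜 hf 1 g hg)))) : x ∈ Proj.basicOpen 𝒜 g := by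
  have h1 := hu.map (stalkToFiberRingHom 𝒜 x).hom
  erw [stalkToFiberRingHom_germ] at h1
  have hp : x.asHomogeneousIdeal.toIdeal.IsPrime := ProjectiveSpectrum.isPrime x
  have h2 := (HomogeneousLocalization.isUnit_iff_isUnit_val 𝒜 x.asHomogeneousIdeal.toIdeal _).2 h1
  erw [ProjectiveSpectrum.Proj.awayToSection_apply] at h2
  erw [Away.val_mk] at h2
  rw [Localization.mk_eq_mk', IsLocalization.map_mk'] at h2
  erw [IsLocalization.AtPrime.isUnit_mk'_iff] at h2
  exact h2

/-- the chart `D₊(xᵢ)` is the non-vanishing locus of `xᵢ / xⱼ` -/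
private theorem mem_chart_of_mem_basicOpen (i j : Fin 2) (x : PP k 1)
    (hx : x ∈ (PP k 1).basicOpen (PP.coord k 1 j i)) : x ∈ PP.chart k 1 i := by
  have hxj : x ∈ PP.chart k 1 j := (PP k 1).basicOpen_le _ hx
  have hu := (mem_basicOpen_iff_germ (PP.coord k 1 j i) x hxj).1 hx
  exact unit_gen (MvPolynomial.homogeneousSubmodule (Fin 2) k) (X_mem k j) (X_mem' k i) x hxj hu

private theorem chart_nonempty (i : Fin 2) : Nonempty (PP.chart k 1 i) := PP.nonempty_chart k i

attribute [local instance] chart_nonempty

/-- the germ at the generic point of a function on the chart `i` -/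
private def gm (i : Fin 2) : Γ(PP k 1, PP.chart k 1 i) →+* (PP k 1).functionField :=
  ((PP k 1).germToFunctionField (PP.chart k 1 i)).hom

private theorem gm_injective (i : Fin 2) : Function.Injective (gm k i) :=
  (PP k 1).germToFunctionField_injective (PP.chart k 1 i)

private theorem gm_coord_mul (i j : Fin 2) :
    gm k i (PP.coord k 1 i j) * gm k j (PP.coord k 1 j i) = 1 := by
  have hne : Nonempty ((PP.chart k 1 i ⊓ PP.chart k 1 j : (PP k 1).Opens)) :=
    ⟨⟨genericPoint (PP k 1), generic_mem _, generic_mem _⟩⟩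
  have h := congrArg ((PP k 1).germToFunctionField (PP.chart k 1 i ⊓ PP.chart k 1 j))
    (PP.coord_mul k i j)
  rw [map_mul, map_one] at h
  have e1 := germ_res_ff (PP.chart k 1 i) (PP.chart k 1 i ⊓ PP.chart k 1 j)
    (homOfLE inf_le_left) (PP.coord k 1 i j)
  have e2 := germ_res_ff (PP.chart k 1 j) (PP.chart k 1 i ⊓ PP.chart k 1 j)
    (homOfLE inf_le_right) (PP.coord k 1 j i)
  exact (congrArg₂ (· * ·) e1 e2).symm.trans h

private theorem gm_ev (i j : Fin 2) (p : Polynomial k) : gm k i (ev k i j p) =
    p.eval₂ (scalK (PP.str k 1)) (gm k i (PP.coord k 1 i j)) := by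
  have : (gm k i).comp (ev k i j) =
      Polynomial.eval₂RingHom (scalK (PP.str k 1)) (gm k i (PP.coord k 1 i j)) := by
    apply Polynomial.ringHom_ext
    · intro c
      rw [RingHom.comp_apply, ev, Polynomial.coe_eval₂RingHom, Polynomial.eval₂_C,
        Polynomial.coe_eval₂RingHom, Polynomial.eval₂_C]
      exact scalK_eq (PP.str k 1) (PP.chart k 1 i) c
    · rw [RingHom.comp_apply, ev, Polynomial.coe_eval₂RingHom, Polynomial.eval₂_X,
        Polynomial.coe_eval₂RingHom, Polynomial.eval₂_X]
  exact congrArg (fun F => F p) this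

/-- A derivation of the function field. -/
private structure IsDer (D : (PP k 1).functionField → (PP k 1).functionField) : Prop where
  add : ∀ x y, D (x + y) = D x + D y
  mul : ∀ x y, D (x * y) = x * D y + y * D x
  scal : ∀ c, D (scalK (PP.str k 1) c) = 0

private theorem IsDer.eval {D : (PP k 1).functionField → (PP k 1).functionField}
    (h : IsDer k D) (x : (PP k 1).functionField) (p : Polynomial k) :
    D (p.eval₂ (scalK (PP.str k 1)) x) =
      (Polynomial.derivative p).eval₂ (scalK (PP.str k 1)) x * D x := by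
  have hpow : ∀ n : ℕ, D (x ^ n) = n * x ^ (n - 1) * D x := by
    intro n
    induction n with
    | zero =>
      have := h.scal 1
      rw [map_one] at this
      simp [this]
    | succ n ih =>
      rw [pow_succ, h.mul, ih]
      rcases n with _ | n
      · simp
      · simp only [Nat.add_sub_cancel, Nat.cast_add, Nat.cast_one]
        ring
  induction p using Polynomial.induction_on' with
  | add p q hp hq =>
    rw [Polynomial.eval₂_add, h.add, hp, hq, Polynomial.derivative_add, Polynomial.eval₂_add]
    ring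
  | monomial n a =>
    rw [Polynomial.eval₂_monomial, h.mul, h.scal, hpow, Polynomial.derivative_monomial,
      Polynomial.eval₂_monomial, map_mul, map_natCast]
    ring

/-- the derivation `d/dt`, `t = xⱼ / xᵢ` -/
private theorem exists_der (i j : Fin 2) (hij : i ≠ j) :
    ∃ D : (PP k 1).functionField → (PP k 1).functionField, IsDer k D ∧
      D (gm k i (PP.coord k 1 i j)) = 1 := by
  let e : Polynomial k ≃+* Γ(PP k 1, PP.chart k 1 i) :=
    RingEquiv.ofBijective (ev k i j) (ev_bijective k i j hij)
  have he : ∀ p, e p = ev k i j p := fun p => rfl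
  have hfr : IsFractionRing Γ(PP k 1, PP.chart k 1 i) (PP k 1).functionField :=
    functionField_isFractionRing_of_isAffineOpen (PP k 1) (PP.chart k 1 i) (chart_affine k i)
  obtain ⟨D, h1, h2, h3⟩ := exists_deriv_aux (S := (PP k 1).functionField)
    (nonZeroDivisors Γ(PP k 1, PP.chart k 1 i))
    (fun a => e (Polynomial.derivative (e.symm a)))
    (by
      intro x y
      rw [map_add, map_add, map_add])
    (by
      intro x y
      rw [map_mul, Polynomial.derivative_mul, map_add, map_mul, map_mul, e.apply_symm_apply,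
        e.apply_symm_apply]
      ring)
  have h3' : ∀ p, D (gm k i (ev k i j p)) = gm k i (ev k i j (Polynomial.derivative p)) := by
    intro p
    have := h3 (e p)
    rw [e.symm_apply_apply] at this
    exact this
  refine ⟨D, ⟨h1, h2, ?_⟩, ?_⟩
  · intro c
    have := h3' (Polynomial.C c)
    rw [gm_ev, Polynomial.eval₂_C, Polynomial.derivative_C, map_zero, map_zero] at this
    exact this
  · have := h3' Polynomial.X
    rw [gm_ev, Polynomial.eval₂_X, Polynomial.derivative_X, map_one, map_one] at this
    exact this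

/-- two derivations of the function field agree if they agree on `xⱼ / xᵢ` -/
private theorem IsDer.ext (i j : Fin 2) (hij : i ≠ j)
    {D D' : (PP k 1).functionField → (PP k 1).functionField} (h : IsDer k D) (h' : IsDer k D')
    (he : D (gm k i (PP.coord k 1 i j)) = D' (gm k i (PP.coord k 1 i j)))
    (x : (PP k 1).functionField) : D x = D' x := by
  have hfr : IsFractionRing Γ(PP k 1, PP.chart k 1 i) (PP k 1).functionField :=
    functionField_isFractionRing_of_isAffineOpen (PP k 1) (PP.chart k 1 i) (chart_affine k i)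
  refine deriv_unique_aux (S := (PP k 1).functionField)
    (nonZeroDivisors Γ(PP k 1, PP.chart k 1 i)) (RingHom.id _) D D' h.mul h'.mul ?_ x
  intro b
  obtain ⟨p, rfl⟩ := (ev_bijective k i j hij).2 b
  change D (gm k i (ev k i j p)) = D' (gm k i (ev k i j p))
  rw [gm_ev, h.eval, h'.eval, he]

/-- a derivation as a multiderivation in one variable -/
private def IsDer.toMulti {D : (PP k 1).functionField → (PP k 1).functionField}
    (h : IsDer k D) : MultiDer (scalK (PP.str k 1)) 1 where
  toFun g := D (g 0)
  map_add' g j a b := by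
    rw [Subsingleton.elim j 0, Function.update_self, Function.update_self, Function.update_self,
      h.add]
  leibniz' g j a b := by
    rw [Subsingleton.elim j 0, Function.update_self, Function.update_self, Function.update_self,
      h.mul]
  map_scal' g j c := by
    rw [Subsingleton.elim j 0, Function.update_self, h.scal]
  alternating' g j j' hj := absurd (Subsingleton.elim j j') hj

private theorem IsDer.neg_sq {D : (PP k 1).functionField → (PP k 1).functionField}
    (h : IsDer k D) (c : (PP k 1).functionField) : IsDer k (fun x => c * D x) where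
  add x y := by
    rw [h.add]; ring
  mul x y := by
    rw [h.mul]; ring
  scal a := by
    rw [h.scal, mul_zero]

private theorem regular_aux (i j : Fin 2) (hij : i ≠ j)
    {D : (PP k 1).functionField → (PP k 1).functionField}
    (h : IsDer k D) (y : Γ(PP k 1, PP.chart k 1 i))
    (hy : D (gm k i (PP.coord k 1 i j)) = gm k i y) :
    (h.toMulti k).RegularOn (PP.chart k 1 i) := by
  intro g
  obtain ⟨p, hp⟩ := (ev_bijective k i j hij).2 (g 0)
  refine ⟨ev k i j (Polynomial.derivative p) * y, ?_⟩
  change gm k i _ = D (gm k i (g 0))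
  rw [map_mul, ← hp, gm_ev, gm_ev, h.eval, hy]

private theorem der_other (i j : Fin 2) {D : (PP k 1).functionField → (PP k 1).functionField}
    (h : IsDer k D) (hD : D (gm k i (PP.coord k 1 i j)) = 1) :
    D (gm k j (PP.coord k 1 j i)) = gm k j (-(PP.coord k 1 j i) ^ 2) := by
  have h1 := gm_coord_mul k i j
  have h2 := congrArg D h1
  rw [h.mul, hD] at h2
  have h3 : D 1 = 0 := by
    have := h.scal 1
    rwa [map_one] at this
  rw [h3] at h2
  rw [map_neg, map_pow]
  set s := gm k j (PP.coord k 1 j i) with hs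
  set t := gm k i (PP.coord k 1 i j) with ht
  have h4 : s * (t * D s + s * 1) = 0 := by rw [h2, mul_zero]
  have h5 : s * (t * D s + s * 1) = (t * s) * D s + s ^ 2 := by ring
  rw [h5, h1, one_mul] at h4
  exact eq_neg_of_add_eq_zero_left h4

private theorem ample_P1 : AnticanonicalIsAmple (PP.str k 1) 1 := by
  intro x
  obtain ⟨i, hi⟩ := exists_mem_chart k x
  obtain ⟨j, hij⟩ := exists_ne i
  obtain ⟨D, hD, hD1⟩ := exists_der k i j hij
  obtain ⟨D', hD', hD1'⟩ := exists_der k j i hij.symm
  have hother := der_other k i j hD hD1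
  have hcov : ∀ l : Fin 2, l = i ∨ l = j := by
    intro l
    by_cases hl : l = i
    · exact Or.inl hl
    · exact Or.inr (fin2_aux i j l hij hl)
  have hri : (hD.toMulti k).RegularOn (PP.chart k 1 i) :=
    regular_aux k i j hij hD 1 (by rw [hD1, map_one])
  have hrj : (hD.toMulti k).RegularOn (PP.chart k 1 j) :=
    regular_aux k j i hij.symm hD _ hother
  have hrj' : (hD'.toMulti k).RegularOn (PP.chart k 1 j) :=
    regular_aux k j i hij.symm hD' 1 (by rw [hD1', map_one])
  have hreg : ∀ x : PP k 1, ∃ (W : (PP k 1).Opens) (_ : x ∈ W) (_ : Nonempty W),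
      IsAffineOpen W ∧ (hD.toMulti k).RegularOn W := by
    intro x
    obtain ⟨l, hl⟩ := exists_mem_chart k x
    refine ⟨PP.chart k 1 l, hl, inferInstance, chart_affine k l, ?_⟩
    rcases hcov l with rfl | rfl
    · exact hri
    · exact hrj
  have hlocus : ((hD.toMulti k).toSection hreg).locus = PP.chart k 1 i := by
    ext y
    rw [SetLike.mem_coe, SetLike.mem_coe]
    by_cases hy : y ∈ PP.chart k 1 i
    · refine iff_of_true ?_ hy
      refine (MultiDer.locus_iff (hD.toMulti k) (hD.toMulti k) hreg (PP.chart k 1 i)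
        (chart_affine k i) 1 ?_ hri ?_ y hy).2 ?_
      · intro g
        rw [map_one, one_mul]
      · refine ⟨fun _ => PP.coord k 1 i j, 1, ?_⟩
        rw [Units.val_one, map_one]
        exact hD1.symm
      · rw [Scheme.basicOpen_of_isUnit _ isUnit_one]
        exact hy
    · refine iff_of_false ?_ hy
      intro hl
      apply hy
      have hyj : y ∈ PP.chart k 1 j := by
        obtain ⟨l, hl⟩ := exists_mem_chart k y
        rcases hcov l with rfl | rfl
        · exact absurd hl hy
        · exact hl
      have h1 := (MultiDer.locus_iff (hD.toMulti k) (hD'.toMulti k) hreg (PP.chart k 1 j)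
        (chart_affine k j) (-(PP.coord k 1 j i) ^ 2) ?_ hrj' ?_ y hyj).1 hl
      · apply mem_chart_of_mem_basicOpen k i j
        rw [mem_basicOpen_iff_germ _ y hyj] at h1 ⊢
        rw [map_neg, map_pow, IsUnit.neg_iff, isUnit_pow_iff two_ne_zero] at h1
        exact h1
      · intro g
        refine hD.ext k j i hij.symm (hD'.neg_sq k (gm k j (-(PP.coord k 1 j i) ^ 2))) ?_ (g 0)
        rw [hother, hD1', mul_one]
      · refine ⟨fun _ => PP.coord k 1 j i, 1, ?_⟩
        rw [Units.val_one, map_one]
        exact hD1'.symm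
  refine ⟨1, one_pos, (hD.toMulti k).toSection hreg, ?_, ?_⟩
  · rw [hlocus]
    exact hi
  · rw [hlocus]
    exact chart_affine k i

theorem sanity_fano (k : Type u) [Field k] : IsSmoothFano (PP.str k 1) 1 where
  integral := inferInstance
  proper := inferInstance
  projective := ⟨1, 𝟙 _, inferInstance, Category.id_comp _⟩
  smooth := smooth_P1 k
  ample := ample_P1 k

end FQ
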