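import Mathlib
import Pool.Agent.Helper41.FQ.Def
import Pool.Agent.Helper52.FQ.Charts
import Pool.Agent.Helper52.FQ.P1
import Pool.Agent.FQ.ImgModel

/-!
MODULE FQ-SAN-1 (sanity check of the definitions: `ℙ¹` is separably rationally connected).

`f = 𝟙`, `n = 1`, `a = 2` (`T_ℙ¹ = 𝒪(2)`). With `t = PP.coord k 1 0 1` on `D₊(x₀)` (affine, functions
`k[t]`) and `s = PP.coord k 1 1 0` on `D₊(x₁)` (functions `k[s]`, `s t = 1` on the intersection:
`PP.coord_mul` of Helper52/FQ/Line.lean): `e = d/dt`, `e' = - d/ds` (as derivations of the rings of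
functions of the affine charts; `exists_ofDerivation` of Helper52/FQ/OfDeriv.lean turns them into
`TangentSection`s), and `t² d/dt = - d/ds` on the intersection (compare on `s`, `t`).
`IsFrame e`: for `V ≤ D₊(x₀)` and a section `σ` over `V` take `g = σ(t)` (the value of `σ` on the
function `t` of the open set `D₊(x₀)`, an element of `Γ(V ∩ D₊(x₀)) = Γ(V)`): two derivations along
the same map which agree on `k` and `t` agree on `Γ(D₊(x₀)) = k[t]`, on its localizations, and
hence (gluing, `map_res'`) on all `Γ(U)`; uniqueness: evaluate at `t`, `e(t) = 1`. The same for `e'`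
and `s`.
-/

open CategoryTheory AlgebraicGeometry TopologicalSpace

universe u

namespace FQ

noncomputable section

attribute [local instance] MvPolynomial.gradedAlgebra

variable (k : Type u) [Field k]

private abbrev SanL : Type u := FractionRing (MvPolynomial (Fin (1 + 1)) k)

private def sanE : Fin (1 + 1) → SanL k := fun l =>
  algebraMap (MvPolynomial (Fin (1 + 1)) k) (SanL k) (MvPolynomial.X l)

private theorem sanE_ne (l : Fin (1 + 1)) : sanE k l ≠ 0 := by
  intro h
  have h2 := (IsFractionRing.injective (MvPolynomial (Fin (1 + 1)) k) (SanL k))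
    (h.trans (map_zero _).symm)
  exact MvPolynomial.X_ne_zero l h2

private def sanR (i : Fin (1 + 1)) : Γ(PP k 1, PP.chart k 1 i) →+* SanL k :=
  ((Img.P0 k (sanE_ne k)).appLE (PP.chart k 1 i) ⊤ (Img.P0_top_le k (sanE_ne k) i) ≫
    (Scheme.ΓSpecIso (.of (SanL k))).hom).hom

private theorem sanEv (a : MvPolynomial (Fin (1 + 1)) k) :
    Img.evL k (sanE k) a = algebraMap (MvPolynomial (Fin (1 + 1)) k) (SanL k) a := by
  have h : (MvPolynomial.aeval (sanE k) : MvPolynomial (Fin (1 + 1)) k →ₐ[k] SanL k) =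
      IsScalarTower.toAlgHom k (MvPolynomial (Fin (1 + 1)) k) (SanL k) := by
    apply MvPolynomial.algHom_ext
    intro l
    rw [MvPolynomial.aeval_X]
    rfl
  exact congrArg (fun φ : MvPolynomial (Fin (1 + 1)) k →ₐ[k] SanL k => φ a) h

private theorem sanR_inj (i : Fin (1 + 1)) : Function.Injective (sanR k i) := by
  rw [injective_iff_map_eq_zero]
  intro y hy
  have hsurj : Function.Surjective (Proj.awayToSection
      (MvPolynomial.homogeneousSubmodule (Fin (1 + 1)) k) (MvPolynomial.X i)).hom := by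
    have h := Proj.basicOpenIsoAway_hom (MvPolynomial.homogeneousSubmodule (Fin (1 + 1)) k)
      (MvPolynomial.X i) (Img.X_mem k i) one_pos
    rw [← h]
    exact (ConcreteCategory.bijective_of_isIso _).2
  obtain ⟨w, rfl⟩ := hsurj y
  have h1 := Img.P0_appLE k (sanE_ne k) i w
  have h2 := h1.symm.trans hy
  obtain ⟨n, a, ha, rfl⟩ := HomogeneousLocalization.Away.mk_surjective _ (Img.X_mem k i) w
  rw [Img.toL_mk] at h2
  have h3 : Img.evL k (sanE k) a = 0 := by
    rcases div_eq_zero_iff.1 h2 with h | h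
    · exact h
    · rw [Img.evL_X] at h
      exact absurd h (pow_ne_zero n (sanE_ne k i))
  rw [sanEv] at h3
  have h4 : a = 0 := (IsFractionRing.injective (MvPolynomial (Fin (1 + 1)) k) (SanL k))
    (h3.trans (map_zero _).symm)
  subst h4
  have h5 : HomogeneousLocalization.Away.mk
      (MvPolynomial.homogeneousSubmodule (Fin (1 + 1)) k) (Img.X_mem k i) n 0 ha = 0 := by
    apply HomogeneousLocalization.val_injective
    rw [HomogeneousLocalization.Away.val_mk, Localization.mk_zero, HomogeneousLocalization.val_zero]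
  exact (congrArg _ h5).trans (map_zero _)

private theorem sanR_coord (i j : Fin (1 + 1)) :
    sanR k i (PP.coord k 1 i j) = sanE k j / sanE k i :=
  Img.coord_val k (sanE_ne k) i j

private theorem sanR_scal (i : Fin (1 + 1)) (c : k) :
    sanR k i (scal (PP.str k 1) (PP.chart k 1 i) c) = algebraMap k (SanL k) c := by
  have e1 : (PP.str k 1).appLE ⊤ (PP.chart k 1 i) le_top ≫
      (Img.P0 k (sanE_ne k)).appLE (PP.chart k 1 i) ⊤ (Img.P0_top_le k (sanE_ne k) i) =
      (Spec.map (CommRingCat.ofHom (algebraMap k (SanL k)))).appTop :=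
    Img.comp_aux _ _ _ _ _ (Img.P0_str k (sanE_ne k))
  have e2 : (Scheme.ΓSpecIso (.of k)).inv ≫ (PP.str k 1).appLE ⊤ (PP.chart k 1 i) le_top ≫
      (Img.P0 k (sanE_ne k)).appLE (PP.chart k 1 i) ⊤ (Img.P0_top_le k (sanE_ne k) i) ≫
      (Scheme.ΓSpecIso (.of (SanL k))).hom = CommRingCat.ofHom (algebraMap k (SanL k)) := by
    rw [reassoc_of% e1, Scheme.ΓSpecIso_naturality, Iso.inv_hom_id_assoc]
  exact congrArg (fun φ => φ.hom c) e2

private theorem sanR_surj (i : Fin (1 + 1)) (p : MvPolynomial (Fin (1 + 1)) k) :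
    ∃ y, sanR k i y = MvPolynomial.aeval (fun j => sanE k j / sanE k i) p := by
  refine (Img.range_chart k (sanE_ne k) i _).2 ?_
  rw [Algebra.adjoin_range_eq_range_aeval]
  exact ⟨p, rfl⟩

private theorem chart_induction (i : Fin (1 + 1)) (P : Γ(PP k 1, PP.chart k 1 i) → Prop)
    (hs : ∀ c, P (scal (PP.str k 1) _ c)) (hadd : ∀ x y, P x → P y → P (x + y))
    (hmul : ∀ x j, P x → P (x * PP.coord k 1 i j)) (z : Γ(PP k 1, PP.chart k 1 i)) : P z := by
  have hz : sanR k i z ∈ Algebra.adjoin k (Set.range fun j => sanE k j / sanE k i) :=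
    (Img.range_chart k (sanE_ne k) i _).1 ⟨z, rfl⟩
  rw [Algebra.adjoin_range_eq_range_aeval] at hz
  obtain ⟨p, hp⟩ := hz
  have key : ∀ p : MvPolynomial (Fin (1 + 1)) k, ∀ z : Γ(PP k 1, PP.chart k 1 i),
      sanR k i z = MvPolynomial.aeval (fun j => sanE k j / sanE k i) p → P z := by
    intro p
    induction p using MvPolynomial.induction_on with
    | C c =>
      intro z hz
      have : z = scal (PP.str k 1) _ c := sanR_inj k i (by
        rw [hz, sanR_scal, MvPolynomial.aeval_C])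
      rw [this]
      exact hs c
    | add p q hp hq =>
      intro z hz
      obtain ⟨x, hx⟩ := sanR_surj k i p
      obtain ⟨y, hy⟩ := sanR_surj k i q
      have : z = x + y := sanR_inj k i (by rw [hz, map_add, map_add, hx, hy])
      rw [this]
      exact hadd x y (hp x hx) (hq y hy)
    | mul_X p j hp =>
      intro z hz
      obtain ⟨x, hx⟩ := sanR_surj k i p
      have : z = x * PP.coord k 1 i j := sanR_inj k i (by
        rw [hz, map_mul, map_mul, hx, MvPolynomial.aeval_X, sanR_coord])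
      rw [this]
      exact hmul x j (hp x hx)
  exact key p z hp.symm

private theorem coord_self (i : Fin (1 + 1)) : PP.coord k 1 i i = 1 :=
  sanR_inj k i (by rw [sanR_coord, map_one, div_self (sanE_ne k i)])

private theorem exists_delta (i j : Fin (1 + 1)) (hij : i ≠ j) :
    ∃ δ : Γ(PP k 1, PP.chart k 1 i) → Γ(PP k 1, PP.chart k 1 i),
      (∀ x y, δ (x + y) = δ x + δ y) ∧ (∀ x y, δ (x * y) = x * δ y + y * δ x) ∧
      (∀ c : k, δ (scal (PP.str k 1) _ c) = 0) ∧ δ (PP.coord k 1 i j) = 1 := by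
  have hM : IsLocalization (nonZeroDivisors (MvPolynomial (Fin (1 + 1)) k)) (SanL k) :=
    inferInstance
  obtain ⟨D, hadd, hmul, halg⟩ := exists_deriv_aux (B := MvPolynomial (Fin (1 + 1)) k)
    (S := SanL k) (nonZeroDivisors (MvPolynomial (Fin (1 + 1)) k))
    (fun p => MvPolynomial.X i * MvPolynomial.pderiv j p)
    (fun x y => by rw [map_add, mul_add])
    (fun x y => by
      rw [Derivation.leibniz, smul_eq_mul, smul_eq_mul]
      ring)
  have hDc : ∀ c : k, D (algebraMap k (SanL k) c) = 0 := by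
    intro c
    have h1 : algebraMap k (SanL k) c =
        algebraMap (MvPolynomial (Fin (1 + 1)) k) (SanL k) (MvPolynomial.C c) :=
      IsScalarTower.algebraMap_apply k (MvPolynomial (Fin (1 + 1)) k) (SanL k) c
    rw [h1, halg, MvPolynomial.pderiv_C, mul_zero, map_zero]
  have hD1 : D 1 = 0 := by
    have := hDc 1
    rwa [map_one] at this
  have hD0 : D 0 = 0 := by
    have := hDc 0
    rwa [map_zero] at this
  have hDt : D (sanE k j / sanE k i) = 1 := by
    have h1 : sanE k j = sanE k j / sanE k i * sanE k i := (div_mul_cancel₀ _ (sanE_ne k i)).symm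
    have h2 := congrArg D h1
    have h3 : D (sanE k j) = sanE k i := by
      refine (halg (MvPolynomial.X j)).trans ?_
      rw [MvPolynomial.pderiv_X_self, mul_one]
      rfl
    have h4 : D (sanE k i) = 0 := by
      refine (halg (MvPolynomial.X i)).trans ?_
      rw [MvPolynomial.pderiv_X_of_ne hij, mul_zero, map_zero]
    rw [hmul, h3, h4, mul_zero, zero_add] at h2
    exact mul_left_cancel₀ (sanE_ne k i) (h2.symm.trans (mul_one _).symm)
  have hex : ∀ z : Γ(PP k 1, PP.chart k 1 i), ∃ z' : Γ(PP k 1, PP.chart k 1 i),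
      sanR k i z' = D (sanR k i z) := by
    apply chart_induction k i
    · intro c
      exact ⟨0, by rw [map_zero, sanR_scal, hDc]⟩
    · rintro x y ⟨x', hx⟩ ⟨y', hy⟩
      exact ⟨x' + y', by rw [map_add, map_add, hadd, hx, hy]⟩
    · rintro x l ⟨x', hx⟩
      have hl : l = i ∨ l = j := by
        have key : ∀ a b c : Fin (1 + 1), a ≠ b → c = a ∨ c = b := by decide
        exact key i j l hij
      rcases hl with rfl | rfl
      · rw [coord_self, mul_one]
        exact ⟨x', hx⟩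
      · refine ⟨x + PP.coord k 1 i l * x', ?_⟩
        rw [map_add, map_mul, map_mul, hmul, hx, sanR_coord, hDt, mul_one]
  choose δ hδ using hex
  refine ⟨δ, ?_, ?_, ?_, ?_⟩
  · intro x y
    apply sanR_inj k i
    rw [hδ, map_add, map_add, hδ, hδ, hadd]
  · intro x y
    apply sanR_inj k i
    rw [hδ, map_mul, map_add, map_mul, map_mul, hδ, hδ, hmul]
  · intro c
    apply sanR_inj k i
    rw [hδ, sanR_scal, hDc, map_zero]
  · apply sanR_inj k i
    rw [hδ, sanR_coord, hDt, map_one]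

private theorem exists_vf (i j : Fin (1 + 1)) (hij : i ≠ j) :
    ∃ σ : TangentSection (PP.str k 1) (𝟙 (PP k 1)) (PP.chart k 1 i),
      σ.toFun (PP.chart k 1 i) (PP.coord k 1 i j) = 1 := by
  obtain ⟨δ, h1, h2, h3, h4⟩ := exists_delta k i j hij
  obtain ⟨σ, hσ⟩ := exists_ofDerivation (PP.str k 1) (Img.affine_chart k i) δ h1 h2 h3
  exact ⟨σ, by rw [hσ, h4, map_one]⟩

variable {k}

/-- Multiplication of a section of `f^* T_X` by a function. -/
private def tsmul {X Y : Scheme.{u}} {s : X ⟶ Spec (.of k)} {f : Y ⟶ X} {W : Y.Opens}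
    (g : Γ(Y, W)) (σ : TangentSection s f W) : TangentSection s f W where
  toFun U a := res inf_le_left g * σ.toFun U a
  map_add' U a b := by rw [σ.map_add', mul_add]
  leibniz' U a b := by
    rw [σ.leibniz']
    ring
  map_scal' U c := by rw [σ.map_scal', mul_zero]
  map_res' U V hUV a := by rw [σ.map_res' U V hUV, map_mul, res_res]

variable (k)

private theorem ts_ext (i j : Fin (1 + 1)) (hij : i ≠ j) {V : (PP k 1).Opens}
    (hV : V ≤ PP.chart k 1 i) (σ τ : TangentSection (PP.str k 1) (𝟙 (PP k 1)) V)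
    (h : σ.toFun (PP.chart k 1 i) (PP.coord k 1 i j) =
      τ.toFun (PP.chart k 1 i) (PP.coord k 1 i j))
    (U : (PP k 1).Opens) (a : Γ(PP k 1, U)) : σ.toFun U a = τ.toFun U a := by
  have hone : ∀ ρ : TangentSection (PP.str k 1) (𝟙 (PP k 1)) V, ρ.toFun (PP.chart k 1 i) 1 = 0 := by
    intro ρ
    have := ρ.map_scal' (PP.chart k 1 i) 1
    rwa [map_one] at this
  have step1 : ∀ z : Γ(PP k 1, PP.chart k 1 i),
      σ.toFun (PP.chart k 1 i) z = τ.toFun (PP.chart k 1 i) z := by
    apply chart_induction k i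
    · intro c
      rw [σ.map_scal', τ.map_scal']
    · intro x y hx hy
      rw [σ.map_add', τ.map_add', hx, hy]
    · intro x l hx
      have hl : l = i ∨ l = j := by
        have key : ∀ a b c : Fin (1 + 1), a ≠ b → c = a ∨ c = b := by decide
        exact key i j l hij
      rcases hl with rfl | rfl
      · rw [coord_self, mul_one]
        exact hx
      · rw [σ.leibniz', τ.leibniz', hx, h]
  have step2 : ∀ (g : Γ(PP k 1, PP.chart k 1 i)) (b : Γ(PP k 1, (PP k 1).basicOpen g)),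
      σ.toFun _ b = τ.toFun _ b := by
    intro g b
    refine deriv_basic_unique (Img.affine_chart k i) g _ rfl ((PP k 1).basicOpen_le g)
      (pull (𝟙 (PP k 1)) V ((PP k 1).basicOpen g)) (σ.toFun _) (τ.toFun _)
      (σ.leibniz' _) (τ.leibniz' _) ?_ b
    intro b
    rw [σ.map_res', τ.map_res', step1]
  have hW : V ⊓ (𝟙 (PP k 1) : PP k 1 ⟶ PP k 1) ⁻¹ᵁ U ≤ PP.chart k 1 i := inf_le_left.trans hV
  have hWU : V ⊓ (𝟙 (PP k 1) : PP k 1 ⟶ PP k 1) ⁻¹ᵁ U ≤ U := fun x hx => hx.2
  refine eq_of_res (fun g : {g : Γ(PP k 1, PP.chart k 1 i) //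
      (PP k 1).basicOpen g ≤ V ⊓ (𝟙 (PP k 1) : PP k 1 ⟶ PP k 1) ⁻¹ᵁ U} =>
      (PP k 1).basicOpen g.1) _ (fun g => g.2)
    (exists_basic_cover (Img.affine_chart k i) hW) _ _ ?_
  rintro ⟨g, hg⟩
  have hgU : (PP k 1).basicOpen g ≤ U := hg.trans hWU
  have hgV : (PP k 1).basicOpen g ≤ V ⊓ (𝟙 (PP k 1) : PP k 1 ⟶ PP k 1) ⁻¹ᵁ (PP k 1).basicOpen g :=
    fun x hx => ⟨(hg hx).1, hx⟩
  have e1 := congrArg (res hgV) (σ.map_res' U _ hgU a)
  have e2 := congrArg (res hgV) (τ.map_res' U _ hgU a)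
  rw [res_res] at e1 e2
  rw [step2] at e1
  exact e1.symm.trans e2

private theorem res_intCast {X : Scheme.{u}} {U V : X.Opens} (h : V ≤ U) (u : ℤ) :
    res h (u : Γ(X, U)) = (u : Γ(X, V)) := map_intCast _ u

private theorem isFrame_one (i j : Fin (1 + 1)) (hij : i ≠ j)
    (σ : TangentSection (PP.str k 1) (𝟙 (PP k 1)) (PP.chart k 1 i)) (u : ℤ) (hu : u * u = 1)
    (hσ : σ.toFun (PP.chart k 1 i) (PP.coord k 1 i j) = (u : Γ(PP k 1, _))) :
    IsFrame (fun _ : Fin 1 => σ) := by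
  intro V hV τ
  have hV' : V ≤ V ⊓ (𝟙 (PP k 1) : PP k 1 ⟶ PP k 1) ⁻¹ᵁ PP.chart k 1 i :=
    fun x hx => ⟨hx, hV hx⟩
  have huu : ∀ W : (PP k 1).Opens, (u : Γ(PP k 1, W)) * (u : Γ(PP k 1, W)) = 1 := by
    intro W
    rw [← Int.cast_mul, hu, Int.cast_one]
  have hres : ∀ W : (PP k 1).Opens, ∀ h : W ≤ PP.chart k 1 i ⊓
      (𝟙 (PP k 1) : PP k 1 ⟶ PP k 1) ⁻¹ᵁ PP.chart k 1 i,
      res h (σ.toFun (PP.chart k 1 i) (PP.coord k 1 i j)) = (u : Γ(PP k 1, W)) := by
    intro W h
    rw [hσ, res_intCast]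
  refine ⟨fun _ => (u : Γ(PP k 1, V)) * res hV' (τ.toFun (PP.chart k 1 i) (PP.coord k 1 i j)),
    ?_, ?_⟩
  · intro U a
    rw [Fin.sum_univ_one]
    refine ts_ext k i j hij hV τ (tsmul ((u : Γ(PP k 1, V)) *
      res hV' (τ.toFun (PP.chart k 1 i) (PP.coord k 1 i j))) (σ.restrict hV)) ?_ U a
    change _ = res inf_le_left ((u : Γ(PP k 1, V)) *
      res hV' (τ.toFun (PP.chart k 1 i) (PP.coord k 1 i j))) *
        res (inf_le_inf_right _ hV) (σ.toFun (PP.chart k 1 i) (PP.coord k 1 i j))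
    rw [hres, map_mul, res_intCast, res_res, res_self, mul_right_comm, huu, one_mul]
  · intro g hg
    funext l
    have h1 := hg (PP.chart k 1 i) (PP.coord k 1 i j)
    rw [Fin.sum_univ_one] at h1
    have h2 := congrArg (res hV') h1
    rw [map_mul, res_res, res_res] at h2
    have hl : l = 0 := Subsingleton.elim _ _
    subst hl
    rw [h2, hres, res_self, mul_comm (g 0), ← mul_assoc, huu, one_mul]

theorem sanity_src (k : Type u) [Field k] : IsSeparablyRationallyConnected (PP.str k 1) := by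
  obtain ⟨e, he⟩ := exists_vf k 0 1 (by decide)
  obtain ⟨e₁, he₁⟩ := exists_vf k 1 0 (by decide)
  have hne : (tsmul ((-1 : ℤ) : Γ(PP k 1, PP.chart k 1 1)) e₁).toFun (PP.chart k 1 1)
      (PP.coord k 1 1 0) = (((-1 : ℤ)) : Γ(PP k 1, _)) := by
    change res inf_le_left ((-1 : ℤ) : Γ(PP k 1, PP.chart k 1 1)) * e₁.toFun _ _ = _
    rw [he₁, mul_one, res_intCast]
  refine ⟨𝟙 _, Category.id_comp _, 1, fun _ => 2, fun _ => two_pos, fun _ => e,
    fun _ => tsmul ((-1 : ℤ) : Γ(PP k 1, PP.chart k 1 1)) e₁, ?_, ?_, ?_⟩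
  · exact isFrame_one k 0 1 (by decide) e 1 (by norm_num) (by rw [he, Int.cast_one])
  · exact isFrame_one k 1 0 (by decide) _ (-1) (by norm_num) hne
  intro _ U b
  let W : (PP k 1).Opens := PP.chart k 1 0 ⊓ PP.chart k 1 1
  let t : Γ(PP k 1, W) := res inf_le_left (PP.coord k 1 0 1)
  let r : Γ(PP k 1, W) := res inf_le_right (PP.coord k 1 1 0)
  have htr : t * r = 1 := PP.coord_mul k 0 1
  let τ : TangentSection (PP.str k 1) (𝟙 (PP k 1)) W := e.restrict inf_le_left
  -- the value of `d/dt` on `s`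
  have hτt : τ.toFun W t = 1 := by
    change τ.toFun W (res inf_le_left (PP.coord k 1 0 1)) = 1
    rw [τ.map_res' (PP.chart k 1 0) W inf_le_left]
    change res _ (res _ (e.toFun (PP.chart k 1 0) (PP.coord k 1 0 1))) = 1
    rw [he, map_one, map_one]
  have hτ1 : τ.toFun W 1 = 0 := by
    have := τ.map_scal' W 1
    rwa [map_one] at this
  have hτr : τ.toFun W r = - (pull (𝟙 (PP k 1)) W W r) ^ 2 := by
    have h1 := τ.leibniz' W t r
    rw [htr, hτ1, hτt, mul_one] at h1
    have h2 : pull (𝟙 (PP k 1)) W W t * pull (𝟙 (PP k 1)) W W r = 1 := by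
      rw [← map_mul, htr, map_one]
    linear_combination (- pull (𝟙 (PP k 1)) W W r) * h1 - τ.toFun W r * h2
  have hWW : W ⊓ (𝟙 (PP k 1) : PP k 1 ⟶ PP k 1) ⁻¹ᵁ PP.chart k 1 1 ≤
      W ⊓ (𝟙 (PP k 1) : PP k 1 ⟶ PP k 1) ⁻¹ᵁ W := fun x hx => ⟨hx.1, hx.1⟩
  have hWW' : W ⊓ (𝟙 (PP k 1) : PP k 1 ⟶ PP k 1) ⁻¹ᵁ W ≤
      W ⊓ (𝟙 (PP k 1) : PP k 1 ⟶ PP k 1) ⁻¹ᵁ PP.chart k 1 1 := fun x hx => ⟨hx.1, hx.1.2⟩
  have hWle : W ⊓ (𝟙 (PP k 1) : PP k 1 ⟶ PP k 1) ⁻¹ᵁ PP.chart k 1 1 ≤ W := fun x hx => hx.1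
  have hτs : τ.toFun (PP.chart k 1 1) (PP.coord k 1 1 0) = - (res hWle r) ^ 2 := by
    have h1 := τ.map_res' (PP.chart k 1 1) W inf_le_right (PP.coord k 1 1 0)
    have h2 := congrArg (res hWW) (h1.symm.trans hτr)
    rw [res_res, res_self, map_neg, map_pow, res_pull_id hWW hWle] at h2
    exact h2
  have key := ts_ext k 1 0 (by decide) (V := W) inf_le_right
    ((tsmul ((-1 : ℤ) : Γ(PP k 1, PP.chart k 1 1)) e₁).restrict inf_le_right)
    (tsmul (t ^ 2) τ) (by
      change res _ ((tsmul ((-1 : ℤ) : Γ(PP k 1, PP.chart k 1 1)) e₁).toFun (PP.chart k 1 1)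
        (PP.coord k 1 1 0)) = res inf_le_left (t ^ 2) *
          τ.toFun (PP.chart k 1 1) (PP.coord k 1 1 0)
      rw [hne, res_intCast, hτs, map_pow]
      have h3 : res hWle t * res hWle r = 1 := by rw [← map_mul, htr, map_one]
      rw [mul_neg, ← mul_pow, h3, one_pow, Int.cast_neg, Int.cast_one]) U b
  have e0 : (-(2 : ℤ)).toNat = 0 := by decide
  have e2 : (2 : ℤ).toNat = 2 := by decide
  rw [e0, e2, pow_zero, one_mul]
  refine key.trans ?_
  change res inf_le_left (t ^ 2) * τ.toFun U b = _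
  rw [map_pow, res_res]
  rfl

end

end FQ
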