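import Mathlib
import Pool.Agent.Helper41.FQ.M.ChPhi
import Pool.Agent.Helper41.FQ.M.Cover
import Pool.Agent.Helper41.FQ.M.Basis

/-!
MODULE FQ-CH-7 (`X` is smooth of relative dimension 5).

By definition of `SmoothOfRelativeDimension 5 M.s` we need for each `p` affine open sets `U = ⊤` of
`Spec k` and `V ∋ p` of `X` with `M.s.appLE ⊤ V _` standard smooth of relative dimension 5. Take
`V = c.U M` (`GP.cover_chart`, affine by `Model.inter_affine`). The ring homomorphism
`Γ(Spec k, ⊤) → Γ(X, V)` composed with the isomorphism `k ≅ Γ(Spec k, ⊤)` is `scal M.s V`, and via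
`ρ : ChartRing ≃+* Γ(X, V)` (`ChartIdx.exists_equiv`) it is `algebraMap k (ChartRing _)`, standard
smooth of relative dimension 5 (`ChartRing.standardSmooth`). Use
`RingHom.IsStandardSmoothOfRelativeDimension`, `isStandardSmoothOfRelativeDimension_respectsIso`
(`RingHom.RespectsIso`), `RingHom.isStandardSmoothOfRelativeDimension_algebraMap` or similar.
-/

open CategoryTheory AlgebraicGeometry TopologicalSpace

universe u

namespace FQ

variable {k : Type u} [Field k] [CharP k 2] {κ : Idx → k} {L : Type u} [Field L] [Algebra k L]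
  {N : ℕ} {e : Fin (N + 1) → L}

theorem model_smooth (x : GP κ L) (he : Set.range e = x.gens) (M : Model (k := k) e) :
    SmoothOfRelativeDimension 5 M.s := by
  refine ⟨fun p => ?_⟩
  obtain ⟨c, hc⟩ := x.cover_chart he M p
  obtain ⟨ρ, -, hρ⟩ := c.exists_equiv he M
  refine ⟨⊤, isAffineOpen_top _, c.U M, M.inter_affine c.i c.j, hc, le_top, ?_⟩
  have h1 : ((M.s.appLE ⊤ (c.U M) le_top).hom) =
      (ρ : ChartRing (labκ κ c.w) →+* Γ(M.X, c.U M)).comp
        ((algebraMap k (ChartRing (labκ κ c.w))).comp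
          ((Scheme.ΓSpecIso (.of k)).commRingCatIsoToRingEquiv : _ →+* k)) := by
    ext a
    have h2 := hρ ((Scheme.ΓSpecIso (.of k)).commRingCatIsoToRingEquiv a)
    refine Eq.trans ?_ h2.symm
    show _ = (M.s.appLE ⊤ (c.U M) le_top).hom ((Scheme.ΓSpecIso (.of k)).inv.hom
      ((Scheme.ΓSpecIso (.of k)).hom.hom a))
    congr 1
    exact (congrArg (fun f => f.hom a) (Scheme.ΓSpecIso (.of k)).hom_inv_id).symm
  rw [h1]
  have h3 : (algebraMap k (ChartRing (labκ κ c.w))).IsStandardSmoothOfRelativeDimension 5 :=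
    (RingHom.isStandardSmoothOfRelativeDimension_algebraMap 5).2 (ChartRing.standardSmooth _)
  exact (RingHom.IsStandardSmoothOfRelativeDimension.equiv ρ).comp
    (h3.comp (RingHom.IsStandardSmoothOfRelativeDimension.equiv _))

end FQ
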